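import Pool.Agent.TH658.Xr.Prog

set_option autoImplicit false
set_option linter.unusedSectionVars false

/-! Exhaustive search is a program. -/

namespace Pool.Agent.TH658.Xr

open Finset Pool.Agent.H30R2.PS Pool.Agent.TH658.Eq

variable {n k : ℕ} {V : Type}

/-- a gate given by one number -/
theorem gate_of_number (H : AddSubgroup (Fin n → ZMod 2)) (U : Submodule ℚ (CNF n k → ℚ))
    (x : CNF n k → ℚ) (hx : x ∈ U) (hinv : ∀ h ∈ H, ∀ F, x (flip h F) = x F)
    (v : CNF n k → V) (hv : ∀ F G, x F = x G → v F = v G) : ClassGate ℚ H 1 U v := by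
  have hmv : ∀ (q : Inv ℚ 1) (a : ℚ), mv (RingHom.id ℚ) (false, false) q (a • 1) = a • 1 := by
    intro q a
    show q.1 * (a • 1) * q⁻¹.1 = a • 1
    rw [mul_smul_comm, smul_mul_assoc, mul_one, ← Units.val_mul, mul_inv_cancel, Units.val_one]
  have hent : ∀ (a : ℚ) (i j : Fin 1), (a • (1 : Mat ℚ 1)) i j = a := by
    intro a i j
    have hij : i = j := Subsingleton.elim _ _
    rw [Matrix.smul_apply, hij, Matrix.one_apply_eq, smul_eq_mul, mul_one]
  refine ⟨Unit, RingHom.id ℚ, fun _ => (false, false), fun F _ => x F • 1, fun _ => 1, ?_, ?_,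
    ?_, ?_⟩
  · intro y i j
    have h1 : (fun F => (x F • (1 : Mat ℚ 1)) i j) = x := funext fun F => hent _ _ _
    rw [h1]
    exact hx
  · intro g h
    exact (mul_one 1).symm
  · intro h F y
    show x (flip h.1 F) • (1 : Mat ℚ 1) = mv (RingHom.id ℚ) (false, false) 1 (x F • 1)
    rw [hmv, hinv h.1 h.2]
  · rintro F G ⟨q, hq⟩
    refine hv F G ?_
    have h1 : x G • (1 : Mat ℚ 1) = x F • 1 := (hq ()).trans (hmv q (x F))
    have h2 : (x G • (1 : Mat ℚ 1)) 0 0 = (x F • (1 : Mat ℚ 1)) 0 0 := by rw [h1]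
    rw [hent, hent] at h2
    exact h2.symm

theorem flipCl_flipCl (γ : GX n) (c : Cl n k) : flipCl γ (flipCl γ c) = c := by
  funext a
  show ((c a).1, (c a).2 + γ (c a).1 + γ (c a).1) = c a
  rw [add_assoc, zmod2_add_self, add_zero]

/-- the assignment `0` satisfies the formula with some variables negated -/
theorem zero_sat_flip (γ : GX n) (F : CNF n k) :
    (∀ c, flip γ F c ≠ 0 → ¬ IsFalse c 0) ↔ ∀ c, F c ≠ 0 → ¬ IsFalse c γ := by
  have h1 : ∀ c : Cl n k, IsFalse (flipCl γ c) 0 ↔ IsFalse c γ := by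
    intro c
    refine forall_congr' fun a => ?_
    show (0 : ZMod 2) ≠ (c a).2 + γ (c a).1 ↔ γ (c a).1 ≠ (c a).2
    have h2 : ∀ x y : ZMod 2, 0 ≠ x + y ↔ y ≠ x := by decide
    exact h2 _ _
  constructor
  · intro h c hc hf
    refine h (flipCl γ c) ?_ ((h1 c).mpr hf)
    show F (flipCl γ (flipCl γ c)) ≠ 0
    rwa [flipCl_flipCl]
  · intro h c hc hf
    refine h (flipCl γ c) hc ((h1 _).mp ?_)
    rwa [flipCl_flipCl]

theorem falsified_mem (d : ℕ) (hd : k ≤ d) (x : GX n) :
    (fun F : CNF n k => (falsified F x : ℚ)) ∈ Local ℚ n k d := by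
  classical
  have h1 : (fun F : CNF n k => (falsified F x : ℚ)) =
      ∑ c ∈ univ.filter fun c : Cl n k => IsFalse c x, fun F : CNF n k => (F c : ℚ) := by
    funext F
    rw [Finset.sum_apply]
    unfold falsified
    push_cast
    exact Finset.sum_congr (Finset.filter_congr_decidable _ _ _) fun c _ => rfl
  rw [h1]
  refine Submodule.sum_mem _ fun c _ => Submodule.subset_span ?_
  refine ⟨univ.image fun a => (c a).1, ?_, ?_⟩
  · exact (Finset.card_image_le.trans (le_of_eq (Finset.card_fin k))).trans hd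
  · intro F G h
    show (F c : ℚ) = (G c : ℚ)
    rw [h c fun a => Finset.mem_image_of_mem _ (mem_univ a)]

theorem falsified_eq_zero (F : CNF n k) (x : GX n) :
    falsified F x = 0 ↔ ∀ c, F c ≠ 0 → ¬ IsFalse c x := by
  classical
  unfold falsified
  rw [Finset.sum_eq_zero_iff]
  constructor
  · intro h c hc hf
    exact hc (h c (Finset.mem_filter.mpr ⟨mem_univ _, hf⟩))
  · intro h c hc
    by_contra hn
    exact h c hn (Finset.mem_filter.mp hc).2

/-- Exhaustive search over the assignments is a program with two gates. -/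
theorem exhaustive (n k : ℕ) : ∃ (v : Fin 2 → CNF n k → Prop)
    (H : Fin 2 → AddSubgroup (Fin n → ZMod 2)), IsProgram k v H (fun _ => 1) (fun _ => 2) ∧
    (∀ F, v 1 F ↔ Satisfiable F) ∧ ∑ j, 1 ^ 2 * (H j).index = 2 ^ n + 1 := by
  classical
  let v : Fin 2 → CNF n k → Prop := ![fun F => ∀ c, F c ≠ 0 → ¬ IsFalse c 0, Satisfiable]
  let H : Fin 2 → AddSubgroup (Fin n → ZMod 2) := ![⊥, ⊤]
  refine ⟨v, H, ?_, fun F => Iff.rfl, ?_⟩
  · intro j
    refine ⟨Nat.one_pos, ℚ, inferInstance, by norm_num, Or.inl ⟨rfl, ?_⟩⟩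
    fin_cases j
    · -- the assignment `0`
      show ClassGate ℚ ⊥ 1 (Usable ℚ k v 0) (v 0)
      refine gate_of_number ⊥ _ (fun F => (falsified F 0 : ℚ))
        (Submodule.mem_sup_left (falsified_mem k le_rfl 0)) ?_ (v 0) ?_
      · intro h hh F
        rw [AddSubgroup.mem_bot] at hh
        rw [hh, flip_zero]
      · intro F G h
        have h1 : falsified F 0 = falsified G 0 := by exact_mod_cast h
        show (∀ c, F c ≠ 0 → ¬ IsFalse c 0) = (∀ c, G c ≠ 0 → ¬ IsFalse c 0)
        rw [← propext (falsified_eq_zero F 0), ← propext (falsified_eq_zero G 0), h1]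
    · -- the number of satisfying assignments
      show ClassGate ℚ ⊤ 1 (Usable ℚ k v 1) (v 1)
      let φ : Prop → ℚ := fun P => if P then 1 else 0
      refine gate_of_number ⊤ _ (fun F => ∑ γ : GX n, φ (v 0 (flip γ F))) ?_ ?_ (v 1) ?_
      · have h1 : (fun F : CNF n k => ∑ γ : GX n, φ (v 0 (flip γ F))) =
            ∑ γ : GX n, fun F : CNF n k => φ (v 0 (flip γ F)) := by
          funext F
          rw [Finset.sum_apply]
        rw [h1]
        refine Submodule.sum_mem _ fun γ _ => Submodule.mem_sup_right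
          (Submodule.subset_span ⟨0, by decide, γ, φ, rfl⟩)
      · intro h _ F
        show ∑ γ : GX n, φ (v 0 (flip γ (flip h F))) = ∑ γ : GX n, φ (v 0 (flip γ F))
        rw [← Equiv.sum_comp (Equiv.addRight h) (fun γ => φ (v 0 (flip γ F)))]
        refine Finset.sum_congr rfl fun γ _ => ?_
        show φ (v 0 (flip γ (flip h F))) = φ (v 0 (flip (γ + h) F))
        rw [flip_add]
      · have h1 : ∀ F : CNF n k, Satisfiable F ↔ ∑ γ : GX n, φ (v 0 (flip γ F)) ≠ 0 := by
          intro F
          have h2 : ∀ γ : GX n, 0 ≤ φ (v 0 (flip γ F)) := by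
            intro γ
            show (0 : ℚ) ≤ if v 0 (flip γ F) then 1 else 0
            split_ifs <;> norm_num
          rw [Ne, Finset.sum_eq_zero_iff_of_nonneg fun γ _ => h2 γ]
          push Not
          constructor
          · rintro ⟨x, hx⟩
            refine ⟨x, mem_univ _, ?_⟩
            show (if v 0 (flip x F) then (1 : ℚ) else 0) ≠ 0
            have h3 : v 0 (flip x F) := (zero_sat_flip x F).mpr hx
            rw [if_pos h3]
            exact one_ne_zero
          · rintro ⟨x, _, hx⟩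
            refine ⟨x, (zero_sat_flip x F).mp ?_⟩
            by_contra hn
            exact hx (if_neg hn)
        intro F G h
        show Satisfiable F = Satisfiable G
        rw [propext (h1 F), propext (h1 G)]
        have h' : ∑ γ : GX n, φ (v 0 (flip γ F)) = ∑ γ : GX n, φ (v 0 (flip γ G)) := h
        rw [h']
  · rw [Fin.sum_univ_two]
    show 1 ^ 2 * (⊥ : AddSubgroup (Fin n → ZMod 2)).index +
      1 ^ 2 * (⊤ : AddSubgroup (Fin n → ZMod 2)).index = _
    rw [AddSubgroup.index_bot, AddSubgroup.index_top, Nat.card_eq_fintype_card, Fintype.card_fun,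
      ZMod.card, Fintype.card_fin]
    ring

end Pool.Agent.TH658.Xr
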