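import Pool.Agent.TH658.Xr.Par

set_option autoImplicit false
set_option linter.unusedSectionVars false

/-! Estimates for equations with few variables. -/

namespace Pool.Agent.TH658.Xr

open Finset Pool.Agent.H30R2.PS Pool.Agent.TH658.Eq Pool.Agent.TH658.Sd

variable {n k m : ℕ}

theorem sum_abs_pow_small (n T : ℕ) (x : ℝ) (hx : 0 < x) :
    (∑ y : Fin n → ZMod 2, |(n : ℝ) - 2 * wt y| ^ T) * x ^ T ≤
      2 * (T.factorial : ℝ) * (2 ^ n * Real.exp (n * x ^ 2 / 2)) := by
  have h1 : ∀ u : ℝ, |u| ^ T * x ^ T ≤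
      (T.factorial : ℝ) * (Real.exp (x * u) + Real.exp (-(x * u))) := by
    intro u
    have h2 := Real.pow_div_factorial_le_exp (x * |u|) (by positivity) T
    rw [div_le_iff₀ (by positivity)] at h2
    rw [← mul_pow, mul_comm |u| x]
    refine h2.trans ?_
    rw [mul_comm]
    refine mul_le_mul_of_nonneg_left ?_ (by positivity)
    rcases abs_cases u with ⟨h, _⟩ | ⟨h, _⟩
    · rw [h]
      have := Real.exp_pos (-(x * u))
      linarith
    · rw [h, mul_neg]
      have := Real.exp_pos (x * u)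
      linarith
  rw [Finset.sum_mul]
  refine (Finset.sum_le_sum fun y _ => h1 _).trans ?_
  rw [← Finset.mul_sum, Finset.sum_add_distrib]
  have h2 : ∑ y : Fin n → ZMod 2, Real.exp (x * ((n : ℝ) - 2 * wt y)) =
      (Real.exp x + Real.exp (-x)) ^ n := by
    rw [← sum_prod n (Real.exp x) (Real.exp (-x))]
    refine Finset.sum_congr rfl fun y _ => ?_
    rw [prod_wt, ← Real.exp_nat_mul, ← Real.exp_nat_mul, ← Real.exp_add, Nat.cast_sub (wt_le y)]
    congr 1
    ring
  have h3 : ∑ y : Fin n → ZMod 2, Real.exp (-(x * ((n : ℝ) - 2 * wt y))) =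
      (Real.exp x + Real.exp (-x)) ^ n := by
    rw [add_comm (Real.exp x), ← sum_prod n (Real.exp (-x)) (Real.exp x)]
    refine Finset.sum_congr rfl fun y _ => ?_
    rw [prod_wt, ← Real.exp_nat_mul, ← Real.exp_nat_mul, ← Real.exp_add, Nat.cast_sub (wt_le y)]
    congr 1
    ring
  rw [h2, h3]
  have h4 : (Real.exp x + Real.exp (-x)) ^ n ≤ 2 ^ n * Real.exp (n * x ^ 2 / 2) := by
    have h5 := Real.cosh_le_exp_half_sq x
    rw [Real.cosh_eq] at h5
    have h6 : Real.exp x + Real.exp (-x) ≤ 2 * Real.exp (x ^ 2 / 2) := by linarith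
    refine (pow_le_pow_left₀ (by positivity) h6 n).trans (le_of_eq ?_)
    rw [mul_pow, ← Real.exp_nat_mul]
    congr 2
    ring
  have h5 : (0 : ℝ) < T.factorial := by positivity
  nlinarith

open Classical in
/-- the number of the wirings for which a combination of `wt l` equations is `ψ` -/
theorem frac_le (hn : 0 < n) (hk : 0 < k) (l : Fin m → ZMod 2) (hl : 0 < wt l)
    (ψ : Chr (GX n)) (x : ℝ) (hx : 0 < x) (hx2 : x ^ 2 = (k * wt l : ℕ) / n) :
    ((univ.filter fun w : WX n k m => ∀ h, dot l (BX w h) = ψ h).card : ℝ) ≤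
      2 * (x * Real.exp (1 / 2)) ^ (k * wt l) * n ^ (k * m) := by
  have hn0 : (0 : ℝ) < n := by exact_mod_cast hn
  set T := k * wt l with hT
  have hT0 : 0 < T := Nat.mul_pos hk hl
  have hTR : (0 : ℝ) < T := by exact_mod_cast hT0
  have h1 := count_le (n := n) (k := k) l ψ
  have h2 := sum_abs_pow_small n T x hx
  have h3 : (T.factorial : ℝ) ≤ (x ^ 2 * n) ^ T := by
    have h4 : T.factorial ≤ T ^ T := Nat.factorial_le_pow T
    have h5 : x ^ 2 * n = T := by
      rw [hx2]
      field_simp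
    rw [h5]
    exact_mod_cast h4
  have h4 : (n : ℝ) * x ^ 2 / 2 = T * (1 / 2) := by
    rw [hx2]
    field_simp
  have h5 : (∑ y : Fin n → ZMod 2, |(n : ℝ) - 2 * wt y| ^ T) ≤
      2 * (x * Real.exp (1 / 2)) ^ T * n ^ T * 2 ^ n := by
    have h6 : (∑ y : Fin n → ZMod 2, |(n : ℝ) - 2 * wt y| ^ T) * x ^ T ≤
        2 * (x * Real.exp (1 / 2)) ^ T * n ^ T * 2 ^ n * x ^ T := by
      refine h2.trans ?_
      rw [h4, Real.exp_nat_mul]
      have h7 : 2 * (T.factorial : ℝ) * (2 ^ n * Real.exp (1 / 2) ^ T) ≤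
          2 * (x ^ 2 * n) ^ T * (2 ^ n * Real.exp (1 / 2) ^ T) :=
        mul_le_mul_of_nonneg_right (by linarith) (by positivity)
      refine h7.trans (le_of_eq ?_)
      rw [mul_pow, mul_pow, ← pow_mul]
      ring
    exact le_of_mul_le_mul_right h6 (by positivity)
  have h6 : ((univ.filter fun w : WX n k m => ∀ h, dot l (BX w h) = ψ h).card : ℝ) * 2 ^ n ≤
      2 * (x * Real.exp (1 / 2)) ^ T * n ^ (k * m) * 2 ^ n := by
    refine h1.trans ((mul_le_mul_of_nonneg_right h5 (by positivity)).trans (le_of_eq ?_))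
    have h8 : (n : ℝ) ^ (k * m) = (n : ℝ) ^ T * (n : ℝ) ^ (k * (m - wt l)) := by
      rw [← pow_add, hT, ← Nat.mul_add, Nat.add_sub_cancel' (wt_le l)]
    rw [h8]
    ring
  exact le_of_mul_le_mul_right h6 (by positivity)

/-- the number of vectors of weight `t` -/
theorem card_wt_le (m t : ℕ) (ht : 0 < t) (htm : t ≤ m) :
    ((univ.filter fun l : Fin m → ZMod 2 => wt l = t).card : ℝ) ≤
      (Real.exp 1 * (m / t)) ^ t := by
  have ht0 : (0 : ℝ) < t := by exact_mod_cast ht
  have hm0 : (0 : ℝ) < m := by exact_mod_cast lt_of_lt_of_le ht htm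
  have h1 := card_light_le m t (t / m) (by positivity) (by
    rw [div_le_one hm0]
    exact_mod_cast htm)
  have h2 : (1 + (t : ℝ) / m) ^ m ≤ Real.exp 1 ^ t := by
    have h3 : 1 + (t : ℝ) / m ≤ Real.exp (t / m) := by
      rw [add_comm]
      exact Real.add_one_le_exp _
    refine (pow_le_pow_left₀ (by positivity) h3 m).trans (le_of_eq ?_)
    rw [← Real.exp_nat_mul, ← Real.exp_nat_mul]
    congr 1
    field_simp
  have h3 : ((univ.filter fun l : Fin m → ZMod 2 => wt l = t).card : ℝ) ≤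
      ((univ.filter fun l : Fin m → ZMod 2 => wt l ≤ t).card : ℝ) := by
    have h4 : (univ.filter fun l : Fin m → ZMod 2 => wt l = t) ⊆
        univ.filter fun l : Fin m → ZMod 2 => wt l ≤ t := by
      intro l hl
      exact Finset.mem_filter.mpr ⟨mem_univ _, (Finset.mem_filter.mp hl).2.le⟩
    exact_mod_cast Finset.card_le_card h4
  refine h3.trans ?_
  have h4 : ((univ.filter fun l : Fin m → ZMod 2 => wt l ≤ t).card : ℝ) * (t / m) ^ t ≤
      (Real.exp 1 * (m / t)) ^ t * (t / m) ^ t := by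
    refine (h1.trans h2).trans (le_of_eq ?_)
    rw [← mul_pow]
    congr 1
    field_simp
  exact le_of_mul_le_mul_right h4 (by positivity)

open Classical in
/-- the number of wirings with a combination of medium weight equal to a given one -/
theorem bad_small (hn : 0 < n) (hk : 3 ≤ k) (τ C : ℕ) (hC : 0 < C) (hm : m = C * n)
    (hτ : 100000 * C ^ 2 * k ^ 3 * τ ≤ n) (ψ : Chr (GX n)) :
    ((univ.filter fun w : WX n k m => ∃ l : Fin m → ZMod 2, τ < wt l ∧ wt l ≤ 2 * τ ∧
      ∀ h, dot l (BX w h) = ψ h).card : ℝ) ≤ 1 / 8 * (1 / 8) ^ τ * (n : ℝ) ^ (k * m) := by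
  have hn0 : (0 : ℝ) < n := by exact_mod_cast hn
  have hC0 : (1 : ℝ) ≤ C := by exact_mod_cast hC
  have hk0 : (3 : ℝ) ≤ k := by exact_mod_cast hk
  let Cn : (Fin m → ZMod 2) → Finset (WX n k m) := fun l =>
    univ.filter fun w : WX n k m => ∀ h, dot l (BX w h) = ψ h
  let Z := univ.filter fun l : Fin m → ZMod 2 => τ < wt l ∧ wt l ≤ 2 * τ
  have hsub : (univ.filter fun w : WX n k m => ∃ l : Fin m → ZMod 2, τ < wt l ∧ wt l ≤ 2 * τ ∧
      ∀ h, dot l (BX w h) = ψ h) ⊆ Z.biUnion Cn := by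
    intro w hw
    obtain ⟨l, h1, h2, h3⟩ := (Finset.mem_filter.mp hw).2
    exact Finset.mem_biUnion.mpr ⟨l, Finset.mem_filter.mpr ⟨mem_univ _, h1, h2⟩,
      Finset.mem_filter.mpr ⟨mem_univ _, h3⟩⟩
  have h1 : ((univ.filter fun w : WX n k m => ∃ l : Fin m → ZMod 2, τ < wt l ∧ wt l ≤ 2 * τ ∧
      ∀ h, dot l (BX w h) = ψ h).card : ℝ) ≤ ∑ l ∈ Z, ((Cn l).card : ℝ) := by
    have h2 := (Finset.card_le_card hsub).trans Finset.card_biUnion_le
    exact_mod_cast h2
  refine h1.trans ?_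
  -- the sum over the vectors of weight `t`
  have key : ∀ t ∈ Finset.Ioc τ (2 * τ),
      ∑ l ∈ univ.filter (fun l : Fin m → ZMod 2 => wt l = t), ((Cn l).card : ℝ) ≤
        2 * (1 / 16) ^ (τ + 1) * (n : ℝ) ^ (k * m) := by
    intro t ht
    rw [Finset.mem_Ioc] at ht
    have ht0 : 0 < t := by omega
    have htR : (0 : ℝ) < t := by exact_mod_cast ht0
    have h5 : 50000 * C ^ 2 * k ^ 3 * t ≤ n := by nlinarith [ht.2]
    have h5' : (50000 : ℝ) * C ^ 2 * k ^ 3 * t ≤ n := by exact_mod_cast h5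
    have htm : t ≤ m := by
      rw [hm]
      have h6 : 1 ≤ C ^ 2 * k ^ 3 := Nat.mul_pos (by positivity) (by positivity)
      nlinarith
    set x : ℝ := Real.sqrt ((k * t : ℕ) / n) with hx
    have hkt : (0 : ℝ) < ((k * t : ℕ) : ℝ) / n := by
      have : 0 < k * t := Nat.mul_pos (by omega) ht0
      have h7 : (0 : ℝ) < ((k * t : ℕ) : ℝ) := by exact_mod_cast this
      positivity
    have hx0 : 0 < x := Real.sqrt_pos.mpr hkt
    have hx2 : x ^ 2 = ((k * t : ℕ) : ℝ) / n := Real.sq_sqrt hkt.le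
    have hx3 : x ≤ 1 / (208 * C * k) := by
      refine le_of_sq_le_sq ?_ (by positivity)
      rw [hx2, div_pow, one_pow, div_le_div_iff₀ hn0 (by positivity)]
      push_cast
      have h8 : (k : ℝ) * t * (208 * C * k) ^ 2 = 43264 * (C ^ 2 * k ^ 3 * t) := by ring
      rw [h8]
      have h9 : (0 : ℝ) ≤ C ^ 2 * k ^ 3 * t := by positivity
      nlinarith
    have he : Real.exp 1 < 2.7182818286 := Real.exp_one_lt_d9
    have he2 : Real.exp (1 / 2) ^ 2 = Real.exp 1 := by
      rw [← Real.exp_nat_mul]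
      congr 1
      norm_num
    have he3 : Real.exp (1 / 2) ≤ 1.65 := by
      refine le_of_sq_le_sq ?_ (by norm_num)
      rw [he2]
      nlinarith
    have heh : 0 < Real.exp (1 / 2) := Real.exp_pos _
    -- the base
    have hμ1 : x * Real.exp (1 / 2) ≤ 1 := by
      have h9 : x ≤ 1 / 624 := by
        refine hx3.trans ?_
        rw [div_le_div_iff₀ (by positivity) (by norm_num)]
        nlinarith
      nlinarith
    have hbase : Real.exp 1 * (m / t) * (x * Real.exp (1 / 2)) ^ k ≤ 1 / 16 := by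
      have h9 : (x * Real.exp (1 / 2)) ^ k ≤ (x * Real.exp (1 / 2)) ^ 3 :=
        pow_le_pow_of_le_one (by positivity) hμ1 hk
      have h10 : (x * Real.exp (1 / 2)) ^ 3 = x * (k * t / n) * (Real.exp 1 * Real.exp (1 / 2)) := by
        rw [mul_pow, pow_succ, pow_succ (Real.exp (1 / 2)), hx2, he2]
        push_cast
        ring
      have h11 : Real.exp 1 * (m / t) * (x * Real.exp (1 / 2)) ^ 3 =
          x * (C * k) * (Real.exp 1 * (Real.exp 1 * Real.exp (1 / 2))) := by
        rw [h10, hm]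
        push_cast
        field_simp
      have h12 : Real.exp 1 * (Real.exp 1 * Real.exp (1 / 2)) ≤ 13 := by
        have h13 : Real.exp 1 * Real.exp (1 / 2) ≤ 2.7182818286 * 1.65 :=
          mul_le_mul he.le he3 heh.le (by norm_num)
        have h14 : Real.exp 1 * (Real.exp 1 * Real.exp (1 / 2)) ≤
            2.7182818286 * (2.7182818286 * 1.65) :=
          mul_le_mul he.le h13 (by positivity) (by norm_num)
        refine h14.trans (by norm_num)
      have h13 : x * (C * k) ≤ 1 / 208 := by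
        have h14 : x * (C * k) ≤ 1 / (208 * C * k) * (C * k) :=
          mul_le_mul_of_nonneg_right hx3 (by positivity)
        refine h14.trans (le_of_eq ?_)
        field_simp
      calc Real.exp 1 * (m / t) * (x * Real.exp (1 / 2)) ^ k
          ≤ Real.exp 1 * (m / t) * (x * Real.exp (1 / 2)) ^ 3 :=
            mul_le_mul_of_nonneg_left h9 (by positivity)
        _ = x * (C * k) * (Real.exp 1 * (Real.exp 1 * Real.exp (1 / 2))) := h11
        _ ≤ 1 / 208 * 13 := mul_le_mul h13 h12 (by positivity) (by norm_num)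
        _ = 1 / 16 := by norm_num
    have h6 : ∀ l ∈ univ.filter (fun l : Fin m → ZMod 2 => wt l = t), ((Cn l).card : ℝ) ≤
        2 * (x * Real.exp (1 / 2)) ^ (k * t) * n ^ (k * m) := by
      intro l hl
      have hlt := (Finset.mem_filter.mp hl).2
      have h7 := frac_le (m := m) hn (by omega : 0 < k) l (by omega) ψ x hx0 (by rw [hlt]; exact hx2)
      rw [hlt] at h7
      exact h7
    refine (Finset.sum_le_sum h6).trans ?_
    rw [Finset.sum_const, nsmul_eq_mul]
    have h7 := card_wt_le m t ht0 htm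
    have h8 : (0 : ℝ) ≤ 2 * (x * Real.exp (1 / 2)) ^ (k * t) * n ^ (k * m) := by positivity
    refine (mul_le_mul_of_nonneg_right h7 h8).trans ?_
    have h9 : (Real.exp 1 * (m / t)) ^ t * (2 * (x * Real.exp (1 / 2)) ^ (k * t) * n ^ (k * m)) =
        2 * (Real.exp 1 * (m / t) * (x * Real.exp (1 / 2)) ^ k) ^ t * n ^ (k * m) := by
      rw [mul_pow (Real.exp 1 * (m / t)) ((x * Real.exp (1 / 2)) ^ k) t, ← pow_mul]
      ring
    rw [h9]
    refine mul_le_mul_of_nonneg_right ?_ (by positivity)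
    refine mul_le_mul_of_nonneg_left ?_ (by norm_num)
    refine (pow_le_pow_left₀ (by positivity) hbase t).trans ?_
    exact pow_le_pow_of_le_one (by norm_num) (by norm_num) ht.1
  have h2 : ∑ l ∈ Z, ((Cn l).card : ℝ) = ∑ t ∈ Finset.Ioc τ (2 * τ),
      ∑ l ∈ univ.filter (fun l : Fin m → ZMod 2 => wt l = t), ((Cn l).card : ℝ) := by
    have hmaps : ∀ l ∈ Z, wt l ∈ Finset.Ioc τ (2 * τ) := by
      intro l hl
      obtain ⟨_, h3, h4⟩ := Finset.mem_filter.mp hl
      exact Finset.mem_Ioc.mpr ⟨h3, h4⟩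
    rw [← Finset.sum_fiberwise_of_maps_to hmaps]
    refine Finset.sum_congr rfl fun t ht => ?_
    refine Finset.sum_congr ?_ fun l _ => rfl
    ext l
    rw [Finset.mem_filter, Finset.mem_filter, Finset.mem_filter]
    rw [Finset.mem_Ioc] at ht
    constructor
    · rintro ⟨_, h⟩
      exact ⟨mem_univ _, h⟩
    · rintro ⟨_, h⟩
      exact ⟨⟨mem_univ _, by omega, by omega⟩, h⟩
  rw [h2]
  refine (Finset.sum_le_sum key).trans ?_
  rw [Finset.sum_const, nsmul_eq_mul, Nat.card_Ioc]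
  have h3 : ((2 * τ - τ : ℕ) : ℝ) ≤ 2 ^ τ := by
    have h4 : 2 * τ - τ ≤ 2 ^ τ := by
      have := (Nat.lt_two_pow_self (n := τ)).le
      omega
    exact_mod_cast h4
  have h4 : (0 : ℝ) ≤ (n : ℝ) ^ (k * m) := by positivity
  have h5 : ((2 * τ - τ : ℕ) : ℝ) * (2 * (1 / 16) ^ (τ + 1)) ≤ 1 / 8 * (1 / 8) ^ τ := by
    have h6 : (2 : ℝ) ^ τ * (2 * (1 / 16) ^ (τ + 1)) = 1 / 8 * (1 / 8) ^ τ := by
      rw [pow_succ]
      have h7 : (1 / 8 : ℝ) ^ τ = 2 ^ τ * (1 / 16) ^ τ := by
        rw [← mul_pow]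
        norm_num
      rw [h7]
      ring
    rw [← h6]
    exact mul_le_mul_of_nonneg_right h3 (by positivity)
  calc ((2 * τ - τ : ℕ) : ℝ) * (2 * (1 / 16) ^ (τ + 1) * (n : ℝ) ^ (k * m))
      = ((2 * τ - τ : ℕ) : ℝ) * (2 * (1 / 16) ^ (τ + 1)) * (n : ℝ) ^ (k * m) := by ring
    _ ≤ _ := mul_le_mul_of_nonneg_right h5 h4

end Pool.Agent.TH658.Xr
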