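import Pool.Agent.TH658.Xr.Core
import Pool.Agent.TH658.Xr.Small

set_option autoImplicit false
set_option linter.unusedSectionVars false

/-! The hard pair for a fixed number `k ≥ 3` of variables in the equations. -/

namespace Pool.Agent.TH658.Xr

open Finset Pool.Agent.H30R2.PS Pool.Agent.TH658.Eq Pool.Agent.TH658.Sd

variable {n k m : ℕ}

/-- sets are vectors -/
theorem card_sets_le (n s : ℕ) :
    (univ.filter fun D : Finset (Fin n) => D.card ≤ s).card ≤
      (univ.filter fun y : Fin n → ZMod 2 => wt y ≤ s).card := by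
  classical
  have hsupp : ∀ D : Finset (Fin n), (univ.filter fun v : Fin n =>
      (if v ∈ D then (1 : ZMod 2) else 0) ≠ 0) = D := by
    intro D
    ext v
    rw [Finset.mem_filter]
    constructor
    · rintro ⟨_, h⟩
      by_contra hn
      exact h (if_neg hn)
    · intro h
      refine ⟨mem_univ _, ?_⟩
      rw [if_pos h]
      exact one_ne_zero
  refine Finset.card_le_card_of_injOn (fun D => fun v => if v ∈ D then 1 else 0) ?_ ?_
  · intro D hD
    refine Finset.mem_coe.mpr (Finset.mem_filter.mpr ⟨mem_univ _, ?_⟩)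
    unfold wt
    rw [hsupp]
    exact (Finset.mem_filter.mp (Finset.mem_coe.mp hD)).2
  · intro D _ D' _ h
    rw [← hsupp D, ← hsupp D']
    refine Finset.filter_congr fun v _ => ?_
    have h1 : (if v ∈ D then (1 : ZMod 2) else 0) = if v ∈ D' then (1 : ZMod 2) else 0 :=
      congrFun h v
    rw [h1]

theorem card_sets_real (n s : ℕ) (x : ℝ) (hx : 0 < x) (hx1 : x ≤ 1) :
    ((univ.filter fun D : Finset (Fin n) => D.card ≤ s).card : ℝ) * x ^ s ≤
      Real.exp (x * n) := by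
  have h1 := card_light_le n s x hx hx1
  have h2 : (1 + x) ^ n ≤ Real.exp (x * n) := by
    have h3 : 1 + x ≤ Real.exp x := by
      rw [add_comm]
      exact Real.add_one_le_exp _
    refine (pow_le_pow_left₀ (by positivity) h3 n).trans (le_of_eq ?_)
    rw [← Real.exp_nat_mul, mul_comm]
  refine le_trans (mul_le_mul_of_nonneg_right ?_ (by positivity)) (h1.trans h2)
  exact_mod_cast card_sets_le n s

open Classical in
theorem card_not_nice_small {τ C : ℕ} (hn : 0 < n) (hτ0 : 0 < τ) (hk : 3 ≤ k) (hC : 0 < C)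
    (hm : m = C * n) (hτ : 100000 * C ^ 2 * k ^ 3 * τ ≤ n) :
    ((univ.filter fun w : WX n k m => ¬ Nice τ τ w).card : ℝ) ≤
      1 / 4 * (n : ℝ) ^ (k * m) := by
  have hn0 : (0 : ℝ) < n := by exact_mod_cast hn
  have hC0 : (1 : ℝ) ≤ C := by exact_mod_cast hC
  have hτR : (0 : ℝ) < τ := by exact_mod_cast hτ0
  set r : ℝ := τ / n with hr
  have hr0 : 0 < r := by positivity
  have hrn : r * n = τ := by
    rw [hr]
    field_simp
  have hrC : C * r ≤ 1 / 100000 := by
    have h1 : 100000 * (C * τ) ≤ n := by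
      refine le_trans ?_ hτ
      have h2 : 1 ≤ C * k ^ 3 := Nat.mul_pos hC (by positivity)
      calc 100000 * (C * τ) = 100000 * C * τ * 1 := by ring
        _ ≤ 100000 * C * τ * (C * k ^ 3) := Nat.mul_le_mul_left _ h2
        _ = _ := by ring
    have h3 : (100000 : ℝ) * (C * τ) ≤ n := by exact_mod_cast h1
    have h4 : C * r = C * τ / n := by
      rw [hr]
      ring
    rw [h4, div_le_div_iff₀ hn0 (by norm_num)]
    linarith
  have hr1 : r ≤ 1 := by nlinarith
  let DD : Finset (Finset (Fin n) × Finset (Fin m)) :=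
    (univ.filter fun D : Finset (Fin n) => D.card ≤ τ) ×ˢ
      (univ.filter fun I : Finset (Fin m) => I.card = τ + 1)
  let S : Finset (Fin n) × Finset (Fin m) → Finset (WX n k m) := fun P =>
    univ.filter fun w : WX n k m => ∀ p : Fin m × Fin k, p.1 ∈ P.2 → w p ∈ P.1
  have hsub : (univ.filter fun w : WX n k m => ¬ Nice τ τ w) ⊆ DD.biUnion S := by
    intro w hw
    have h1 := (Finset.mem_filter.mp hw).2
    unfold Nice at h1
    push Not at h1
    obtain ⟨D, hD, h2⟩ := h1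
    obtain ⟨I, hI, hI'⟩ := Finset.exists_subset_card_eq (Nat.succ_le_of_lt h2)
    refine Finset.mem_biUnion.mpr ⟨(D, I), Finset.mem_product.mpr
      ⟨Finset.mem_filter.mpr ⟨mem_univ _, hD⟩, Finset.mem_filter.mpr ⟨mem_univ _, hI'⟩⟩,
      Finset.mem_filter.mpr ⟨mem_univ _, ?_⟩⟩
    intro p hp
    exact (Finset.mem_filter.mp (hI hp)).2 p.2
  have h1 : ((univ.filter fun w : WX n k m => ¬ Nice τ τ w).card : ℝ) ≤
      ∑ P ∈ DD, ((S P).card : ℝ) := by
    exact_mod_cast (Finset.card_le_card hsub).trans Finset.card_biUnion_le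
  refine h1.trans ?_
  have h2 : ∀ P ∈ DD, ((S P).card : ℝ) ≤ r ^ (3 * (τ + 1)) * n ^ (k * m) := by
    intro P hP
    obtain ⟨hP1, hP2⟩ := Finset.mem_product.mp hP
    refine (card_S P.1 P.2 r ?_).trans ?_
    · rw [hrn]
      exact_mod_cast (Finset.mem_filter.mp hP1).2
    · refine mul_le_mul_of_nonneg_right ?_ (by positivity)
      rw [(Finset.mem_filter.mp hP2).2]
      exact pow_le_pow_of_le_one hr0.le hr1 (Nat.mul_le_mul_right _ hk)
  refine (Finset.sum_le_sum h2).trans ?_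
  rw [Finset.sum_const, nsmul_eq_mul, Finset.card_product, Nat.cast_mul]
  have hD := card_sets_real n τ r hr0 hr1
  rw [hrn] at hD
  have hrC0 : 0 < r / C := by positivity
  have hrC1 : r / C ≤ 1 := by
    rw [div_le_one (by positivity)]
    linarith
  have hI := card_sets_real m (τ + 1) (r / C) hrC0 hrC1
  have hrm : r / C * m = τ := by
    rw [hm]
    push_cast
    rw [← hrn]
    field_simp
  rw [hrm] at hI
  set ND : ℝ := ((univ.filter fun D : Finset (Fin n) => D.card ≤ τ).card : ℝ) with hND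
  set NI : ℝ := ((univ.filter fun I : Finset (Fin m) => I.card ≤ τ + 1).card : ℝ) with hNI
  have hNI' : ((univ.filter fun I : Finset (Fin m) => I.card = τ + 1).card : ℝ) ≤ NI := by
    have h3 : (univ.filter fun I : Finset (Fin m) => I.card = τ + 1) ⊆
        univ.filter fun I : Finset (Fin m) => I.card ≤ τ + 1 := by
      intro I hI
      exact Finset.mem_filter.mpr ⟨mem_univ _, (Finset.mem_filter.mp hI).2.le⟩
    rw [hNI]
    exact_mod_cast Finset.card_le_card h3
  have hND0 : 0 ≤ ND := Nat.cast_nonneg _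
  have hNI0 : 0 ≤ NI := Nat.cast_nonneg _
  have h3 : ND * NI * r ^ (3 * (τ + 1)) ≤ 1 / 4 := by
    have h4 : r ^ (3 * (τ + 1)) = r ^ τ * (r / C) ^ (τ + 1) * (C ^ (τ + 1) * r ^ (τ + 2)) := by
      have h40 : (r / C) ^ (τ + 1) * (C : ℝ) ^ (τ + 1) = r ^ (τ + 1) := by
        rw [← mul_pow, div_mul_cancel₀ r (by positivity : (C : ℝ) ≠ 0)]
      have h41 : r ^ τ * (r / C) ^ (τ + 1) * (C ^ (τ + 1) * r ^ (τ + 2)) =
          r ^ τ * ((r / C) ^ (τ + 1) * (C : ℝ) ^ (τ + 1)) * r ^ (τ + 2) := by ring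
      rw [h41, h40, ← pow_add, ← pow_add]
      congr 1
      ring
    have h5 : ND * NI * r ^ (3 * (τ + 1)) =
        (ND * r ^ τ) * (NI * (r / C) ^ (τ + 1)) * (C ^ (τ + 1) * r ^ (τ + 2)) := by
      rw [h4]
      ring
    have h6 : (ND * r ^ τ) * (NI * (r / C) ^ (τ + 1)) ≤ Real.exp τ * Real.exp τ :=
      mul_le_mul hD hI (by positivity) (Real.exp_pos _).le
    rw [h5]
    refine (mul_le_mul_of_nonneg_right h6 (by positivity)).trans ?_
    have h7 : Real.exp τ * Real.exp τ * ((C : ℝ) ^ (τ + 1) * r ^ (τ + 2)) =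
        (Real.exp 1 * Real.exp 1 * (C * r)) ^ τ * (C * r * r) := by
      have h8 : Real.exp τ = Real.exp 1 ^ τ := by
        rw [← Real.exp_nat_mul, mul_one]
      rw [h8, mul_pow, mul_pow, mul_pow, pow_succ, pow_succ r, pow_succ r]
      ring
    rw [h7]
    have he : Real.exp 1 < 2.7182818286 := Real.exp_one_lt_d9
    have he0 := Real.exp_pos 1
    have h8 : Real.exp 1 * Real.exp 1 * (C * r) ≤ 1 := by
      have h9 : Real.exp 1 * Real.exp 1 ≤ 9 := by nlinarith
      calc Real.exp 1 * Real.exp 1 * (C * r) ≤ 9 * (1 / 100000) :=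
            mul_le_mul h9 hrC (by positivity) (by norm_num)
        _ ≤ 1 := by norm_num
    have h9 : (Real.exp 1 * Real.exp 1 * (C * r)) ^ τ ≤ 1 :=
      pow_le_one₀ (by positivity) h8
    have h10 : C * r * r ≤ 1 / 4 := by
      calc C * r * r ≤ 1 / 100000 * 1 := mul_le_mul hrC hr1 hr0.le (by norm_num)
        _ ≤ 1 / 4 := by norm_num
    calc (Real.exp 1 * Real.exp 1 * (C * r)) ^ τ * (C * r * r) ≤ 1 * (1 / 4) :=
          mul_le_mul h9 h10 (by positivity) (by norm_num)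
      _ = 1 / 4 := by norm_num
  have hnk : (0 : ℝ) ≤ (n : ℝ) ^ (k * m) := by positivity
  calc ND * ((univ.filter fun I : Finset (Fin m) => I.card = τ + 1).card : ℝ) *
        (r ^ (3 * (τ + 1)) * (n : ℝ) ^ (k * m))
      ≤ ND * NI * (r ^ (3 * (τ + 1)) * (n : ℝ) ^ (k * m)) :=
        mul_le_mul_of_nonneg_right (mul_le_mul_of_nonneg_left hNI' hND0) (by positivity)
    _ = ND * NI * r ^ (3 * (τ + 1)) * (n : ℝ) ^ (k * m) := by ring
    _ ≤ _ := mul_le_mul_of_nonneg_right h3 hnk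

/-- The main theorem for fixed `k ≥ 3`. -/
theorem hard_fixed {η : ℝ} {C k n : ℕ} (hη : 0 < η) (hη1 : η ≤ 1)
    (hC : 4 / η ^ 2 ≤ C) (hk : 3 ≤ k) (hn : 100000 * C ^ 2 * k ^ 3 ≤ n) :
    ∃ (Ω : Type) (_ : Fintype Ω) (_ : Nonempty Ω) (F G : Ω → CNF n k),
      (∀ ω, Satisfiable (F ω) ∧ size (F ω) = C * n * 2 ^ (k - 1) ∧
        size (G ω) = C * n * 2 ^ (k - 1) ∧ (∀ c, F ω c ≤ 1) ∧ (∀ c, G ω c ≤ 1) ∧
        ∀ x, (1 - η) * size (G ω) < 2 ^ k * falsified (G ω) x) ∧
      ∀ (d s : ℕ) (V : Type) (v : Fin s → CNF n k → V)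
        (H : Fin s → AddSubgroup (Fin n → ZMod 2)) (r p : Fin s → ℕ),
        d ≤ n / (100000 * C ^ 2 * k ^ 3) → IsProgram d v H r p → ∀ (j₀ : Fin s) (T : Set V),
        |(Nat.card {ω // v j₀ (F ω) ∈ T} : ℝ) - Nat.card {ω // v j₀ (G ω) ∈ T}| *
          8 ^ (n / (100000 * C ^ 2 * k ^ 3)) ≤
          ((∑ j, r j ^ p j * (H j).index : ℕ) : ℝ) * Nat.card Ω := by
  classical
  have hη2 : η ^ 2 ≤ 1 := by nlinarith
  have hη20 : 0 < η ^ 2 := by positivity
  have hC4 : (4 : ℝ) ≤ C := by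
    refine le_trans ?_ hC
    rw [le_div_iff₀ hη20]
    linarith
  have hCη : 4 ≤ C * η ^ 2 := by
    rwa [div_le_iff₀ hη20] at hC
  have hC4' : 4 ≤ C := by exact_mod_cast hC4
  have hC1 : 0 < C := by omega
  set D := 100000 * C ^ 2 * k ^ 3 with hD
  have hD0 : 0 < D := by positivity
  have hn0 : 0 < n := lt_of_lt_of_le hD0 hn
  have hnR : (0 : ℝ) < n := by exact_mod_cast hn0
  have hnR1 : (1 : ℝ) ≤ n := by exact_mod_cast hn0
  set τ := n / D with hτ
  have hτ0 : 0 < τ := Nat.div_pos hn hD0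
  have hτn : D * τ ≤ n := Nat.mul_div_le n D
  have hnk : (0 : ℝ) < (n : ℝ) ^ (k * (C * n)) := by positivity
  refine hard_core (m := C * n) (τ := τ) (d0 := τ) (η := η)
    (β := 1 / 8 * (1 / 8) ^ τ * (n : ℝ) ^ (k * (C * n))) (P := 8 ^ τ) hn0 (by omega) hη
    (by positivity) ?_ ?_ ?_ ?_ ?_ ?_
  · intro ψ
    rw [Nat.card_eq_fintype_card, Fintype.card_subtype]
    exact bad_small hn0 hk τ C hC1 rfl hτn ψ
  · have h1 : (1 / 8 : ℝ) ^ τ * 8 ^ τ = 1 := by
      rw [← mul_pow]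
      norm_num
    have h2 : 1 / 8 * (1 / 8) ^ τ * (n : ℝ) ^ (k * (C * n)) * 8 ^ τ =
        1 / 8 * ((1 / 8) ^ τ * 8 ^ τ) * (n : ℝ) ^ (k * (C * n)) := by ring
    rw [h2, h1, mul_one]
  · have h1 : (1 / 8 : ℝ) ^ τ ≤ 1 := pow_le_one₀ (by norm_num) (by norm_num)
    refine mul_le_mul_of_nonneg_right ?_ hnk.le
    linarith
  · rw [Nat.card_eq_fintype_card, Fintype.card_subtype]
    exact card_not_nice_small hn0 hτ0 hk hC1 rfl hτn
  · push_cast
    have h1 : (n : ℝ) ^ 3 ≤ n ^ k := pow_le_pow_right₀ hnR1 hk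
    have h2 : (4 : ℝ) * C ^ 2 ≤ n := by
      have h3 : 4 * C ^ 2 ≤ n := by
        refine le_trans ?_ hn
        rw [hD]
        have h4 : 1 ≤ k ^ 3 := Nat.pos_of_ne_zero (by positivity)
        nlinarith [Nat.zero_le (C ^ 2)]
      exact_mod_cast h3
    rw [div_le_div_iff₀ (by positivity) (by norm_num)]
    have h3 : ((C : ℝ) * n) ^ 2 * 4 = 4 * C ^ 2 * n ^ 2 := by ring
    rw [h3]
    have h4 : (4 : ℝ) * C ^ 2 * n ^ 2 ≤ n * n ^ 2 := mul_le_mul_of_nonneg_right h2 (by positivity)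
    have h5 : (n : ℝ) * n ^ 2 = n ^ 3 := by ring
    linarith
  · have hNL : (NL (C * n) τ : ℝ) ≤ Real.exp (1 * n / 8) := by
      refine NL_le (ε := 1) (δ := 1 ^ 2 / (512 * C)) (by norm_num) le_rfl hC1 rfl ?_
      rw [one_pow, div_mul_eq_mul_div, one_mul, le_div_iff₀ (by positivity)]
      have h1 : τ * (512 * C) ≤ n := by
        refine le_trans ?_ hτn
        rw [hD]
        have h2 : 512 * C ≤ 100000 * C ^ 2 * k ^ 3 := by
          have h3 : 1 ≤ k ^ 3 := Nat.pos_of_ne_zero (by positivity)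
          have h4 : C ≤ C ^ 2 * k ^ 3 := by nlinarith
          nlinarith
        calc τ * (512 * C) = 512 * C * τ := by ring
          _ ≤ 100000 * C ^ 2 * k ^ 3 * τ := Nat.mul_le_mul_right _ h2
      exact_mod_cast h1
    rw [one_mul] at hNL
    have h2 : (2 : ℝ) ^ n ≤ Real.exp n := by
      have h3 : (2 : ℝ) ≤ Real.exp 1 := by
        have := Real.add_one_le_exp (1 : ℝ)
        linarith
      refine (pow_le_pow_left₀ (by norm_num) h3 _).trans (le_of_eq ?_)
      rw [← Real.exp_nat_mul, mul_one]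
    have h3 : Real.exp (-(η ^ 2 * ((C * n : ℕ) : ℝ) / 2)) ≤ Real.exp (-(2 * n)) := by
      refine Real.exp_le_exp.mpr ?_
      push_cast
      nlinarith
    have h4 : (NL (C * n) τ : ℝ) * (2 ^ n * Real.exp (-(η ^ 2 * ((C * n : ℕ) : ℝ) / 2))) < 1 := by
      have h5 : (NL (C * n) τ : ℝ) * (2 ^ n * Real.exp (-(η ^ 2 * ((C * n : ℕ) : ℝ) / 2))) ≤
          Real.exp (n / 8) * (Real.exp n * Real.exp (-(2 * n))) :=
        mul_le_mul hNL (mul_le_mul h2 h3 (Real.exp_pos _).le (Real.exp_pos _).le) (by positivity)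
          (Real.exp_pos _).le
      refine lt_of_le_of_lt h5 ?_
      rw [← Real.exp_add, ← Real.exp_add, ← Real.exp_zero]
      refine Real.exp_lt_exp.mpr ?_
      linarith
    have h5 : (NL (C * n) τ : ℝ) * (2 ^ n * (2 ^ (C * n) *
        Real.exp (-(η ^ 2 * ((C * n : ℕ) : ℝ) / 2)))) =
        (NL (C * n) τ : ℝ) * (2 ^ n * Real.exp (-(η ^ 2 * ((C * n : ℕ) : ℝ) / 2))) *
        2 ^ (C * n) := by ring
    rw [h5]
    have h6 : (0 : ℝ) < 2 ^ (C * n) := by positivity
    nlinarith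

end Pool.Agent.TH658.Xr
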