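import Pool.Agent.TH658.Xr.Uni
import Pool.Agent.TH658.Xr.Fix

set_option autoImplicit false
set_option linter.unusedSectionVars false

/-! The main theorem for arbitrary inputs and fixed `k ≥ 3`. -/

namespace Pool.Agent.TH658.Xr

open Finset Pool.Agent.H30R2.PS Pool.Agent.TH658.Eq Pool.Agent.TH658.Sd

variable {n k m : ℕ}

theorem hard_fixedX {η : ℝ} {C k n : ℕ} (hη : 0 < η) (hη1 : η ≤ 1)
    (hC : 4 / η ^ 2 ≤ C) (hk : 3 ≤ k) (hn : 100000 * C ^ 2 * k ^ 3 ≤ n) :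
    ∃ (Ω : Type) (_ : Fintype Ω) (_ : Nonempty Ω) (ww : Ω → WX n k (C * n)) (hh : Ω → GX n)
      (ee : Ω → Fin (C * n) → ZMod 2),
      (∀ ω, Distinct (ww ω) ∧ ∀ y, (1 - η) * (C * n : ℕ) <
        2 * (wt (ee ω + BX (ww ω) y) : ℝ)) ∧
      ∀ (X : Type) (act : (Fin n → ZMod 2) → X → X), (∀ x, act 0 x = x) →
        (∀ h h' x, act (h + h') x = act h (act h' x)) →
        ∀ x : WX n k (C * n) → (Fin (C * n) → ZMod 2) → X,
        (∀ w t h, x w (t + BX w h) = act h (x w t)) →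
        ∀ L : ∀ (K : Type) [Field K], Submodule K (X → K),
        (∀ (K : Type) [Field K], (2 : K) ≠ 0 → ∀ w,
          Nice (n / (100000 * C ^ 2 * k ^ 3)) (n / (100000 * C ^ 2 * k ^ 3)) w → ∀ g ∈ L K,
          (fun t => g (x w t)) ∈ Sp K {l : Fin (C * n) → ZMod 2 |
            wt l ≤ n / (100000 * C ^ 2 * k ^ 3)}) →
        ∀ (s : ℕ) (V : Type) (v : Fin s → X → V)
        (H : Fin s → AddSubgroup (Fin n → ZMod 2)) (r p : Fin s → ℕ),
        IsProgramX act L v H r p → ∀ (j₀ : Fin s) (T : Set V),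
        |(Nat.card {ω // v j₀ (x (ww ω) (BX (ww ω) (hh ω))) ∈ T} : ℝ) -
          Nat.card {ω // v j₀ (x (ww ω) (BX (ww ω) (hh ω) + ee ω)) ∈ T}| *
          8 ^ (n / (100000 * C ^ 2 * k ^ 3)) ≤
          ((∑ j, r j ^ p j * (H j).index : ℕ) : ℝ) * Nat.card Ω := by
  classical
  have hη2 : η ^ 2 ≤ 1 := by nlinarith
  have hη20 : 0 < η ^ 2 := by positivity
  have hC4 : (4 : ℝ) ≤ C := by
    refine le_trans ?_ hC
    rw [le_div_iff₀ hη20]
    linarith
  have hCη : 4 ≤ C * η ^ 2 := by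
    rwa [div_le_iff₀ hη20] at hC
  have hC4' : 4 ≤ C := by exact_mod_cast hC4
  have hC1 : 0 < C := by omega
  set D := 100000 * C ^ 2 * k ^ 3 with hD
  have hD0 : 0 < D := by positivity
  have hn0 : 0 < n := lt_of_lt_of_le hD0 hn
  have hnR : (0 : ℝ) < n := by exact_mod_cast hn0
  have hnR1 : (1 : ℝ) ≤ n := by exact_mod_cast hn0
  set τ := n / D with hτ
  have hτ0 : 0 < τ := Nat.div_pos hn hD0
  have hτn : D * τ ≤ n := Nat.mul_div_le n D
  have hnk : (0 : ℝ) < (n : ℝ) ^ (k * (C * n)) := by positivity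
  refine hard_coreX (m := C * n) (τ := τ) (d0 := τ) (η := η)
    (β := 1 / 8 * (1 / 8) ^ τ * (n : ℝ) ^ (k * (C * n))) (P := 8 ^ τ) hn0 hη
    (by positivity) ?_ ?_ ?_ ?_ ?_ ?_
  · intro ψ
    rw [Nat.card_eq_fintype_card, Fintype.card_subtype]
    exact bad_small hn0 hk τ C hC1 rfl hτn ψ
  · have h1 : (1 / 8 : ℝ) ^ τ * 8 ^ τ = 1 := by
      rw [← mul_pow]
      norm_num
    have h2 : 1 / 8 * (1 / 8) ^ τ * (n : ℝ) ^ (k * (C * n)) * 8 ^ τ =
        1 / 8 * ((1 / 8) ^ τ * 8 ^ τ) * (n : ℝ) ^ (k * (C * n)) := by ring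
    rw [h2, h1, mul_one]
  · have h1 : (1 / 8 : ℝ) ^ τ ≤ 1 := pow_le_one₀ (by norm_num) (by norm_num)
    refine mul_le_mul_of_nonneg_right ?_ hnk.le
    linarith
  · rw [Nat.card_eq_fintype_card, Fintype.card_subtype]
    exact card_not_nice_small hn0 hτ0 hk hC1 rfl hτn
  · push_cast
    have h1 : (n : ℝ) ^ 3 ≤ n ^ k := pow_le_pow_right₀ hnR1 hk
    have h2 : (4 : ℝ) * C ^ 2 ≤ n := by
      have h3 : 4 * C ^ 2 ≤ n := by
        refine le_trans ?_ hn
        rw [hD]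
        have h4 : 1 ≤ k ^ 3 := Nat.pos_of_ne_zero (by positivity)
        nlinarith [Nat.zero_le (C ^ 2)]
      exact_mod_cast h3
    rw [div_le_div_iff₀ (by positivity) (by norm_num)]
    have h3 : ((C : ℝ) * n) ^ 2 * 4 = 4 * C ^ 2 * n ^ 2 := by ring
    rw [h3]
    have h4 : (4 : ℝ) * C ^ 2 * n ^ 2 ≤ n * n ^ 2 := mul_le_mul_of_nonneg_right h2 (by positivity)
    have h5 : (n : ℝ) * n ^ 2 = n ^ 3 := by ring
    linarith
  · have hNL : (NL (C * n) τ : ℝ) ≤ Real.exp (1 * n / 8) := by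
      refine NL_le (ε := 1) (δ := 1 ^ 2 / (512 * C)) (by norm_num) le_rfl hC1 rfl ?_
      rw [one_pow, div_mul_eq_mul_div, one_mul, le_div_iff₀ (by positivity)]
      have h1 : τ * (512 * C) ≤ n := by
        refine le_trans ?_ hτn
        rw [hD]
        have h2 : 512 * C ≤ 100000 * C ^ 2 * k ^ 3 := by
          have h3 : 1 ≤ k ^ 3 := Nat.pos_of_ne_zero (by positivity)
          have h4 : C ≤ C ^ 2 * k ^ 3 := by nlinarith
          nlinarith
        calc τ * (512 * C) = 512 * C * τ := by ring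
          _ ≤ 100000 * C ^ 2 * k ^ 3 * τ := Nat.mul_le_mul_right _ h2
      exact_mod_cast h1
    rw [one_mul] at hNL
    have h2 : (2 : ℝ) ^ n ≤ Real.exp n := by
      have h3 : (2 : ℝ) ≤ Real.exp 1 := by
        have := Real.add_one_le_exp (1 : ℝ)
        linarith
      refine (pow_le_pow_left₀ (by norm_num) h3 _).trans (le_of_eq ?_)
      rw [← Real.exp_nat_mul, mul_one]
    have h3 : Real.exp (-(η ^ 2 * ((C * n : ℕ) : ℝ) / 2)) ≤ Real.exp (-(2 * n)) := by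
      refine Real.exp_le_exp.mpr ?_
      push_cast
      nlinarith
    have h4 : (NL (C * n) τ : ℝ) * (2 ^ n * Real.exp (-(η ^ 2 * ((C * n : ℕ) : ℝ) / 2))) < 1 := by
      have h5 : (NL (C * n) τ : ℝ) * (2 ^ n * Real.exp (-(η ^ 2 * ((C * n : ℕ) : ℝ) / 2))) ≤
          Real.exp (n / 8) * (Real.exp n * Real.exp (-(2 * n))) :=
        mul_le_mul hNL (mul_le_mul h2 h3 (Real.exp_pos _).le (Real.exp_pos _).le) (by positivity)
          (Real.exp_pos _).le
      refine lt_of_le_of_lt h5 ?_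
      rw [← Real.exp_add, ← Real.exp_add, ← Real.exp_zero]
      refine Real.exp_lt_exp.mpr ?_
      linarith
    have h5 : (NL (C * n) τ : ℝ) * (2 ^ n * (2 ^ (C * n) *
        Real.exp (-(η ^ 2 * ((C * n : ℕ) : ℝ) / 2)))) =
        (NL (C * n) τ : ℝ) * (2 ^ n * Real.exp (-(η ^ 2 * ((C * n : ℕ) : ℝ) / 2))) *
        2 ^ (C * n) := by ring
    rw [h5]
    have h6 : (0 : ℝ) < 2 ^ (C * n) := by positivity
    nlinarith

end Pool.Agent.TH658.Xr
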