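import Pool.Agent.TH658.Xr.Main

set_option autoImplicit false
set_option linter.unusedSectionVars false

/-! The hard pair of distributions, with abstract parameters, without repeated clauses. -/

namespace Pool.Agent.TH658.Xr

open Finset Pool.Agent.H30R2.PS Pool.Agent.TH658.Eq

variable {n k m s : ℕ} {V : Type}

/-- different equations have different lists of variables -/
def Distinct (w : WX n k m) : Prop := ∀ i i', (∀ a, w (i, a) = w (i', a)) → i = i'

theorem hardF_le_one (w : WX n k m) (hw : Distinct w) (t : Fin m → ZMod 2) (c : Cl n k) :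
    hardF w t c ≤ 1 := by
  classical
  unfold hardF
  rw [Finset.card_le_one]
  intro i hi i' hi'
  refine hw i i' fun a => ?_
  rw [← (Finset.mem_filter.mp hi).2.1 a, ← (Finset.mem_filter.mp hi').2.1 a]

theorem card_two_rows (hn : 0 < n) (i i' : Fin m) (hii : i ≠ i') (u : Fin k → Fin n) :
    ((univ.filter fun w : WX n k m => ∀ p : Fin m × Fin k, p.1 = i ∨ p.1 = i' →
      w p = u p.2).card : ℝ) ≤ (n : ℝ) ^ (k * m) / n ^ (2 * k) := by
  classical
  have hn0 : (0 : ℝ) < n := by exact_mod_cast hn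
  have h1 : (univ.filter fun w : WX n k m => ∀ p : Fin m × Fin k, p.1 = i ∨ p.1 = i' →
      w p = u p.2) = Fintype.piFinset fun p : Fin m × Fin k =>
      if p.1 = i ∨ p.1 = i' then {u p.2} else univ := by
    ext w
    rw [Finset.mem_filter, Fintype.mem_piFinset]
    constructor
    · rintro ⟨_, h⟩ p
      by_cases hp : p.1 = i ∨ p.1 = i'
      · rw [if_pos hp]
        exact Finset.mem_singleton.mpr (h p hp)
      · rw [if_neg hp]
        exact mem_univ _
    · intro h
      refine ⟨mem_univ _, fun p hp => ?_⟩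
      have h2 := h p
      rw [if_pos hp] at h2
      exact Finset.mem_singleton.mp h2
  rw [h1, Fintype.card_piFinset]
  push_cast
  have h2 : ∀ p : Fin m × Fin k, (((if p.1 = i ∨ p.1 = i' then {u p.2} else univ :
      Finset (Fin n)).card : ℕ) : ℝ) = (if p.1 = i ∨ p.1 = i' then (n : ℝ)⁻¹ else 1) * n := by
    intro p
    split_ifs with hp
    · rw [Finset.card_singleton, Nat.cast_one, inv_mul_cancel₀ hn0.ne']
    · rw [Finset.card_univ, Fintype.card_fin, one_mul]
  rw [Finset.prod_congr rfl fun p _ => h2 p, Finset.prod_mul_distrib, Finset.prod_const,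
    Finset.card_univ, Fintype.card_prod, Fintype.card_fin, Fintype.card_fin, mul_comm m k]
  rw [Fintype.prod_prod_type]
  have h3 : ∀ j : Fin m, (∏ a : Fin k, if (j, a).1 = i ∨ (j, a).1 = i' then (n : ℝ)⁻¹ else 1) =
      if j = i ∨ j = i' then ((n : ℝ)⁻¹) ^ k else 1 := by
    intro j
    show (∏ _a : Fin k, if j = i ∨ j = i' then (n : ℝ)⁻¹ else 1) = _
    rw [Finset.prod_const, Finset.card_univ, Fintype.card_fin]
    split_ifs
    · rfl
    · exact one_pow k
  rw [Finset.prod_congr rfl fun j _ => h3 j, Finset.prod_ite, Finset.prod_const_one, mul_one,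
    Finset.prod_const, ← pow_mul]
  have h4 : (univ.filter fun j : Fin m => j = i ∨ j = i').card = 2 := by
    have h5 : (univ.filter fun j : Fin m => j = i ∨ j = i') = {i, i'} := by
      ext j
      rw [Finset.mem_filter, Finset.mem_insert, Finset.mem_singleton]
      exact ⟨fun h => h.2, fun h => ⟨mem_univ _, h⟩⟩
    rw [h5, Finset.card_pair hii]
  rw [h4, inv_pow, mul_comm k 2, div_eq_inv_mul]

open Classical in
theorem card_not_distinct (hn : 0 < n) :
    ((univ.filter fun w : WX n k m => ¬ Distinct w).card : ℝ) ≤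
      (m : ℝ) ^ 2 / n ^ k * (n : ℝ) ^ (k * m) := by
  have hn0 : (0 : ℝ) < n := by exact_mod_cast hn
  let Z : Finset ((Fin m × Fin m) × (Fin k → Fin n)) := univ.filter fun P => P.1.1 ≠ P.1.2
  let S : (Fin m × Fin m) × (Fin k → Fin n) → Finset (WX n k m) := fun P =>
    univ.filter fun w : WX n k m => ∀ p : Fin m × Fin k, p.1 = P.1.1 ∨ p.1 = P.1.2 → w p = P.2 p.2
  have hsub : (univ.filter fun w : WX n k m => ¬ Distinct w) ⊆ Z.biUnion S := by
    intro w hw
    have h1 := (Finset.mem_filter.mp hw).2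
    unfold Distinct at h1
    push Not at h1
    obtain ⟨i, i', h2, h3⟩ := h1
    refine Finset.mem_biUnion.mpr ⟨((i, i'), fun a => w (i, a)),
      Finset.mem_filter.mpr ⟨mem_univ _, h3⟩, Finset.mem_filter.mpr ⟨mem_univ _, ?_⟩⟩
    rintro ⟨j, a⟩ (hj | hj)
    · have hj' : j = i := hj
      rw [hj']
    · have hj' : j = i' := hj
      rw [hj']
      exact (h2 a).symm
  have h1 : ((univ.filter fun w : WX n k m => ¬ Distinct w).card : ℝ) ≤
      ∑ P ∈ Z, ((S P).card : ℝ) := by
    exact_mod_cast (Finset.card_le_card hsub).trans Finset.card_biUnion_le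
  refine h1.trans ?_
  have h2 : ∀ P ∈ Z, ((S P).card : ℝ) ≤ (n : ℝ) ^ (k * m) / n ^ (2 * k) := fun P hP =>
    card_two_rows hn P.1.1 P.1.2 (Finset.mem_filter.mp hP).2 P.2
  refine (Finset.sum_le_sum h2).trans ?_
  rw [Finset.sum_const, nsmul_eq_mul]
  have h3 : (Z.card : ℝ) ≤ (m : ℝ) ^ 2 * n ^ k := by
    have h4 : Z.card ≤ m ^ 2 * n ^ k := by
      refine (Finset.card_le_univ _).trans (le_of_eq ?_)
      rw [Fintype.card_prod, Fintype.card_prod, Fintype.card_fun, Fintype.card_fin,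
        Fintype.card_fin, Fintype.card_fin, pow_two]
    exact_mod_cast h4
  refine (mul_le_mul_of_nonneg_right h3 (by positivity)).trans (le_of_eq ?_)
  have h5 : (n : ℝ) ^ (2 * k) = n ^ k * n ^ k := by
    rw [← pow_add]
    congr 1
    ring
  have h6 : (n : ℝ) ^ k ≠ 0 := (pow_pos hn0 k).ne'
  rw [h5]
  field_simp

/-- The main theorem with abstract parameters. -/
theorem hard_core {n k m τ d0 : ℕ} {η β P : ℝ} (hn0 : 0 < n) (hk0 : 0 < k) (hη : 0 < η)
    (hP0 : 0 < P)
    (hβ : ∀ ψ : Chr (GX n), (Nat.card {w : WX n k m // ∃ l : Fin m → ZMod 2,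
      τ < wt l ∧ wt l ≤ 2 * τ ∧ ∀ h, dot l (BX w h) = ψ h} : ℝ) ≤ β)
    (hβP : β * P ≤ 1 / 8 * (n : ℝ) ^ (k * m)) (hβ1 : β ≤ 1 / 8 * (n : ℝ) ^ (k * m))
    (hnice : (Nat.card {w : WX n k m // ¬ Nice d0 τ w} : ℝ) ≤ 1 / 4 * (n : ℝ) ^ (k * m))
    (hdist : (m : ℝ) ^ 2 / n ^ k ≤ 1 / 4)
    (hP3 : (NL m τ : ℝ) * (2 ^ n * (2 ^ m * Real.exp (-(η ^ 2 * (m : ℕ) / 2)))) < 2 ^ m) :
    ∃ (Ω : Type) (_ : Fintype Ω) (_ : Nonempty Ω) (F G : Ω → CNF n k),
      (∀ ω, Satisfiable (F ω) ∧ size (F ω) = m * 2 ^ (k - 1) ∧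
        size (G ω) = m * 2 ^ (k - 1) ∧ (∀ c, F ω c ≤ 1) ∧ (∀ c, G ω c ≤ 1) ∧
        ∀ x, (1 - η) * size (G ω) < 2 ^ k * falsified (G ω) x) ∧
      ∀ (d s : ℕ) (V : Type) (v : Fin s → CNF n k → V)
        (H : Fin s → AddSubgroup (Fin n → ZMod 2)) (r p : Fin s → ℕ),
        d ≤ d0 → IsProgram d v H r p → ∀ (j₀ : Fin s) (T : Set V),
        |(Nat.card {ω // v j₀ (F ω) ∈ T} : ℝ) - Nat.card {ω // v j₀ (G ω) ∈ T}| *
          P ≤ ((∑ j, r j ^ p j * (H j).index : ℕ) : ℝ) * Nat.card Ω := by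
  classical
  have hnR : (0 : ℝ) < n := by exact_mod_cast hn0
  have hnk : (0 : ℝ) < (n : ℝ) ^ (k * m) := by positivity
  have hβ' : ∀ ψ : Chr (GX n), ((univ.filter fun w : WX n k m => ∃ l : Fin m → ZMod 2,
      τ < wt l ∧ wt l ≤ 2 * τ ∧ ∀ h, dot l (BX w h) = ψ h).card : ℝ) ≤ β := by
    intro ψ
    have h1 := hβ ψ
    rwa [Nat.card_eq_fintype_card, Fintype.card_subtype] at h1
  rw [Nat.card_eq_fintype_card, Fintype.card_subtype] at hnice
  have hβ0 : 0 ≤ β := le_trans (Nat.cast_nonneg _) (hβ' 0)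
  have hok := card_okay hnice hβ' hβ1
  have hdist' : ((univ.filter fun w : WX n k m => ¬ Distinct w).card : ℝ) ≤
      1 / 4 * (n : ℝ) ^ (k * m) :=
    (card_not_distinct hn0).trans (mul_le_mul_of_nonneg_right hdist hnk.le)
  have hok2 : 1 / 4 * (n : ℝ) ^ (k * m) ≤
      ((univ.filter fun w : WX n k m => Okay d0 τ w ∧ Distinct w).card : ℝ) := by
    have h1 : (univ.filter fun w : WX n k m => Okay d0 τ w) ⊆
        (univ.filter fun w : WX n k m => Okay d0 τ w ∧ Distinct w) ∪
        (univ.filter fun w : WX n k m => ¬ Distinct w) := by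
      intro w hw
      have h2 := (Finset.mem_filter.mp hw).2
      by_cases h3 : Distinct w
      · exact Finset.mem_union_left _ (Finset.mem_filter.mpr ⟨mem_univ _, h2, h3⟩)
      · exact Finset.mem_union_right _ (Finset.mem_filter.mpr ⟨mem_univ _, h3⟩)
    have h2 := (Finset.card_le_card h1).trans (Finset.card_union_le _ _)
    have h3 : ((univ.filter fun w : WX n k m => Okay d0 τ w).card : ℝ) ≤
        ((univ.filter fun w : WX n k m => Okay d0 τ w ∧ Distinct w).card : ℝ) +
        ((univ.filter fun w : WX n k m => ¬ Distinct w).card : ℝ) := by exact_mod_cast h2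
    linarith
  have hokpos : 0 < (univ.filter fun w : WX n k m => Okay d0 τ w ∧ Distinct w).card := by
    have h1 : (0 : ℝ) < ((univ.filter fun w : WX n k m => Okay d0 τ w ∧ Distinct w).card : ℝ) :=
      lt_of_lt_of_le (by positivity) hok2
    exact_mod_cast h1
  obtain ⟨w0, hw0⟩ := Finset.card_pos.mp hokpos
  choose e he1 he2 using fun w : {w : WX n k m // Okay d0 τ w ∧ Distinct w} =>
    exists_twist hη w.1 w.2.1 hP3
  refine ⟨{w : WX n k m // Okay d0 τ w ∧ Distinct w} × GX n, inferInstance,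
    ⟨⟨⟨w0, (Finset.mem_filter.mp hw0).2⟩, 0⟩⟩, fun ω => hardF ω.1.1 (BX ω.1.1 ω.2),
    fun ω => hardF ω.1.1 (BX ω.1.1 ω.2 + e ω.1), ?_, ?_⟩
  · intro ω
    refine ⟨sat_hardF _ _, size_hardF hk0 _ _, size_hardF hk0 _ _,
      fun c => hardF_le_one _ ω.1.2.2 _ c, fun c => hardF_le_one _ ω.1.2.2 _ c, fun x => ?_⟩
    have h1 := falsified_hardF ω.1.1 (BX ω.1.1 ω.2 + e ω.1) x
    have h2 : BX ω.1.1 ω.2 + e ω.1 + BX ω.1.1 x = e ω.1 + BX ω.1.1 (ω.2 + x) := by
      rw [map_add, add_comm (BX ω.1.1 ω.2) (e ω.1), add_assoc]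
    rw [h2] at h1
    have h3 := he2 ω.1 (ω.2 + x)
    have h4 : (wt (e ω.1 + BX ω.1.1 (ω.2 + x)) : ℝ) ≤
        (falsified (hardF ω.1.1 (BX ω.1.1 ω.2 + e ω.1)) x : ℝ) := by exact_mod_cast h1
    have h5 : (size (hardF ω.1.1 (BX ω.1.1 ω.2 + e ω.1)) : ℝ) = m * 2 ^ (k - 1) := by
      rw [size_hardF hk0]
      push_cast
      rfl
    have h6 : (2 : ℝ) ^ k = 2 ^ (k - 1) * 2 := by
      rw [← pow_succ, Nat.sub_add_cancel hk0]
    rw [h5, h6]
    have h7 : (0 : ℝ) < 2 ^ (k - 1) := by positivity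
    nlinarith
  · intro d s V v H r p hdd hp j₀ T
    obtain ⟨Kf, iK, h2, Cs, hC1, hC2, E, hE, hv⟩ := gates (m := m) v H r p hp
    set σ : ℝ := ((∑ j, r j ^ p j * (H j).index : ℕ) : ℝ) with hσ
    -- the wirings bad for the program
    have hbad := count_bad (BX (n := n) (k := k) (m := m)) τ β hβ'
      (fun j => AddSubgroup.toZModSubmodule 2 (H j)) Cs
    have hbad' : ((univ.filter fun w : WX n k m => ∃ j,
        ¬ Sd.GoodG (AddSubgroup.toZModSubmodule 2 (H j)) (Cs j) (BX w) τ).card : ℝ) ≤ σ * β := by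
      have h3 : ∑ j, (Cs j).card ^ 2 *
          (AddSubgroup.toZModSubmodule 2 (H j)).toAddSubgroup.index ≤
          ∑ j, r j ^ p j * (H j).index :=
        Finset.sum_le_sum fun j _ => Nat.mul_le_mul_right _ (hC2 j)
      have h4 : ((∑ j, (Cs j).card ^ 2 *
          (AddSubgroup.toZModSubmodule 2 (H j)).toAddSubgroup.index : ℕ) : ℝ) ≤ σ := by
        rw [hσ]
        exact Nat.cast_le.mpr h3
      have h5 := mul_le_mul_of_nonneg_right h4 hβ0
      refine le_trans (le_of_eq ?_) (hbad.trans h5)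
      congr!
    let a : {w : WX n k m // Okay d0 τ w ∧ Distinct w} → ℕ := fun w =>
      (univ.filter fun h : GX n => v j₀ (hardF w.1 (BX w.1 h)) ∈ T).card
    let b : {w : WX n k m // Okay d0 τ w ∧ Distinct w} → ℕ := fun w =>
      (univ.filter fun h : GX n => v j₀ (hardF w.1 (BX w.1 h + e w)) ∈ T).card
    have ha : ∀ w, a w ≤ 2 ^ n := fun w => (Finset.card_le_univ _).trans (le_of_eq (by
      rw [Fintype.card_fun, ZMod.card, Fintype.card_fin]))
    have hb : ∀ w, b w ≤ 2 ^ n := fun w => (Finset.card_le_univ _).trans (le_of_eq (by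
      rw [Fintype.card_fun, ZMod.card, Fintype.card_fin]))
    have hab : ∀ w : {w : WX n k m // Okay d0 τ w ∧ Distinct w}, (∀ j,
        Sd.GoodG (AddSubgroup.toZModSubmodule 2 (H j)) (Cs j) (BX w.1) τ) → a w = b w := by
      intro w hgood
      have hrun := run flip (BX w.1) (hardF w.1) (fun t h => hardF_equi w.1 t h)
        (fun j => AddSubgroup.toZModSubmodule 2 (H j)) Cs hC1 Kf iK h2 E v hv τ hgood
        (fun j => Local (Kf j) n k d) (fun j f hf => local_lowX (h2 j) w.1 d τ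
          (fun D hD => w.2.1.1 D (hD.trans hdd)) f hf) hE j₀
      exact same_card (v j₀) T w.1 (AddSubgroup.toZModSubmodule 2 (H j₀)) τ
        (Sd.lightU _ (Cs j₀) (hC1 j₀) (BX w.1) τ (hgood j₀)) (fun l => Iff.rfl) hrun (e w) (he1 w)
    have hcard : ∀ (Q : {w : WX n k m // Okay d0 τ w ∧ Distinct w} × GX n → Prop),
        (Nat.card {ω // Q ω} : ℝ) = ∑ w : {w : WX n k m // Okay d0 τ w ∧ Distinct w},
          (((univ.filter fun h : GX n => Q (w, h)).card : ℕ) : ℝ) := by
      intro Q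
      rw [Nat.card_eq_fintype_card, Fintype.card_subtype, Finset.card_filter,
        Fintype.sum_prod_type]
      push_cast
      refine Finset.sum_congr rfl fun w _ => ?_
      rw [Finset.card_filter]
      push_cast
      rfl
    have hdiff : |(Nat.card {ω : {w : WX n k m // Okay d0 τ w ∧ Distinct w} × GX n //
          v j₀ (hardF ω.1.1 (BX ω.1.1 ω.2)) ∈ T} : ℝ) -
        Nat.card {ω : {w : WX n k m // Okay d0 τ w ∧ Distinct w} × GX n //
          v j₀ (hardF ω.1.1 (BX ω.1.1 ω.2 + e ω.1)) ∈ T}| ≤ σ * β * 2 ^ n := by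
      rw [hcard, hcard, ← Finset.sum_sub_distrib]
      refine (Finset.abs_sum_le_sum_abs _ _).trans ?_
      have h3 : ∀ w : {w : WX n k m // Okay d0 τ w ∧ Distinct w}, |(a w : ℝ) - (b w : ℝ)| ≤
          if ∃ j, ¬ Sd.GoodG (AddSubgroup.toZModSubmodule 2 (H j)) (Cs j) (BX w.1) τ
          then 2 ^ n else 0 := by
        intro w
        split_ifs with hw
        · have h4 : (a w : ℝ) ≤ 2 ^ n := by exact_mod_cast ha w
          have h5 : (b w : ℝ) ≤ 2 ^ n := by exact_mod_cast hb w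
          have h6 : (0 : ℝ) ≤ a w := Nat.cast_nonneg _
          have h7 : (0 : ℝ) ≤ b w := Nat.cast_nonneg _
          rw [abs_le]
          constructor <;> linarith
        · push Not at hw
          rw [hab w hw, sub_self, abs_zero]
      refine (Finset.sum_le_sum fun w _ => h3 w).trans ?_
      rw [← Finset.sum_filter, Finset.sum_const, nsmul_eq_mul]
      refine mul_le_mul_of_nonneg_right ?_ (by positivity)
      refine le_trans ?_ hbad'
      have h4 : (univ.filter fun w : {w : WX n k m // Okay d0 τ w ∧ Distinct w} => ∃ j,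
          ¬ Sd.GoodG (AddSubgroup.toZModSubmodule 2 (H j)) (Cs j) (BX w.1) τ).card ≤
          (univ.filter fun w : WX n k m => ∃ j,
          ¬ Sd.GoodG (AddSubgroup.toZModSubmodule 2 (H j)) (Cs j) (BX w) τ).card := by
        refine Finset.card_le_card_of_injOn (fun w => w.1) ?_ ?_
        · intro w hw
          exact Finset.mem_coe.mpr (Finset.mem_filter.mpr ⟨mem_univ _,
            (Finset.mem_filter.mp (Finset.mem_coe.mp hw)).2⟩)
        · intro w _ w' _ h
          exact Subtype.ext h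
      exact_mod_cast h4
    have hΩ : (Nat.card ({w : WX n k m // Okay d0 τ w ∧ Distinct w} × GX n) : ℝ) =
        ((univ.filter fun w : WX n k m => Okay d0 τ w ∧ Distinct w).card : ℝ) * 2 ^ n := by
      rw [Nat.card_eq_fintype_card, Fintype.card_prod, Fintype.card_subtype, Fintype.card_fun,
        ZMod.card, Fintype.card_fin]
      push_cast
      rfl
    rw [hΩ]
    have hσ0 : 0 ≤ σ := Nat.cast_nonneg _
    calc _ ≤ σ * β * 2 ^ n * P := mul_le_mul_of_nonneg_right hdiff hP0.le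
      _ = σ * 2 ^ n * (β * P) := by ring
      _ ≤ σ * 2 ^ n * (1 / 8 * (n : ℝ) ^ (k * m)) :=
          mul_le_mul_of_nonneg_left hβP (by positivity)
      _ ≤ σ * 2 ^ n *
          ((univ.filter fun w : WX n k m => Okay d0 τ w ∧ Distinct w).card : ℝ) := by
          refine mul_le_mul_of_nonneg_left ?_ (by positivity)
          refine le_trans ?_ hok2
          nlinarith
      _ = _ := by ring

end Pool.Agent.TH658.Xr
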