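import Pool.Agent.TH658.Xr.Wir

set_option autoImplicit false
set_option linter.unusedSectionVars false

/-! The engine: counting the bad wirings, running a program, equidistribution. -/

namespace Pool.Agent.TH658.Xr

open Finset Pool.Agent.H30R2.PS Pool.Agent.TH658.Eq Pool.Agent.TH658.Sd

section ext

variable {Γ : Type} [AddCommGroup Γ] [Module (ZMod 2) Γ] [Fintype Γ]

theorem card_annX (H : Submodule (ZMod 2) Γ) :
    Nat.card H.dualAnnihilator = H.toAddSubgroup.index := by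
  have h1 := Subspace.finrank_add_finrank_dualAnnihilator_eq H
  have h2 : Nat.card H * Nat.card H.dualAnnihilator = Nat.card Γ := by
    rw [Module.natCard_eq_pow_finrank (K := ZMod 2) (V := H),
      Module.natCard_eq_pow_finrank (K := ZMod 2) (V := H.dualAnnihilator),
      Module.natCard_eq_pow_finrank (K := ZMod 2) (V := Γ), ← pow_add, h1]
  have h3 := H.toAddSubgroup.index_mul_card
  have h4 : Nat.card H.toAddSubgroup = Nat.card H := rfl
  rw [h4] at h3
  have h5 : 0 < Nat.card H := Nat.card_pos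
  refine Nat.eq_of_mul_eq_mul_right h5 ?_
  rw [h3, mul_comm]
  exact h2

open Classical in
/-- the number of the extensions of a character -/
theorem card_extX (H : Submodule (ZMod 2) Γ) (χ : Chr H) :
    (univ.filter fun ψ : Chr Γ => ∀ h : H, ψ h = χ h).card ≤ H.toAddSubgroup.index := by
  rcases Finset.eq_empty_or_nonempty (univ.filter fun ψ : Chr Γ => ∀ h : H, ψ h = χ h)
    with h0 | ⟨ψ0, hψ0⟩
  · rw [h0, Finset.card_empty]
    exact Nat.zero_le _
  · have h1 := (Finset.mem_filter.mp hψ0).2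
    rw [← card_annX, ← Fintype.card_coe, ← Nat.card_eq_fintype_card]
    refine Nat.card_le_card_of_injective (fun ψ => ⟨ψ.1 + ψ0, ?_⟩) ?_
    · rw [Submodule.mem_dualAnnihilator]
      intro h hh
      have h2 := (Finset.mem_filter.mp ψ.2).2 ⟨h, hh⟩
      have h3 := h1 ⟨h, hh⟩
      show ψ.1 h + ψ0 h = 0
      rw [h2, h3]
      exact zmod2_add_self _
    · intro ψ ψ' h
      have h2 : ψ.1 + ψ0 = ψ'.1 + ψ0 := congrArg Subtype.val h
      exact Subtype.ext (add_right_cancel h2)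

end ext

section bad

variable {W Γ S : Type} [Fintype W] [AddCommGroup Γ] [Module (ZMod 2) Γ] [Fintype Γ]
  [Fintype S] [DecidableEq S]

open Classical in
/-- The number of the wirings which are bad for a family of sets of characters. -/
theorem count_bad (B : W → (Γ →ₗ[ZMod 2] (S → ZMod 2))) (τ : ℕ) (β : ℝ)
    (hβ : ∀ ψ : Chr Γ, ((univ.filter fun w : W => ∃ l : S → ZMod 2, τ < wt l ∧ wt l ≤ 2 * τ ∧
      ∀ h, dot l (B w h) = ψ h).card : ℝ) ≤ β)
    {J : Type} [Fintype J] (Hs : J → Submodule (ZMod 2) Γ) (C : ∀ j, Finset (Chr (Hs j))) :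
    ((univ.filter fun w : W => ∃ j, ¬ GoodG (Hs j) (C j) (B w) τ).card : ℝ) ≤
      ((∑ j, (C j).card ^ 2 * (Hs j).toAddSubgroup.index : ℕ) : ℝ) * β := by
  have hβ0 : 0 ≤ β := le_trans (Nat.cast_nonneg _) (hβ 0)
  let Bad : Chr Γ → Finset W := fun ψ => univ.filter fun w : W =>
    ∃ l : S → ZMod 2, τ < wt l ∧ wt l ≤ 2 * τ ∧ ∀ h, dot l (B w h) = ψ h
  have hBad : ∀ ψ, ((Bad ψ).card : ℝ) ≤ β := fun ψ => hβ ψ
  let Ex : (j : J) → Chr (Hs j) → Finset (Chr Γ) := fun j χ =>
    univ.filter fun ψ : Chr Γ => ∀ h : Hs j, ψ h = χ h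
  have hEx : ∀ j χ, (Ex j χ).card ≤ (Hs j).toAddSubgroup.index := fun j χ =>
    card_extX (Hs j) χ
  have hcov : (univ.filter fun w : W => ∃ j, ¬ GoodG (Hs j) (C j) (B w) τ) ⊆
      univ.biUnion fun j : J =>
      ((C j) ×ˢ (C j)).biUnion fun z => (Ex j (z.1 + z.2)).biUnion Bad := by
    intro w hw
    obtain ⟨j, h1⟩ := (Finset.mem_filter.mp hw).2
    unfold GoodG at h1
    push Not at h1
    obtain ⟨z, hz, z', hz', l, hl, hl', h2⟩ := h1
    refine Finset.mem_biUnion.mpr ⟨j, mem_univ _, Finset.mem_biUnion.mpr ⟨(z, z'),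
      Finset.mem_product.mpr ⟨hz, hz'⟩, Finset.mem_biUnion.mpr ?_⟩⟩
    let ψ : Chr Γ :=
      { toFun := fun h => dot l (B w h)
        map_add' := fun h h' => by rw [map_add, dot_add]
        map_smul' := fun c h => by
          rw [map_smul, dot_comm, smul_dot, dot_comm]
          rfl }
    refine ⟨ψ, Finset.mem_filter.mpr ⟨mem_univ _, fun h => h2 h⟩,
      Finset.mem_filter.mpr ⟨mem_univ _, l, hl, hl', fun h => rfl⟩⟩
  have h1 : ((univ.filter fun w : W => ∃ j, ¬ GoodG (Hs j) (C j) (B w) τ).card : ℝ) ≤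
      ∑ j, ∑ z ∈ (C j) ×ˢ (C j), ∑ ψ ∈ Ex j (z.1 + z.2), ((Bad ψ).card : ℝ) := by
    have h3 := (Finset.card_le_card hcov).trans (Finset.card_biUnion_le.trans
      (Finset.sum_le_sum fun j _ => Finset.card_biUnion_le.trans
        (Finset.sum_le_sum fun z _ => Finset.card_biUnion_le)))
    have h4 : (((∑ j, ∑ z ∈ (C j) ×ˢ (C j), ∑ ψ ∈ Ex j (z.1 + z.2), (Bad ψ).card : ℕ)) : ℝ) =
        ∑ j, ∑ z ∈ (C j) ×ˢ (C j), ∑ ψ ∈ Ex j (z.1 + z.2), ((Bad ψ).card : ℝ) := by
      push_cast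
      rfl
    rw [← h4]
    exact_mod_cast h3
  refine h1.trans ?_
  push_cast
  rw [Finset.sum_mul]
  refine Finset.sum_le_sum fun j _ => ?_
  calc ∑ z ∈ (C j) ×ˢ (C j), ∑ ψ ∈ Ex j (z.1 + z.2), ((Bad ψ).card : ℝ)
      ≤ ∑ z ∈ (C j) ×ˢ (C j), ∑ _ψ ∈ Ex j (z.1 + z.2), β :=
        Finset.sum_le_sum fun z _ => Finset.sum_le_sum fun ψ _ => hBad ψ
    _ ≤ ∑ _z ∈ (C j) ×ˢ (C j), ((Hs j).toAddSubgroup.index : ℝ) * β := by
        refine Finset.sum_le_sum fun z _ => ?_
        rw [Finset.sum_const, nsmul_eq_mul]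
        exact mul_le_mul_of_nonneg_right (by exact_mod_cast hEx j _) hβ0
    _ = _ := by
        rw [Finset.sum_const, Finset.card_product, nsmul_eq_mul]
        push_cast
        ring

end bad

section run

variable {Γ S : Type} [AddCommGroup Γ] [Module (ZMod 2) Γ] [Fintype Γ]
  [Fintype S] [DecidableEq S] {X V : Type}

/-- the functions available to a gate: combinations of functions in `L` and of functions of the
values of earlier gates at the transforms of the input -/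
def AvailT {s : ℕ} (K : Type) [Field K] (act : Γ → X → X) (L : Submodule K (X → K))
    (v : Fin s → X → V) (j : Fin s) : Submodule K (X → K) :=
  L ⊔ Submodule.span K {g | ∃ i, i < j ∧ ∃ (γ : Γ) (φ : V → K), g = fun A => φ (v i (act γ A))}

/-- the values of the gates depend only on their light vectors -/
theorem run (act : Γ → X → X) (B : Γ →ₗ[ZMod 2] (S → ZMod 2)) (x : (S → ZMod 2) → X)
    (hx : ∀ t h, x (t + B h) = act h (x t)) {s : ℕ} (H : Fin s → Submodule (ZMod 2) Γ)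
    (C : ∀ j, Finset (Chr (H j))) (hC : ∀ j, (C j).Nonempty) (Kf : Fin s → Type)
    (iK : ∀ j, Field (Kf j)) (h2 : ∀ j, (2 : Kf j) ≠ 0) (E : ∀ j, Set (X → Kf j))
    (v : Fin s → X → V) (hv : ∀ j, InvG S act (H j) (C j) (E j) (v j)) (τ : ℕ)
    (hgood : ∀ j, GoodG (H j) (C j) B τ) (L : ∀ j, Submodule (Kf j) (X → Kf j))
    (hL : ∀ j, ∀ f ∈ L j, (fun t => f (x t)) ∈ Sp (Kf j) {l : S → ZMod 2 | wt l ≤ τ})
    (hE : ∀ j, ∀ f ∈ E j, f ∈ AvailT (Kf j) act (L j) v j) :
    ∀ j, ∀ e : S → ZMod 2, (∀ l : S → ZMod 2, wt l ≤ τ →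
      (∀ h : H j, dot l (B (h : Γ)) = 0) → dot l e = 0) → ∀ t,
      v j (x (t + e)) = v j (x t) := by
  classical
  intro j
  induction j using WellFoundedLT.induction with
  | _ j ih =>
    refine hv j B x hx τ ?_ (hgood j)
    intro f hf
    let W := Sp (Kf j) {l : S → ZMod 2 | wt l ≤ τ}
    let P : Submodule (Kf j) (X → Kf j) :=
      { carrier := {f | (fun t => f (x t)) ∈ W}
        add_mem' := fun {f g} hf hg => W.add_mem hf hg
        zero_mem' := W.zero_mem
        smul_mem' := fun c {f} hf => W.smul_mem c hf }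
    have h3 : AvailT (Kf j) act (L j) v j ≤ P := by
      refine sup_le (fun f hf => hL j f hf) (Submodule.span_le.mpr ?_)
      rintro _ ⟨i, hi, γ, φ, rfl⟩
      refine low_of_inv (h2 j) (hC i) B τ (hgood i) (fun t => φ (v i (act γ (x t))))
        (fun e he t => ?_)
      show φ (v i (act γ (x (t + e)))) = φ (v i (act γ (x t)))
      rw [← hx, ← hx, add_right_comm]
      exact congrArg φ (ih i hi e he _)
    exact h3 (hE j f hf)

/-- Translations by vectors invisible for the light relations do not change the distribution. -/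
theorem equi (B : Γ →ₗ[ZMod 2] (S → ZMod 2)) (U : Submodule (ZMod 2) (S → ZMod 2))
    (G : (S → ZMod 2) → Prop) (hG : ∀ e ∈ ann U, ∀ t, G (t + e) ↔ G t) (e : S → ZMod 2)
    (he : ∀ l ∈ U, (∀ h, dot l (B h) = 0) → dot l e = 0) :
    ∃ h', ∀ h, G (B h + e) ↔ G (B (h + h')) := by
  let U' : Submodule (ZMod 2) (S → ZMod 2) :=
    { carrier := {l | l ∈ U ∧ ∀ h, dot l (B h) = 0}
      add_mem' := fun {a b} ha hb => ⟨U.add_mem ha.1 hb.1, fun h => by
        rw [add_dot, ha.2, hb.2, add_zero]⟩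
      zero_mem' := ⟨U.zero_mem, fun h => zero_dot _⟩
      smul_mem' := fun c {a} ha => ⟨U.smul_mem c ha.1, fun h => by
        rw [smul_dot, ha.2, mul_zero]⟩ }
  obtain ⟨e', q, he', ⟨h', rfl⟩, h⟩ := decomp U U' (LinearMap.range B)
    (fun μ hμ h1 => ⟨hμ, fun h => h1 _ ⟨h, rfl⟩⟩) e (fun s hs => he s hs.1 hs.2)
  refine ⟨h', fun h0 => ?_⟩
  rw [h, map_add]
  have h1 : B h0 + (e' + B h') = B h0 + B h' + e' := by
    rw [add_comm e', add_assoc]
  rw [h1]
  exact hG e' (fun s hs => he' s hs) _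

end run

end Pool.Agent.TH658.Xr
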