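import Pool.Agent.TH658.Xr.Par
import Pool.Agent.TH658.Xr.Eng

set_option autoImplicit false
set_option linter.unusedSectionVars false

/-! CNF formulas, sign changes and the family of hard formulas. -/

namespace Pool.Agent.TH658.Xr

open Finset Pool.Agent.H30R2.PS Pool.Agent.TH658.Eq Pool.Agent.TH658.Sd

/-- A clause with `k` literals. The literal `(v, s)` is true under `x` if `x v = s`. -/
abbrev Cl (n k : ℕ) := Fin k → Fin n × ZMod 2

/-- A `k`-CNF formula with `n` variables, given by the multiplicities of the clauses. -/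
abbrev CNF (n k : ℕ) := Cl n k → ℕ

section defs

variable {n k : ℕ}

/-- The clause `c` is false under the assignment `x`. -/
def IsFalse (c : Cl n k) (x : Fin n → ZMod 2) : Prop := ∀ a, x (c a).1 ≠ (c a).2

/-- Some assignment makes all the clauses of the formula true. -/
def Satisfiable (F : CNF n k) : Prop := ∃ x : Fin n → ZMod 2, ∀ c, F c ≠ 0 → ¬ IsFalse c x

/-- The number of the clauses, with multiplicities. -/
def size (F : CNF n k) : ℕ := ∑ c, F c

open Classical in
/-- The number of the clauses false under `x`, with multiplicities. -/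
noncomputable def falsified (F : CNF n k) (x : Fin n → ZMod 2) : ℕ :=
  ∑ c ∈ univ.filter fun c => IsFalse c x, F c

/-- The clause in which the variables `v` with `h v = 1` are negated. -/
def flipCl (h : Fin n → ZMod 2) (c : Cl n k) : Cl n k := fun a => ((c a).1, (c a).2 + h (c a).1)

/-- The formula in which the variables `v` with `h v = 1` are negated. -/
def flip (h : Fin n → ZMod 2) (F : CNF n k) : CNF n k := fun c => F (flipCl h c)

/-- The span of the functions of a formula which depend only on its clauses with variables in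
some set of at most `d` variables. -/
def Local (K : Type) [Field K] (n k d : ℕ) : Submodule K (CNF n k → K) :=
  Submodule.span K {g | ∃ D : Finset (Fin n), D.card ≤ d ∧
    ∀ F G : CNF n k, (∀ c, (∀ a, (c a).1 ∈ D) → F c = G c) → g F = g G}

end defs

variable {n k m : ℕ}

theorem flip_zero (F : CNF n k) : flip 0 F = F := by
  funext c
  show F (flipCl 0 c) = F c
  congr 1
  funext a
  show ((c a).1, (c a).2 + 0) = c a
  rw [add_zero]

theorem flip_add (h h' : GX n) (F : CNF n k) : flip (h + h') F = flip h (flip h' F) := by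
  funext c
  show F (flipCl (h + h') c) = F (flipCl h' (flipCl h c))
  congr 1
  funext a
  show ((c a).1, (c a).2 + (h (c a).1 + h' (c a).1)) = ((c a).1, (c a).2 + h (c a).1 + h' (c a).1)
  rw [add_assoc]

open Classical in
/-- the hard formulas: the clauses expressing the equations -/
noncomputable def hardF (w : WX n k m) (t : Fin m → ZMod 2) : CNF n k := fun c =>
  (univ.filter fun i : Fin m => (∀ a, (c a).1 = w (i, a)) ∧ ∑ a, (c a).2 = t i + 1 + k).card

theorem hardF_equi (w : WX n k m) (t : Fin m → ZMod 2) (h : GX n) :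
    hardF w (t + BX w h) = flip h (hardF w t) := by
  classical
  funext c
  show (univ.filter fun i : Fin m => (∀ a, (c a).1 = w (i, a)) ∧
    ∑ a, (c a).2 = (t + BX w h) i + 1 + k).card = (univ.filter fun i : Fin m =>
    (∀ a, (c a).1 = w (i, a)) ∧ ∑ a, ((c a).2 + h (c a).1) = t i + 1 + k).card
  congr 1
  refine Finset.filter_congr fun i _ => ?_
  refine and_congr_right fun hv => ?_
  rw [Finset.sum_add_distrib]
  have h1 : ∑ a, h (c a).1 = BX w h i := Finset.sum_congr rfl fun a _ => by rw [hv a]
  rw [h1, Pi.add_apply]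
  have h2 : ∀ s t b u : ZMod 2, s = t + b + 1 + u ↔ s + b = t + 1 + u := by decide
  exact h2 _ _ _ _

/-- the number of the vectors with a given sum -/
theorem card_sum (hk : 0 < k) (b : ZMod 2) :
    (univ.filter fun s : Fin k → ZMod 2 => ∑ a, s a = b).card = 2 ^ (k - 1) := by
  classical
  obtain ⟨k, rfl⟩ : ∃ k', k = k' + 1 := ⟨k - 1, by omega⟩
  have h1 : (univ.filter fun s : Fin (k + 1) → ZMod 2 => ∑ a, s a = b).card =
      (univ : Finset (Fin k → ZMod 2)).card := by
    refine Finset.card_bij (fun s _ => Fin.tail s) (fun s _ => mem_univ _) ?_ ?_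
    · intro s hs s' hs' h
      have h2 := (Finset.mem_filter.mp hs).2
      have h3 := (Finset.mem_filter.mp hs').2
      rw [Fin.sum_univ_succ] at h2 h3
      have h4 : ∑ i : Fin k, s i.succ = ∑ i : Fin k, s' i.succ :=
        Finset.sum_congr rfl fun i _ => congrFun h i
      have h5 : s 0 = s' 0 := by
        rw [h4] at h2
        exact add_right_cancel (h2.trans h3.symm)
      rw [← Fin.cons_self_tail s, ← Fin.cons_self_tail s', h5]
      congr 1
    · intro u _
      refine ⟨Fin.cons (b - ∑ a, u a) u, Finset.mem_filter.mpr ⟨mem_univ _, ?_⟩,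
        Fin.tail_cons _ _⟩
      rw [Fin.sum_univ_succ]
      simp only [Fin.cons_zero, Fin.cons_succ]
      exact sub_add_cancel _ _
  rw [h1, Finset.card_univ, Fintype.card_fun, ZMod.card, Fintype.card_fin, Nat.add_sub_cancel]

theorem size_hardF (hk : 0 < k) (w : WX n k m) (t : Fin m → ZMod 2) :
    size (hardF w t) = m * 2 ^ (k - 1) := by
  classical
  unfold size hardF
  simp only [Finset.card_filter]
  rw [Finset.sum_comm]
  have h1 : ∀ i : Fin m, (∑ c : Cl n k, if (∀ a, (c a).1 = w (i, a)) ∧
      ∑ a, (c a).2 = t i + 1 + k then 1 else 0) = 2 ^ (k - 1) := by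
    intro i
    rw [← Finset.card_filter, ← card_sum hk (t i + 1 + k)]
    refine Finset.card_bij (fun c _ => fun a => (c a).2) ?_ ?_ ?_
    · intro c hc
      exact Finset.mem_filter.mpr ⟨mem_univ _, (Finset.mem_filter.mp hc).2.2⟩
    · intro c hc c' hc' h
      funext a
      refine Prod.ext ?_ (congrFun h a)
      rw [(Finset.mem_filter.mp hc).2.1 a, (Finset.mem_filter.mp hc').2.1 a]
    · intro s hs
      exact ⟨fun a => (w (i, a), s a), Finset.mem_filter.mpr ⟨mem_univ _, fun a => rfl,
        (Finset.mem_filter.mp hs).2⟩, rfl⟩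
  rw [Finset.sum_congr rfl fun i _ => h1 i, Finset.sum_const, Finset.card_univ, Fintype.card_fin,
    smul_eq_mul]

theorem falsified_hardF (w : WX n k m) (t : Fin m → ZMod 2) (x : GX n) :
    wt (t + BX w x) ≤ falsified (hardF w t) x := by
  classical
  unfold falsified hardF
  simp only [Finset.card_filter]
  rw [Finset.sum_comm]
  unfold wt
  rw [Finset.card_filter]
  refine Finset.sum_le_sum fun i _ => ?_
  by_cases hi : (t + BX w x) i ≠ 0
  · rw [if_pos hi, ← Finset.card_filter]
    refine Finset.card_pos.mpr ⟨fun a => (w (i, a), x (w (i, a)) + 1), ?_⟩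
    rw [Finset.mem_filter, Finset.mem_filter]
    refine ⟨⟨mem_univ _, fun a => ?_⟩, fun a => rfl, ?_⟩
    · have h1 : ∀ y : ZMod 2, y ≠ y + 1 := by decide
      exact h1 _
    · show ∑ a, (x (w (i, a)) + 1) = t i + 1 + k
      rw [Finset.sum_add_distrib, Finset.sum_const, Finset.card_univ, Fintype.card_fin,
        nsmul_eq_mul, mul_one, ← BX_apply]
      rw [Pi.add_apply] at hi
      have h1 : ∀ t b u : ZMod 2, t + b ≠ 0 → b + u = t + 1 + u := by decide
      exact h1 _ _ _ hi
  · rw [if_neg hi]
    exact Nat.zero_le _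

theorem sat_hardF (w : WX n k m) (h : GX n) : Satisfiable (hardF w (BX w h)) := by
  classical
  refine ⟨h, fun c hc hf => hc ?_⟩
  unfold hardF
  rw [Finset.card_eq_zero, Finset.filter_eq_empty_iff]
  rintro i _ ⟨h1, h2⟩
  have h3 : ∀ a, (c a).2 = h (w (i, a)) + 1 := by
    intro a
    have h4 := hf a
    rw [h1 a] at h4
    have h5 : ∀ x y : ZMod 2, x ≠ y → y = x + 1 := by decide
    exact h5 _ _ h4
  rw [Finset.sum_congr rfl fun a _ => h3 a, Finset.sum_add_distrib, Finset.sum_const,
    Finset.card_univ, Fintype.card_fin, nsmul_eq_mul, mul_one, ← BX_apply] at h2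
  have h5 : ∀ b u : ZMod 2, b + u ≠ b + 1 + u := by decide
  exact h5 _ _ h2

/-- local functions have low degree -/
theorem local_lowX {K : Type} [Field K] (h2 : (2 : K) ≠ 0) (w : WX n k m) (d τ : ℕ)
    (hw : Nice d τ w) (g : CNF n k → K) (hg : g ∈ Local K n k d) :
    (fun t => g (hardF w t)) ∈ Sp K {l : Fin m → ZMod 2 | wt l ≤ τ} := by
  classical
  refine Submodule.span_induction
    (p := fun g _ => (fun t => g (hardF w t)) ∈
      Sp K {l : Fin m → ZMod 2 | wt l ≤ τ}) ?_ ?_ ?_ ?_ hg
  · rintro g ⟨D, hD, hg⟩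
    refine Sp_mono (fun l hl => (wt_le_of_supp l _ hl).trans (hw D hD)) (junta h2 _ _ ?_)
    intro t t' htt
    refine hg _ _ fun c hc => ?_
    unfold hardF
    congr 1
    refine Finset.filter_congr fun i _ => and_congr_right fun hv => ?_
    rw [htt i (Finset.mem_filter.mpr ⟨mem_univ _, fun a => by rw [← hv a]; exact hc a⟩)]
  · exact Submodule.zero_mem _
  · intro f g _ _ h3 h4
    exact Submodule.add_mem _ h3 h4
  · intro c f _ h3
    exact Submodule.smul_mem _ c h3

/-- There are vectors far from all left sides and invisible for few light relations. -/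
theorem exists_far {Γ : Type} [AddCommGroup Γ] [Module (ZMod 2) Γ] [Fintype Γ]
    (B : Γ →ₗ[ZMod 2] (Fin m → ZMod 2)) (U : Submodule (ZMod 2) (Fin m → ZMod 2))
    (Near : Finset (Fin m → ZMod 2))
    (hc : Nat.card U * (Fintype.card Γ * Near.card) < 2 ^ m) :
    ∃ e, (∀ l ∈ U, dot l e = 0) ∧ ∀ h, e + B h ∉ Near := by
  classical
  by_contra hcon
  push Not at hcon
  -- the map to the dual of `U`
  let f : (Fin m → ZMod 2) → Chr U := fun e =>
    { toFun := fun l => dot l.1 e
      map_add' := fun l l' => add_dot _ _ _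
      map_smul' := fun c l => smul_dot _ _ _ }
  let A : Finset (Fin m → ZMod 2) := univ.filter fun e => ∀ l ∈ U, dot l e = 0
  have hA : A.card ≤ Fintype.card Γ * Near.card := by
    have h1 : A ⊆ (univ : Finset Γ).biUnion fun h => Near.image fun y => y - B h := by
      intro e he
      obtain ⟨h, hh⟩ := hcon e (Finset.mem_filter.mp he).2
      exact Finset.mem_biUnion.mpr ⟨h, mem_univ _, Finset.mem_image.mpr
        ⟨_, hh, add_sub_cancel_right _ _⟩⟩
    refine (Finset.card_le_card h1).trans (Finset.card_biUnion_le.trans ?_)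
    refine (Finset.sum_le_sum fun h _ => Finset.card_image_le).trans (le_of_eq ?_)
    rw [Finset.sum_const, Finset.card_univ, smul_eq_mul]
  have hfib : ∀ a ∈ (univ : Finset (Fin m → ZMod 2)).image f,
      ((univ : Finset (Fin m → ZMod 2)).filter fun e => f e = a).card ≤ A.card := by
    intro a ha
    obtain ⟨e0, _, rfl⟩ := Finset.mem_image.mp ha
    refine Finset.card_le_card_of_injOn (fun e => e + e0) ?_ ?_
    · intro e he
      refine Finset.mem_coe.mpr (Finset.mem_filter.mpr ⟨mem_univ _, fun l hl => ?_⟩)
      have h1 := (Finset.mem_filter.mp (Finset.mem_coe.mp he)).2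
      have h2 : dot l e = dot l e0 := congrArg (fun g : Chr U => g ⟨l, hl⟩) h1
      show dot l (e + e0) = 0
      rw [dot_add, h2]
      exact zmod2_add_self _
    · intro e _ e' _ h
      exact add_right_cancel h
  have h1 := Finset.card_le_mul_card_image (f := f) (univ : Finset (Fin m → ZMod 2)) A.card hfib
  have h2 : ((univ : Finset (Fin m → ZMod 2)).image f).card ≤ Nat.card U := by
    refine (Finset.card_le_univ _).trans (le_of_eq ?_)
    rw [card_Chr, Nat.card_eq_fintype_card]
  rw [Finset.card_univ, Fintype.card_fun, ZMod.card, Fintype.card_fin] at h1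
  have h3 : 2 ^ m ≤ Nat.card U * (Fintype.card Γ * Near.card) := by
    refine h1.trans ?_
    rw [mul_comm]
    exact Nat.mul_le_mul h2 hA
  omega

end Pool.Agent.TH658.Xr
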