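import Pool.Agent.TH658.Xr.Uni
import Pool.Agent.TH658.Xr.Fix

set_option autoImplicit false
set_option linter.unusedSectionVars false

/-! Systems of polynomial equations. -/

namespace Pool.Agent.TH658.Xr

open Finset Pool.Agent.H30R2.PS Pool.Agent.TH658.Eq MvPolynomial

/-- Systems of `n + m` polynomial equations in `n` unknowns with coefficients in the field `F`. -/
abbrev Sys (F : Type) [Field F] (n m : ℕ) := Fin n ⊕ Fin m → MvPolynomial (Fin n) F

/-- the sign `(-1)^x` -/
def sgn (F : Type) [Field F] (x : ZMod 2) : F := if x = 0 then 1 else -1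

section defs

variable {F : Type} [Field F] {n m : ℕ}

/-- The system in which the unknowns `z_v` with `h v = 1` are replaced by `-z_v`. -/
noncomputable def flipSys (h : Fin n → ZMod 2) (f : Sys F n m) : Sys F n m := fun i =>
  aeval (fun v => C (sgn F (h v)) * X v) (f i)

/-- Some point is a zero of all the polynomials. -/
def HasZero (f : Sys F n m) : Prop := ∃ z : Fin n → F, ∀ i, eval z (f i) = 0

/-- The span of the functions of a system which depend only on its restriction to some coordinate
subspace of dimension at most `d`, that is, on the coefficients of the monomials with unknowns in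
some set of at most `d` unknowns. -/
def LocalSys (F : Type) [Field F] (n m d : ℕ) (K : Type) [Field K] :
    Submodule K (Sys F n m → K) :=
  Submodule.span K {g | ∃ D : Finset (Fin n), D.card ≤ d ∧ ∀ f f' : Sys F n m,
    (∀ i (s : Fin n →₀ ℕ), (∀ v, v ∉ D → s v = 0) → coeff s (f i) = coeff s (f' i)) →
    g f = g f'}

/-- The first `n` equations are `z_v ^ 2 = 1`, the other equations have the form
`± z_{u 1} ⋯ z_{u k} = 1`. -/
def Simple (k : ℕ) (f : Sys F n m) : Prop :=
  (∀ v, f (Sum.inl v) = X v ^ 2 - 1) ∧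
    ∀ i, ∃ (u : Fin k → Fin n) (s : F), (s = 1 ∨ s = -1) ∧
      f (Sum.inr i) = C s * ∏ a, X (u a) - 1

end defs

variable {F : Type} [Field F] {n k m : ℕ}

theorem sgn_eq (x : ZMod 2) : sgn F x = sK F x := by
  unfold sgn sK sg
  by_cases h : x = 0
  · rw [if_pos h, if_pos h, Int.cast_one]
  · rw [if_neg h, if_neg h, Int.cast_neg, Int.cast_one]

theorem sgn_zero : sgn F 0 = 1 := if_pos rfl

theorem sgn_add (x y : ZMod 2) : sgn F (x + y) = sgn F x * sgn F y := by
  rw [sgn_eq, sgn_eq, sgn_eq, sK_add]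

theorem sgn_sum {ι : Type} (s : Finset ι) (f : ι → ZMod 2) :
    sgn F (∑ i ∈ s, f i) = ∏ i ∈ s, sgn F (f i) := by
  rw [sgn_eq, sK_sum]
  exact Finset.prod_congr rfl fun i _ => (sgn_eq _).symm

theorem sgn_mul_self (x : ZMod 2) : sgn F x * sgn F x = 1 := by
  rw [sgn_eq, sK_mul_self]

theorem sgn_pm (x : ZMod 2) : sgn F x = 1 ∨ sgn F x = -1 := by
  unfold sgn
  split_ifs
  · exact Or.inl rfl
  · exact Or.inr rfl

theorem flipSys_zero (f : Sys F n m) : flipSys 0 f = f := by
  funext i
  show aeval (fun v => C (sgn F 0) * X v) (f i) = f i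
  rw [sgn_zero, C_1]
  simp only [one_mul]
  exact aeval_X_left_apply (f i)

theorem flipSys_add (h h' : Fin n → ZMod 2) (f : Sys F n m) :
    flipSys (h + h') f = flipSys h (flipSys h' f) := by
  funext i
  show aeval (fun v => C (sgn F (h v + h' v)) * X v) (f i) =
    aeval (fun v => C (sgn F (h v)) * X v) (aeval (fun v => C (sgn F (h' v)) * X v) (f i))
  have h1 : (aeval (fun v => C (sgn F (h v + h' v)) * X v) :
      MvPolynomial (Fin n) F →ₐ[F] MvPolynomial (Fin n) F) =
      (aeval (fun v => C (sgn F (h v)) * X v)).comp (aeval (fun v => C (sgn F (h' v)) * X v)) := by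
    refine algHom_ext fun v => ?_
    rw [AlgHom.comp_apply, aeval_X, aeval_X, map_mul, aeval_X]
    have h2 : (aeval (fun v => C (sgn F (h v)) * X v) :
        MvPolynomial (Fin n) F →ₐ[F] MvPolynomial (Fin n) F) (C (sgn F (h' v))) =
        C (sgn F (h' v)) := by
      rw [← algebraMap_eq]
      exact AlgHom.commutes _ _
    rw [h2, sgn_add, C_mul]
    ring
  rw [h1]
  rfl

/-- the hard systems -/
noncomputable def hardS (F : Type) [Field F] (w : WX n k m) (t : Fin m → ZMod 2) : Sys F n m :=
  Sum.elim (fun v => X v ^ 2 - 1) (fun i => C (sgn F (t i)) * ∏ a, X (w (i, a)) - 1)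

theorem hardS_inl (w : WX n k m) (t : Fin m → ZMod 2) (v : Fin n) :
    hardS F w t (Sum.inl v) = X v ^ 2 - 1 := rfl

theorem hardS_simple (w : WX n k m) (t : Fin m → ZMod 2) : Simple k (hardS F w t) :=
  ⟨fun _ => rfl, fun i => ⟨fun a => w (i, a), sgn F (t i), sgn_pm _, rfl⟩⟩

theorem hardS_equi (w : WX n k m) (t : Fin m → ZMod 2) (h : GX n) :
    hardS F w (t + BX w h) = flipSys h (hardS F w t) := by
  have hC : ∀ s : F, (aeval (fun v => C (sgn F (h v)) * X v) :
      MvPolynomial (Fin n) F →ₐ[F] MvPolynomial (Fin n) F) (C s) = C s := by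
    intro s
    rw [← algebraMap_eq]
    exact AlgHom.commutes _ _
  funext i
  rcases i with v | i
  · show X v ^ 2 - 1 = aeval (fun v => C (sgn F (h v)) * X v) (X v ^ 2 - 1)
    rw [map_sub, map_pow, aeval_X, map_one, mul_pow, ← C_pow, pow_two (sgn F (h v)),
      sgn_mul_self, C_1, one_mul]
  · show C (sgn F (t i + BX w h i)) * ∏ a, X (w (i, a)) - 1 =
      aeval (fun v => C (sgn F (h v)) * X v) (C (sgn F (t i)) * ∏ a, X (w (i, a)) - 1)
    rw [map_sub, map_mul, hC, map_prod, map_one]
    have h1 : ∀ a : Fin k, (aeval (fun v => C (sgn F (h v)) * X v) :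
        MvPolynomial (Fin n) F →ₐ[F] MvPolynomial (Fin n) F) (X (w (i, a))) =
        C (sgn F (h (w (i, a)))) * X (w (i, a)) := fun a => aeval_X _ _
    rw [Finset.prod_congr rfl fun a _ => h1 a, Finset.prod_mul_distrib, BX_apply, sgn_add,
      sgn_sum, C_mul, map_prod]
    ring

theorem zero_hardS (w : WX n k m) (h : GX n) : HasZero (hardS F w (BX w h)) := by
  refine ⟨fun v => sgn F (h v), fun i => ?_⟩
  rcases i with v | i
  · show eval _ (X v ^ 2 - 1) = 0
    rw [map_sub, map_pow, eval_X, map_one, pow_two, sgn_mul_self, sub_self]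
  · show eval _ (C (sgn F (BX w h i)) * ∏ a, X (w (i, a)) - 1) = 0
    rw [map_sub, map_mul, eval_C, map_prod, map_one]
    have h1 : ∀ a : Fin k, eval (fun v => sgn F (h v)) (X (w (i, a))) =
        sgn F (h (w (i, a))) := fun a => eval_X _
    rw [Finset.prod_congr rfl fun a _ => h1 a, ← sgn_sum, ← BX_apply, sgn_mul_self, sub_self]

/-- the number of the violated equations -/
theorem violated (h2 : (2 : F) ≠ 0) (w : WX n k m) (t : Fin m → ZMod 2) (z : Fin n → F)
    (hz : ∀ v, eval z (hardS F w t (Sum.inl v)) = 0) :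
    ∃ y : GX n, wt (t + BX w y) = Nat.card {i : Fin m // eval z (hardS F w t (Sum.inr i)) ≠ 0} := by
  classical
  have h1 : ∀ v, ∃ y : ZMod 2, z v = sgn F y := by
    intro v
    have h3 : eval z (X v ^ 2 - 1 : MvPolynomial (Fin n) F) = 0 := hz v
    rw [map_sub, map_pow, eval_X, map_one, sub_eq_zero, pow_two, mul_self_eq_one_iff] at h3
    rcases h3 with h3 | h3
    · exact ⟨0, by rw [h3, sgn_zero]⟩
    · exact ⟨1, by rw [h3]; unfold sgn; rw [if_neg (by decide)]⟩
  choose y hy using h1
  refine ⟨y, ?_⟩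
  rw [Nat.card_eq_fintype_card, Fintype.card_subtype]
  unfold wt
  congr 1
  refine Finset.filter_congr fun i _ => ?_
  have h3 : eval z (hardS F w t (Sum.inr i)) = sgn F ((t + BX w y) i) - 1 := by
    show eval z (C (sgn F (t i)) * ∏ a, X (w (i, a)) - 1) = _
    rw [map_sub, map_mul, eval_C, map_prod, map_one]
    have h4 : ∀ a : Fin k, eval z (X (w (i, a))) = sgn F (y (w (i, a))) := fun a => by
      rw [eval_X, hy]
    rw [Finset.prod_congr rfl fun a _ => h4 a, ← sgn_sum, ← BX_apply, ← sgn_add, Pi.add_apply]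
  rw [h3]
  refine not_congr ?_
  constructor
  · intro h
    rw [h, sgn_zero, sub_self]
  · intro h
    by_contra hn
    unfold sgn at h
    rw [if_neg hn] at h
    refine h2 ?_
    have h5 : (2 : F) = -(-1 - 1) := by ring
    rw [h5, h, neg_zero]

/-- local functions have low degree -/
theorem low_sys {K : Type} [Field K] (h2 : (2 : K) ≠ 0) (w : WX n k m) (d τ : ℕ)
    (hw : Nice d τ w) (g : Sys F n m → K) (hg : g ∈ LocalSys F n m d K) :
    (fun t => g (hardS F w t)) ∈ Sp K {l : Fin m → ZMod 2 | wt l ≤ τ} := by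
  classical
  refine Submodule.span_induction
    (p := fun g _ => (fun t => g (hardS F w t)) ∈
      Sp K {l : Fin m → ZMod 2 | wt l ≤ τ}) ?_ ?_ ?_ ?_ hg
  · rintro g ⟨D, hD, hg⟩
    refine Sp_mono (fun l hl => (wt_le_of_supp l _ hl).trans (hw D hD)) (junta h2 _ _ ?_)
    intro t t' htt
    refine hg _ _ fun i s hs => ?_
    rcases i with v | i
    · rw [hardS_inl, hardS_inl]
    · show coeff s (C (sgn F (t i)) * ∏ a, X (w (i, a)) - 1) =
        coeff s (C (sgn F (t' i)) * ∏ a, X (w (i, a)) - 1)
      by_cases hi : ∀ a, w (i, a) ∈ D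
      · rw [htt i (Finset.mem_filter.mpr ⟨mem_univ _, hi⟩)]
      · push Not at hi
        obtain ⟨a, ha⟩ := hi
        have h1 : coeff s (∏ a, X (w (i, a)) : MvPolynomial (Fin n) F) = 0 := by
          have h3 : (∏ a, X (w (i, a)) : MvPolynomial (Fin n) F) =
              monomial (∑ a, Finsupp.single (w (i, a)) 1) 1 := by
            rw [monomial_sum_one]
            rfl
          rw [h3, coeff_monomial, if_neg]
          intro h4
          have h5 := hs (w (i, a)) ha
          rw [← h4, Finsupp.finsetSum_apply, Finset.sum_eq_zero_iff] at h5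
          have h6 := h5 a (mem_univ a)
          rw [Finsupp.single_eq_same] at h6
          exact one_ne_zero h6
        rw [coeff_sub, coeff_sub, coeff_C_mul, coeff_C_mul, h1, mul_zero, mul_zero]
  · exact Submodule.zero_mem _
  · intro f g _ _ h3 h4
    exact Submodule.add_mem _ h3 h4
  · intro c f _ h3
    exact Submodule.smul_mem _ c h3

end Pool.Agent.TH658.Xr
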