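import Pool.Agent.TH658.Xr.Prog

set_option autoImplicit false
set_option linter.unusedSectionVars false

/-! The hard pair of distributions. -/

namespace Pool.Agent.TH658.Xr

open Finset Pool.Agent.H30R2.PS Pool.Agent.TH658.Eq

variable {n k m s : ℕ} {V : Type}

/-- the wirings used -/
def Okay (d τ : ℕ) (w : WX n k m) : Prop :=
  Nice d τ w ∧ Sd.GoodG (⊤ : Submodule (ZMod 2) (GX n)) {0} (BX w) τ

theorem card_WX : (Fintype.card (WX n k m) : ℝ) = (n : ℝ) ^ (k * m) := by
  rw [Fintype.card_fun, Fintype.card_fin, Fintype.card_prod, Fintype.card_fin, Fintype.card_fin,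
    mul_comm m k]
  push_cast
  rfl

open Classical in
/-- at least half of the wirings can be used -/
theorem card_okay {d τ : ℕ} {β : ℝ}
    (h1 : ((univ.filter fun w : WX n k m => ¬ Nice d τ w).card : ℝ) ≤ 1 / 4 * (n : ℝ) ^ (k * m))
    (hβ : ∀ ψ : Chr (GX n), ((univ.filter fun w : WX n k m => ∃ l : Fin m → ZMod 2,
      τ < wt l ∧ wt l ≤ 2 * τ ∧ ∀ h, dot l (BX w h) = ψ h).card : ℝ) ≤ β)
    (hβ1 : β ≤ 1 / 8 * (n : ℝ) ^ (k * m)) :
    1 / 2 * (n : ℝ) ^ (k * m) ≤ ((univ.filter fun w : WX n k m => Okay d τ w).card : ℝ) := by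
  have h2 := count_bad (BX (n := n) (k := k) (m := m)) τ β hβ (J := Unit)
    (fun _ => (⊤ : Submodule (ZMod 2) (GX n))) (fun _ => {0})
  have h3 : (∑ _j : Unit, ({0} : Finset (Chr (⊤ : Submodule (ZMod 2) (GX n)))).card ^ 2 *
      (⊤ : Submodule (ZMod 2) (GX n)).toAddSubgroup.index : ℕ) = 1 := by
    have h4 : (⊤ : Submodule (ZMod 2) (GX n)).toAddSubgroup = ⊤ := rfl
    rw [Finset.card_singleton, h4, AddSubgroup.index_top]
    rfl
  rw [h3, Nat.cast_one, one_mul] at h2
  have h5 : (univ : Finset (WX n k m)) ⊆ (univ.filter fun w : WX n k m => Okay d τ w) ∪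
      ((univ.filter fun w : WX n k m => ¬ Nice d τ w) ∪
      (univ.filter fun w : WX n k m => ∃ _j : Unit,
        ¬ Sd.GoodG (⊤ : Submodule (ZMod 2) (GX n)) {0} (BX w) τ)) := by
    intro w _
    by_cases ha : Nice d τ w
    · by_cases hb : Sd.GoodG (⊤ : Submodule (ZMod 2) (GX n)) {0} (BX w) τ
      · exact Finset.mem_union_left _ (Finset.mem_filter.mpr ⟨mem_univ _, ha, hb⟩)
      · exact Finset.mem_union_right _ (Finset.mem_union_right _
          (Finset.mem_filter.mpr ⟨mem_univ _, (), hb⟩))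
    · exact Finset.mem_union_right _ (Finset.mem_union_left _
        (Finset.mem_filter.mpr ⟨mem_univ _, ha⟩))
  have h6 := (Finset.card_le_card h5).trans ((Finset.card_union_le _ _).trans
    (Nat.add_le_add_left (Finset.card_union_le _ _) _))
  have h7 : (Fintype.card (WX n k m) : ℝ) ≤
      ((univ.filter fun w : WX n k m => Okay d τ w).card : ℝ) +
      (((univ.filter fun w : WX n k m => ¬ Nice d τ w).card : ℝ) +
      ((univ.filter fun w : WX n k m => ∃ _j : Unit,
        ¬ Sd.GoodG (⊤ : Submodule (ZMod 2) (GX n)) {0} (BX w) τ).card : ℝ)) := by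
    rw [Finset.card_univ] at h6
    exact_mod_cast h6
  rw [card_WX] at h7
  linarith

/-- the twists -/
theorem exists_twist {d τ : ℕ} {η : ℝ} (hη : 0 < η) (w : WX n k m) (hw : Okay d τ w)
    (hn : (NL m τ : ℝ) * (2 ^ n * (2 ^ m * Real.exp (-(η ^ 2 * (m : ℕ) / 2)))) < 2 ^ m) :
    ∃ e : Fin m → ZMod 2,
      (∀ l : Fin m → ZMod 2, wt l ≤ τ → (∀ h : GX n, dot l (BX w h) = 0) → dot l e = 0) ∧
      ∀ h, (1 - η) * m < 2 * (wt (e + BX w h) : ℝ) := by
  classical
  let U := Sd.lightU (⊤ : Submodule (ZMod 2) (GX n)) {0} ⟨0, Finset.mem_singleton_self 0⟩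
    (BX w) τ hw.2
  let Near := univ.filter fun e : Fin m → ZMod 2 => 2 * (wt e : ℝ) ≤ (1 - η) * m
  have hU : Nat.card U ≤ NL m τ := by
    have h1 : Function.Injective (fun l : U => (⟨l.1, Finset.mem_filter.mpr ⟨mem_univ _,
        l.2.1.trans (by omega)⟩⟩ : (univ.filter fun l : Fin m → ZMod 2 => wt l ≤ 2 * τ))) :=
      fun a b hab => Subtype.ext (congrArg (fun x => x.1) hab)
    have h2 := Nat.card_le_card_of_injective _ h1
    rw [Nat.card_eq_fintype_card, Nat.card_eq_fintype_card, Fintype.card_coe] at h2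
    rw [Nat.card_eq_fintype_card]
    exact h2
  have hNear := card_near_le m η hη
  have hc : Nat.card U * (Fintype.card (GX n) * Near.card) < 2 ^ m := by
    have h1 : (Fintype.card (GX n) : ℝ) = 2 ^ n := by
      rw [Fintype.card_fun, ZMod.card, Fintype.card_fin]
      push_cast
      rfl
    have h2 : ((Nat.card U * (Fintype.card (GX n) * Near.card) : ℕ) : ℝ) < ((2 ^ m : ℕ) : ℝ) := by
      push_cast
      rw [h1]
      refine lt_of_le_of_lt ?_ hn
      refine mul_le_mul (by exact_mod_cast hU) ?_ (by positivity) (Nat.cast_nonneg _)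
      exact mul_le_mul_of_nonneg_left hNear (by positivity)
    exact_mod_cast h2
  obtain ⟨e, h1, h2⟩ := exists_far (BX w) U Near hc
  refine ⟨e, fun l hl hadj => h1 l ⟨hl, fun h => hadj h⟩, fun h => ?_⟩
  have h3 := h2 h
  by_contra hn'
  exact h3 (Finset.mem_filter.mpr ⟨mem_univ _, not_lt.mp hn'⟩)

/-- The main theorem: two families of formulas which no small program can tell apart. -/
theorem hard_pair {ε η : ℝ} {C k n : ℕ} (hε : 0 < ε) (hε1 : ε ≤ 1) (hη : 0 < η) (hη1 : η ≤ 1)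
    (hC : 4 / η ^ 2 ≤ C) (hk : 1024 * C * (C + 2) / ε ^ 3 ≤ k) (hn : 1024 * C / ε ^ 2 ≤ n) :
    ∃ (Ω : Type) (_ : Fintype Ω) (_ : Nonempty Ω) (F G : Ω → CNF n k),
      (∀ ω, Satisfiable (F ω) ∧ size (F ω) = C * n * 2 ^ (k - 1) ∧
        size (G ω) = C * n * 2 ^ (k - 1) ∧
        ∀ x, (1 - η) * size (G ω) < 2 ^ k * falsified (G ω) x) ∧
      ∀ (d s : ℕ) (V : Type) (v : Fin s → CNF n k → V)
        (H : Fin s → AddSubgroup (Fin n → ZMod 2)) (r p : Fin s → ℕ),
        (d : ℝ) ≤ (1 - ε) * n → IsProgram d v H r p → ∀ (j₀ : Fin s) (T : Set V),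
        |(Nat.card {ω // v j₀ (F ω) ∈ T} : ℝ) - Nat.card {ω // v j₀ (G ω) ∈ T}| *
          (2 : ℝ) ^ ((1 - ε) * n) ≤ ((∑ j, r j ^ p j * (H j).index : ℕ) : ℝ) * Nat.card Ω := by
  classical
  obtain ⟨hn0, τ, hP1, hP2, hP3⟩ := params hε hε1 hη hη1 hC hk hn
  have hnR : (0 : ℝ) < n := by exact_mod_cast hn0
  have hk0 : 0 < k := by
    have h1 : (0 : ℝ) < C := lt_of_lt_of_le (by positivity) hC
    have h2 : (0 : ℝ) < k := lt_of_lt_of_le (by positivity) hk
    exact_mod_cast h2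
  set m := C * n with hm
  set d0 := ⌊(1 - ε) * n⌋₊ with hd0
  have hd0' : (d0 : ℝ) ≤ (1 - ε) * n := Nat.floor_le (mul_nonneg (by linarith) hnR.le)
  set P : ℝ := (2 : ℝ) ^ ((1 - ε) * n) with hP
  have hPpos : 0 < P := Real.rpow_pos_of_pos (by norm_num) _
  have hP1' : 1 ≤ P := Real.one_le_rpow (by norm_num) (mul_nonneg (by linarith) hnR.le)
  have hnk : (0 : ℝ) < (n : ℝ) ^ (k * m) := by positivity
  set β : ℝ := (NL m τ : ℝ) * (2 * (1 + Real.exp (-(2 * (k * τ : ℕ) / n))) ^ n / 2 ^ n *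
    (n : ℝ) ^ (k * m)) with hβdef
  have hβ : ∀ ψ : Chr (GX n), ((univ.filter fun w : WX n k m => ∃ l : Fin m → ZMod 2,
      τ < wt l ∧ wt l ≤ 2 * τ ∧ ∀ h, dot l (BX w h) = ψ h).card : ℝ) ≤ β := fun ψ =>
    bad_le hn0 τ ψ
  have hβP : β * P ≤ 1 / 8 * (n : ℝ) ^ (k * m) := by
    have h1 : β * P = (NL m τ : ℝ) * (2 * (1 + Real.exp (-(2 * (k * τ : ℕ) / n))) ^ n / 2 ^ n) *
        P * (n : ℝ) ^ (k * m) := by
      rw [hβdef]
      ring
    rw [h1]
    exact mul_le_mul_of_nonneg_right hP1 hnk.le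
  have hβ0 : 0 ≤ β := le_trans (Nat.cast_nonneg _) (hβ 0)
  have hβ1 : β ≤ 1 / 8 * (n : ℝ) ^ (k * m) := by
    refine le_trans ?_ hβP
    exact le_mul_of_one_le_right hβ0 hP1'
  have hnice : ((univ.filter fun w : WX n k m => ¬ Nice d0 τ w).card : ℝ) ≤
      1 / 4 * (n : ℝ) ^ (k * m) :=
    (card_not_nice d0 τ (1 - ε) hd0' (by linarith) (by linarith)).trans
      (mul_le_mul_of_nonneg_right hP2 hnk.le)
  have hok := card_okay hnice hβ hβ1
  have hokpos : 0 < (univ.filter fun w : WX n k m => Okay d0 τ w).card := by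
    have h1 : (0 : ℝ) < ((univ.filter fun w : WX n k m => Okay d0 τ w).card : ℝ) :=
      lt_of_lt_of_le (by positivity) hok
    exact_mod_cast h1
  obtain ⟨w0, hw0⟩ := Finset.card_pos.mp hokpos
  choose e he1 he2 using fun w : {w : WX n k m // Okay d0 τ w} =>
    exists_twist hη w.1 w.2 hP3
  refine ⟨{w : WX n k m // Okay d0 τ w} × GX n, inferInstance,
    ⟨⟨⟨w0, (Finset.mem_filter.mp hw0).2⟩, 0⟩⟩, fun ω => hardF ω.1.1 (BX ω.1.1 ω.2),
    fun ω => hardF ω.1.1 (BX ω.1.1 ω.2 + e ω.1), ?_, ?_⟩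
  · intro ω
    refine ⟨sat_hardF _ _, size_hardF hk0 _ _, size_hardF hk0 _ _, fun x => ?_⟩
    have h1 := falsified_hardF ω.1.1 (BX ω.1.1 ω.2 + e ω.1) x
    have h2 : BX ω.1.1 ω.2 + e ω.1 + BX ω.1.1 x = e ω.1 + BX ω.1.1 (ω.2 + x) := by
      rw [map_add, add_comm (BX ω.1.1 ω.2) (e ω.1), add_assoc]
    rw [h2] at h1
    have h3 := he2 ω.1 (ω.2 + x)
    have h4 : (wt (e ω.1 + BX ω.1.1 (ω.2 + x)) : ℝ) ≤
        (falsified (hardF ω.1.1 (BX ω.1.1 ω.2 + e ω.1)) x : ℝ) := by exact_mod_cast h1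
    have h5 : (size (hardF ω.1.1 (BX ω.1.1 ω.2 + e ω.1)) : ℝ) = m * 2 ^ (k - 1) := by
      rw [size_hardF hk0]
      push_cast
      rfl
    have h6 : (2 : ℝ) ^ k = 2 ^ (k - 1) * 2 := by
      rw [← pow_succ, Nat.sub_add_cancel hk0]
    rw [h5, h6]
    have h7 : (0 : ℝ) < 2 ^ (k - 1) := by positivity
    nlinarith
  · intro d s V v H r p hd hp j₀ T
    obtain ⟨Kf, iK, h2, Cs, hC1, hC2, E, hE, hv⟩ := gates (m := m) v H r p hp
    set σ : ℝ := ((∑ j, r j ^ p j * (H j).index : ℕ) : ℝ) with hσ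
    have hdd : d ≤ d0 := Nat.le_floor hd
    -- the wirings bad for the program
    have hbad := count_bad (BX (n := n) (k := k) (m := m)) τ β hβ
      (fun j => AddSubgroup.toZModSubmodule 2 (H j)) Cs
    have hbad' : ((univ.filter fun w : WX n k m => ∃ j,
        ¬ Sd.GoodG (AddSubgroup.toZModSubmodule 2 (H j)) (Cs j) (BX w) τ).card : ℝ) ≤ σ * β := by
      have h3 : ∑ j, (Cs j).card ^ 2 *
          (AddSubgroup.toZModSubmodule 2 (H j)).toAddSubgroup.index ≤
          ∑ j, r j ^ p j * (H j).index :=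
        Finset.sum_le_sum fun j _ => Nat.mul_le_mul_right _ (hC2 j)
      have h4 : ((∑ j, (Cs j).card ^ 2 *
          (AddSubgroup.toZModSubmodule 2 (H j)).toAddSubgroup.index : ℕ) : ℝ) ≤ σ := by
        rw [hσ]
        exact Nat.cast_le.mpr h3
      have h5 := mul_le_mul_of_nonneg_right h4 hβ0
      refine le_trans (le_of_eq ?_) (hbad.trans h5)
      congr!
    let a : {w : WX n k m // Okay d0 τ w} → ℕ := fun w =>
      (univ.filter fun h : GX n => v j₀ (hardF w.1 (BX w.1 h)) ∈ T).card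
    let b : {w : WX n k m // Okay d0 τ w} → ℕ := fun w =>
      (univ.filter fun h : GX n => v j₀ (hardF w.1 (BX w.1 h + e w)) ∈ T).card
    have ha : ∀ w, a w ≤ 2 ^ n := fun w => (Finset.card_le_univ _).trans (le_of_eq (by
      rw [Fintype.card_fun, ZMod.card, Fintype.card_fin]))
    have hb : ∀ w, b w ≤ 2 ^ n := fun w => (Finset.card_le_univ _).trans (le_of_eq (by
      rw [Fintype.card_fun, ZMod.card, Fintype.card_fin]))
    have hab : ∀ w : {w : WX n k m // Okay d0 τ w}, (∀ j,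
        Sd.GoodG (AddSubgroup.toZModSubmodule 2 (H j)) (Cs j) (BX w.1) τ) → a w = b w := by
      intro w hgood
      have hrun := run flip (BX w.1) (hardF w.1) (fun t h => hardF_equi w.1 t h)
        (fun j => AddSubgroup.toZModSubmodule 2 (H j)) Cs hC1 Kf iK h2 E v hv τ hgood
        (fun j => Local (Kf j) n k d) (fun j f hf => local_lowX (h2 j) w.1 d τ
          (fun D hD => w.2.1 D (hD.trans hdd)) f hf) hE j₀
      exact same_card (v j₀) T w.1 (AddSubgroup.toZModSubmodule 2 (H j₀)) τ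
        (Sd.lightU _ (Cs j₀) (hC1 j₀) (BX w.1) τ (hgood j₀)) (fun l => Iff.rfl) hrun (e w) (he1 w)
    have hcard : ∀ (Q : {w : WX n k m // Okay d0 τ w} × GX n → Prop),
        (Nat.card {ω // Q ω} : ℝ) = ∑ w : {w : WX n k m // Okay d0 τ w},
          (((univ.filter fun h : GX n => Q (w, h)).card : ℕ) : ℝ) := by
      intro Q
      rw [Nat.card_eq_fintype_card, Fintype.card_subtype, Finset.card_filter,
        Fintype.sum_prod_type]
      push_cast
      refine Finset.sum_congr rfl fun w _ => ?_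
      rw [Finset.card_filter]
      push_cast
      rfl
    have hdiff : |(Nat.card {ω : {w : WX n k m // Okay d0 τ w} × GX n //
          v j₀ (hardF ω.1.1 (BX ω.1.1 ω.2)) ∈ T} : ℝ) -
        Nat.card {ω : {w : WX n k m // Okay d0 τ w} × GX n //
          v j₀ (hardF ω.1.1 (BX ω.1.1 ω.2 + e ω.1)) ∈ T}| ≤ σ * β * 2 ^ n := by
      rw [hcard, hcard, ← Finset.sum_sub_distrib]
      refine (Finset.abs_sum_le_sum_abs _ _).trans ?_
      have h3 : ∀ w : {w : WX n k m // Okay d0 τ w}, |(a w : ℝ) - (b w : ℝ)| ≤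
          if ∃ j, ¬ Sd.GoodG (AddSubgroup.toZModSubmodule 2 (H j)) (Cs j) (BX w.1) τ
          then 2 ^ n else 0 := by
        intro w
        split_ifs with hw
        · have h4 : (a w : ℝ) ≤ 2 ^ n := by exact_mod_cast ha w
          have h5 : (b w : ℝ) ≤ 2 ^ n := by exact_mod_cast hb w
          have h6 : (0 : ℝ) ≤ a w := Nat.cast_nonneg _
          have h7 : (0 : ℝ) ≤ b w := Nat.cast_nonneg _
          rw [abs_le]
          constructor <;> linarith
        · push Not at hw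
          rw [hab w hw, sub_self, abs_zero]
      refine (Finset.sum_le_sum fun w _ => h3 w).trans ?_
      rw [← Finset.sum_filter, Finset.sum_const, nsmul_eq_mul]
      refine mul_le_mul_of_nonneg_right ?_ (by positivity)
      refine le_trans ?_ hbad'
      have h4 : (univ.filter fun w : {w : WX n k m // Okay d0 τ w} => ∃ j,
          ¬ Sd.GoodG (AddSubgroup.toZModSubmodule 2 (H j)) (Cs j) (BX w.1) τ).card ≤
          (univ.filter fun w : WX n k m => ∃ j,
          ¬ Sd.GoodG (AddSubgroup.toZModSubmodule 2 (H j)) (Cs j) (BX w) τ).card := by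
        refine Finset.card_le_card_of_injOn (fun w => w.1) ?_ ?_
        · intro w hw
          exact Finset.mem_coe.mpr (Finset.mem_filter.mpr ⟨mem_univ _,
            (Finset.mem_filter.mp (Finset.mem_coe.mp hw)).2⟩)
        · intro w _ w' _ h
          exact Subtype.ext h
      exact_mod_cast h4
    have hΩ : (Nat.card ({w : WX n k m // Okay d0 τ w} × GX n) : ℝ) =
        ((univ.filter fun w : WX n k m => Okay d0 τ w).card : ℝ) * 2 ^ n := by
      rw [Nat.card_eq_fintype_card, Fintype.card_prod, Fintype.card_subtype, Fintype.card_fun,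
        ZMod.card, Fintype.card_fin]
      push_cast
      rfl
    rw [hΩ]
    have hσ0 : 0 ≤ σ := Nat.cast_nonneg _
    calc _ ≤ σ * β * 2 ^ n * P := mul_le_mul_of_nonneg_right hdiff hPpos.le
      _ = σ * 2 ^ n * (β * P) := by ring
      _ ≤ σ * 2 ^ n * (1 / 8 * (n : ℝ) ^ (k * m)) :=
          mul_le_mul_of_nonneg_left hβP (by positivity)
      _ ≤ σ * 2 ^ n * ((univ.filter fun w : WX n k m => Okay d0 τ w).card : ℝ) := by
          refine mul_le_mul_of_nonneg_left ?_ (by positivity)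
          refine le_trans ?_ hok
          nlinarith
      _ = _ := by ring

end Pool.Agent.TH658.Xr
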