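import Pool.Agent.TH658.Xr.Wir

set_option autoImplicit false
set_option linter.unusedSectionVars false

/-! Estimates. -/

namespace Pool.Agent.TH658.Xr

open Finset Pool.Agent.H30R2.PS Pool.Agent.TH658.Eq Pool.Agent.TH658.Sd

variable {n k m : ℕ}

theorem sum_pow_wt (n : ℕ) (q : ℝ) : ∑ y : Fin n → ZMod 2, q ^ wt y = (1 + q) ^ n := by
  rw [← sum_prod n 1 q]
  refine Finset.sum_congr rfl fun y _ => ?_
  rw [prod_wt, one_pow, mul_one]

theorem sum_pow_cowt (n : ℕ) (q : ℝ) : ∑ y : Fin n → ZMod 2, q ^ (n - wt y) = (1 + q) ^ n := by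
  rw [add_comm, ← sum_prod n q 1]
  refine Finset.sum_congr rfl fun y _ => ?_
  rw [prod_wt, one_pow, one_mul]

theorem abs_pow_le (n T s : ℕ) (hn : 0 < n) (hs : s ≤ n) :
    |(n : ℝ) - 2 * s| ^ T ≤ (n : ℝ) ^ T *
      (Real.exp (-(2 * T / n)) ^ s + Real.exp (-(2 * T / n)) ^ (n - s)) := by
  have hn0 : (0 : ℝ) < n := by exact_mod_cast hn
  have hs' : (s : ℝ) ≤ n := by exact_mod_cast hs
  have key : ∀ u : ℝ, 0 ≤ u → 2 * u ≤ n → ((n : ℝ) - 2 * u) ^ T ≤
      (n : ℝ) ^ T * Real.exp (-(2 * u * T / n)) := by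
    intro u hu hu'
    have h1 : (n : ℝ) - 2 * u ≤ n * Real.exp (-(2 * u / n)) := by
      have h2 := Real.add_one_le_exp (-(2 * u / n))
      have h3 : (n : ℝ) * (-(2 * u / n) + 1) ≤ n * Real.exp (-(2 * u / n)) :=
        mul_le_mul_of_nonneg_left h2 hn0.le
      refine le_trans (le_of_eq ?_) h3
      field_simp
      ring
    refine (pow_le_pow_left₀ (by linarith) h1 T).trans (le_of_eq ?_)
    rw [mul_pow, ← Real.exp_nat_mul]
    congr 2
    ring
  rcases le_total (2 * (s : ℝ)) n with h | h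
  · rw [abs_of_nonneg (by linarith), mul_add]
    refine (key s (Nat.cast_nonneg s) h).trans ?_
    have h1 : Real.exp (-(2 * (s : ℝ) * T / n)) = Real.exp (-(2 * T / n)) ^ s := by
      rw [← Real.exp_nat_mul]
      congr 1
      ring
    rw [h1]
    have h2 : 0 ≤ (n : ℝ) ^ T * Real.exp (-(2 * T / n)) ^ (n - s) := by positivity
    linarith
  · have h3 : |(n : ℝ) - 2 * s| = n - 2 * ((n - s : ℕ) : ℝ) := by
      rw [abs_of_nonpos (by linarith), Nat.cast_sub hs]
      ring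
    rw [h3, mul_add]
    refine (key ((n - s : ℕ) : ℝ) (Nat.cast_nonneg _) (by rw [Nat.cast_sub hs]; linarith)).trans ?_
    have h1 : Real.exp (-(2 * ((n - s : ℕ) : ℝ) * T / n)) = Real.exp (-(2 * T / n)) ^ (n - s) := by
      rw [← Real.exp_nat_mul]
      congr 1
      ring
    rw [h1]
    have h2 : 0 ≤ (n : ℝ) ^ T * Real.exp (-(2 * T / n)) ^ s := by positivity
    linarith

/-- the sum in the basic inequality -/
theorem sum_abs_pow_le (n T : ℕ) (hn : 0 < n) :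
    ∑ y : Fin n → ZMod 2, |(n : ℝ) - 2 * wt y| ^ T ≤
      (n : ℝ) ^ T * (2 * (1 + Real.exp (-(2 * T / n))) ^ n) := by
  refine (Finset.sum_le_sum fun y _ => abs_pow_le n T (wt y) hn (wt_le y)).trans ?_
  rw [← Finset.mul_sum, Finset.sum_add_distrib, sum_pow_wt, sum_pow_cowt]
  exact le_of_eq (by ring)

/-- the number of light vectors -/
theorem card_light_le (m s : ℕ) (x : ℝ) (hx : 0 < x) (hx1 : x ≤ 1) :
    ((univ.filter fun l : Fin m → ZMod 2 => wt l ≤ s).card : ℝ) * x ^ s ≤ (1 + x) ^ m := by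
  rw [← sum_pow_wt m x, ← nsmul_eq_mul, ← Finset.sum_const]
  refine (Finset.sum_le_sum fun l hl => ?_).trans (Finset.sum_le_sum_of_subset_of_nonneg
    (Finset.filter_subset _ _) fun l _ _ => by positivity)
  exact pow_le_pow_of_le_one hx.le hx1 (Finset.mem_filter.mp hl).2

/-- the number of vectors of weight less than half -/
theorem card_near_le (m : ℕ) (η : ℝ) (hη : 0 < η) :
    ((univ.filter fun e : Fin m → ZMod 2 => 2 * (wt e : ℝ) ≤ (1 - η) * m).card : ℝ) ≤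
      2 ^ m * Real.exp (-(η ^ 2 * m / 2)) := by
  have h1 : ((univ.filter fun e : Fin m → ZMod 2 => 2 * (wt e : ℝ) ≤ (1 - η) * m).card : ℝ) *
      Real.exp (η ^ 2 * m) ≤ (Real.exp η + Real.exp (-η)) ^ m := by
    rw [← sum_prod m (Real.exp η) (Real.exp (-η)), ← nsmul_eq_mul, ← Finset.sum_const]
    refine (Finset.sum_le_sum fun l hl => ?_).trans (Finset.sum_le_sum_of_subset_of_nonneg
      (Finset.filter_subset _ _) fun l _ _ => by rw [prod_wt]; positivity)
    rw [prod_wt, ← Real.exp_nat_mul, ← Real.exp_nat_mul, ← Real.exp_add]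
    refine Real.exp_le_exp.mpr ?_
    have h2 := (Finset.mem_filter.mp hl).2
    rw [Nat.cast_sub (wt_le l)]
    nlinarith
  have h2 : (Real.exp η + Real.exp (-η)) ^ m ≤ 2 ^ m * Real.exp (η ^ 2 * m / 2) := by
    have h3 := Real.cosh_le_exp_half_sq η
    rw [Real.cosh_eq] at h3
    have h4 : Real.exp η + Real.exp (-η) ≤ 2 * Real.exp (η ^ 2 / 2) := by linarith
    refine (pow_le_pow_left₀ (by positivity) h4 m).trans (le_of_eq ?_)
    rw [mul_pow, ← Real.exp_nat_mul]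
    congr 2
    ring
  have h3 : Real.exp (-(η ^ 2 * m / 2)) = Real.exp (η ^ 2 * m / 2) * Real.exp (-(η ^ 2 * m)) := by
    rw [← Real.exp_add]
    congr 1
    ring
  have h4 : ((univ.filter fun e : Fin m → ZMod 2 => 2 * (wt e : ℝ) ≤ (1 - η) * m).card : ℝ) =
      ((univ.filter fun e : Fin m → ZMod 2 => 2 * (wt e : ℝ) ≤ (1 - η) * m).card : ℝ) *
      Real.exp (η ^ 2 * m) * Real.exp (-(η ^ 2 * m)) := by
    rw [mul_assoc, ← Real.exp_add, add_neg_cancel, Real.exp_zero, mul_one]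
  rw [h3, h4, ← mul_assoc]
  exact mul_le_mul_of_nonneg_right (h1.trans h2) (Real.exp_pos _).le

open Classical in
/-- the number of wirings with a combination of medium weight equal to a given one -/
theorem bad_le (hn : 0 < n) (τ : ℕ) (ψ : Chr (GX n)) :
    ((univ.filter fun w : WX n k m => ∃ l : Fin m → ZMod 2, τ < wt l ∧ wt l ≤ 2 * τ ∧
      ∀ h, dot l (BX w h) = ψ h).card : ℝ) ≤
      ((univ.filter fun l : Fin m → ZMod 2 => wt l ≤ 2 * τ).card : ℝ) *
        (2 * (1 + Real.exp (-(2 * (k * τ : ℕ) / n))) ^ n / 2 ^ n * (n : ℝ) ^ (k * m)) := by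
  have hn0 : (0 : ℝ) < n := by exact_mod_cast hn
  let Cn : (Fin m → ZMod 2) → Finset (WX n k m) := fun l =>
    univ.filter fun w : WX n k m => ∀ h, dot l (BX w h) = ψ h
  let Z := univ.filter fun l : Fin m → ZMod 2 => τ < wt l ∧ wt l ≤ 2 * τ
  have hsub : (univ.filter fun w : WX n k m => ∃ l : Fin m → ZMod 2, τ < wt l ∧ wt l ≤ 2 * τ ∧
      ∀ h, dot l (BX w h) = ψ h) ⊆ Z.biUnion Cn := by
    intro w hw
    obtain ⟨l, h1, h2, h3⟩ := (Finset.mem_filter.mp hw).2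
    exact Finset.mem_biUnion.mpr ⟨l, Finset.mem_filter.mpr ⟨mem_univ _, h1, h2⟩,
      Finset.mem_filter.mpr ⟨mem_univ _, h3⟩⟩
  have h1 : ((univ.filter fun w : WX n k m => ∃ l : Fin m → ZMod 2, τ < wt l ∧ wt l ≤ 2 * τ ∧
      ∀ h, dot l (BX w h) = ψ h).card : ℝ) ≤ ∑ l ∈ Z, ((Cn l).card : ℝ) := by
    have h2 := (Finset.card_le_card hsub).trans Finset.card_biUnion_le
    exact_mod_cast h2
  refine h1.trans ?_
  have h2 : ∀ l ∈ Z, ((Cn l).card : ℝ) ≤
      2 * (1 + Real.exp (-(2 * (k * τ : ℕ) / n))) ^ n / 2 ^ n * (n : ℝ) ^ (k * m) := by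
    intro l hl
    obtain ⟨hl1, hl2⟩ := (Finset.mem_filter.mp hl).2
    have h3 := count_le (n := n) (k := k) l ψ
    have h4 := sum_abs_pow_le n (k * wt l) hn
    have h5 : Real.exp (-(2 * ((k * wt l : ℕ) : ℝ) / n)) ≤
        Real.exp (-(2 * ((k * τ : ℕ) : ℝ) / n)) := by
      refine Real.exp_le_exp.mpr (neg_le_neg ?_)
      refine div_le_div_of_nonneg_right ?_ hn0.le
      have h6 : k * τ ≤ k * wt l := Nat.mul_le_mul_left k hl1.le
      have h7 : ((k * τ : ℕ) : ℝ) ≤ ((k * wt l : ℕ) : ℝ) := by exact_mod_cast h6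
      linarith
    have h6 : (1 + Real.exp (-(2 * ((k * wt l : ℕ) : ℝ) / n))) ^ n ≤
        (1 + Real.exp (-(2 * ((k * τ : ℕ) : ℝ) / n))) ^ n :=
      pow_le_pow_left₀ (by positivity) (by linarith) n
    have hpos : (0 : ℝ) < 2 ^ n := by positivity
    have h7 : ((Cn l).card : ℝ) * 2 ^ n ≤
        (2 * (1 + Real.exp (-(2 * ((k * τ : ℕ) : ℝ) / n))) ^ n) * (n : ℝ) ^ (k * m) := by
      refine h3.trans ((mul_le_mul_of_nonneg_right h4 (by positivity)).trans ?_)
      have h8 : (n : ℝ) ^ (k * m) = (n : ℝ) ^ (k * wt l) * (n : ℝ) ^ (k * (m - wt l)) := by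
        rw [← pow_add, ← Nat.mul_add, Nat.add_sub_cancel' (wt_le l)]
      rw [h8]
      have h9 : 0 ≤ (n : ℝ) ^ (k * wt l) * (n : ℝ) ^ (k * (m - wt l)) := by positivity
      nlinarith
    rw [div_mul_eq_mul_div, le_div_iff₀ hpos]
    exact h7
  refine (Finset.sum_le_sum h2).trans ?_
  rw [Finset.sum_const, nsmul_eq_mul]
  refine mul_le_mul_of_nonneg_right ?_ (by positivity)
  have h3 : Z ⊆ univ.filter fun l : Fin m → ZMod 2 => wt l ≤ 2 * τ := by
    intro l hl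
    obtain ⟨_, _, hl2⟩ := Finset.mem_filter.mp hl
    exact Finset.mem_filter.mpr ⟨mem_univ _, hl2⟩
  exact_mod_cast Finset.card_le_card h3

end Pool.Agent.TH658.Xr
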