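import Pool.Agent.TH658.Xr.Num

set_option autoImplicit false
set_option linter.unusedSectionVars false

/-! The choice of the parameters, and wirings without dense spots. -/

namespace Pool.Agent.TH658.Xr

open Finset Pool.Agent.H30R2.PS Pool.Agent.TH658.Eq Pool.Agent.TH658.Sd

variable {n k m : ℕ}

/-- the number of light vectors -/
noncomputable def NL (m τ : ℕ) : ℕ := (univ.filter fun l : Fin m → ZMod 2 => wt l ≤ 2 * τ).card

theorem NL_le {ε δ : ℝ} {C n τ : ℕ} (hε : 0 < ε) (hε1 : ε ≤ 1) (hC : 1 ≤ C)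
    (hδ : δ = ε ^ 2 / (512 * C)) (hτ : (τ : ℝ) ≤ δ * n) :
    (NL (C * n) τ : ℝ) ≤ Real.exp (ε * n / 8) := by
  have hC0 : (1 : ℝ) ≤ C := by exact_mod_cast hC
  set x : ℝ := ε / (16 * C) with hx
  have hx0 : 0 < x := by positivity
  have hx1 : x ≤ 1 := by
    rw [hx, div_le_one (by positivity)]
    linarith
  have h1 := card_light_le (C * n) (2 * τ) x hx0 hx1
  have h2 : (1 + x) ^ (C * n) ≤ Real.exp (ε * n / 16) := by
    have h3 : (1 + x) ≤ Real.exp x := by
      rw [add_comm]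
      exact Real.add_one_le_exp x
    refine (pow_le_pow_left₀ (by positivity) h3 _).trans (le_of_eq ?_)
    rw [← Real.exp_nat_mul]
    congr 1
    rw [hx]
    push_cast
    field_simp
  have h3 : (x⁻¹) ^ (2 * τ) ≤ Real.exp (ε * n / 16) := by
    have h4 : x⁻¹ ≤ Real.exp x⁻¹ := by
      have := Real.add_one_le_exp x⁻¹
      linarith
    refine (pow_le_pow_left₀ (by positivity) h4 _).trans ?_
    rw [← Real.exp_nat_mul]
    refine Real.exp_le_exp.mpr ?_
    push_cast
    have h5 : 2 * (τ : ℝ) * x⁻¹ ≤ 2 * (δ * n) * x⁻¹ := by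
      refine mul_le_mul_of_nonneg_right ?_ (by positivity)
      linarith
    refine h5.trans (le_of_eq ?_)
    rw [hδ, hx]
    field_simp
    ring
  have h4 : (NL (C * n) τ : ℝ) = (NL (C * n) τ : ℝ) * x ^ (2 * τ) * (x⁻¹) ^ (2 * τ) := by
    rw [mul_assoc, ← mul_pow, mul_inv_cancel₀ hx0.ne', one_pow, mul_one]
  rw [h4]
  have h5 : Real.exp (ε * n / 8) = Real.exp (ε * n / 16) * Real.exp (ε * n / 16) := by
    rw [← Real.exp_add]
    congr 1
    ring
  rw [h5]
  exact mul_le_mul (h1.trans h2) h3 (by positivity) (Real.exp_pos _).le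

theorem params {ε η : ℝ} {C k n : ℕ} (hε : 0 < ε) (hε1 : ε ≤ 1) (hη : 0 < η) (hη1 : η ≤ 1)
    (hC : 4 / η ^ 2 ≤ C) (hk : 1024 * C * (C + 2) / ε ^ 3 ≤ k) (hn : 1024 * C / ε ^ 2 ≤ n) :
    0 < n ∧ ∃ τ : ℕ,
      (NL (C * n) τ : ℝ) * (2 * (1 + Real.exp (-(2 * (k * τ : ℕ) / n))) ^ n / 2 ^ n) *
        (2 : ℝ) ^ ((1 - ε) * n) ≤ 1 / 8 ∧
      (2 : ℝ) ^ n * 2 ^ (C * n) * (1 - ε) ^ (k * (τ + 1)) ≤ 1 / 4 ∧
      (NL (C * n) τ : ℝ) * (2 ^ n * (2 ^ (C * n) * Real.exp (-(η ^ 2 * (C * n : ℕ) / 2)))) <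
        2 ^ (C * n) := by
  have hη2 : η ^ 2 ≤ 1 := by nlinarith
  have hη20 : 0 < η ^ 2 := by positivity
  have hC4 : (4 : ℝ) ≤ C := by
    refine le_trans ?_ hC
    rw [le_div_iff₀ hη20]
    linarith
  have hCη : 4 ≤ C * η ^ 2 := by
    rwa [div_le_iff₀ hη20] at hC
  have hC1 : 1 ≤ C := by
    have : (1 : ℝ) ≤ C := by linarith
    exact_mod_cast this
  set δ : ℝ := ε ^ 2 / (512 * C) with hδ
  have hδ0 : 0 < δ := by positivity
  have hδn : 2 ≤ δ * n := by
    rw [div_le_iff₀ (by positivity)] at hn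
    rw [hδ, div_mul_eq_mul_div, le_div_iff₀ (by positivity)]
    nlinarith
  have hn0 : (0 : ℝ) < n := by
    by_contra h
    rw [not_lt] at h
    nlinarith
  have hn1 : 0 < n := by exact_mod_cast hn0
  have hn1' : (1 : ℝ) ≤ n := by exact_mod_cast hn1
  have hεn : 7 ≤ ε * n := by
    rw [div_le_iff₀ (by positivity)] at hn
    nlinarith
  have hkδ : 2 * (C + 2) / ε ≤ k * δ := by
    rw [div_le_iff₀ (by positivity)] at hk
    rw [hδ, mul_div_assoc', div_le_div_iff₀ hε (by positivity)]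
    nlinarith
  set τ := ⌊δ * n⌋₊ with hτ
  have hτ1 : (τ : ℝ) ≤ δ * n := Nat.floor_le (by positivity)
  have hτ2 : δ * n ≤ τ + 1 := (Nat.lt_floor_add_one _).le
  have hτ3 : δ * n / 2 ≤ τ := by linarith
  have hNL := NL_le (n := n) hε hε1 hC1 hδ hτ1
  refine ⟨hn1, τ, ?_, ?_, ?_⟩
  · have hq : Real.exp (-(2 * ((k * τ : ℕ) : ℝ) / n)) ≤ ε / 8 := by
      have h1 : 8 / ε ≤ 2 * ((k * τ : ℕ) : ℝ) / n := by
        have h2 : k * δ ≤ 2 * ((k * τ : ℕ) : ℝ) / n := by
          rw [le_div_iff₀ hn0]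
          push_cast
          have h3 : (k : ℝ) * (δ * n / 2) ≤ k * τ :=
            mul_le_mul_of_nonneg_left hτ3 (Nat.cast_nonneg k)
          linarith
        refine le_trans ?_ (hkδ.trans h2)
        refine div_le_div_of_nonneg_right ?_ hε.le
        linarith
      have h2 : Real.exp (-(2 * ((k * τ : ℕ) : ℝ) / n)) ≤ Real.exp (-(8 / ε)) :=
        Real.exp_le_exp.mpr (neg_le_neg h1)
      refine h2.trans ?_
      rw [Real.exp_neg]
      have h3 : 8 / ε ≤ Real.exp (8 / ε) := by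
        have := Real.add_one_le_exp (8 / ε)
        linarith
      calc (Real.exp (8 / ε))⁻¹ ≤ (8 / ε)⁻¹ := inv_anti₀ (by positivity) h3
        _ = ε / 8 := inv_div 8 ε
    have h1 : (1 + Real.exp (-(2 * ((k * τ : ℕ) : ℝ) / n))) ^ n ≤ Real.exp (ε * n / 8) := by
      have h2 : 1 + Real.exp (-(2 * ((k * τ : ℕ) : ℝ) / n)) ≤ Real.exp (ε / 8) := by
        have := Real.add_one_le_exp (ε / 8)
        linarith
      refine (pow_le_pow_left₀ (by positivity) h2 _).trans (le_of_eq ?_)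
      rw [← Real.exp_nat_mul]
      congr 1
      ring
    have h2 : (NL (C * n) τ : ℝ) * (2 * (1 + Real.exp (-(2 * ((k * τ : ℕ) : ℝ) / n))) ^ n /
        2 ^ n) ≤ Real.exp (ε * n / 8) * (2 * Real.exp (ε * n / 8) / 2 ^ n) := by
      refine mul_le_mul hNL ?_ (by positivity) (Real.exp_pos _).le
      refine div_le_div_of_nonneg_right ?_ (by positivity)
      linarith
    refine (mul_le_mul_of_nonneg_right h2 (by positivity)).trans ?_
    have h3 : (2 : ℝ) ^ n = Real.exp (Real.log 2 * n) := by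
      rw [← Real.rpow_natCast, Real.rpow_def_of_pos (by norm_num)]
    have h4 : (2 : ℝ) ^ ((1 - ε) * n) = Real.exp (Real.log 2 * ((1 - ε) * n)) :=
      Real.rpow_def_of_pos (by norm_num) _
    have h5 : (16 : ℝ) = Real.exp (Real.log 2 * 4) := by
      have h6 : (2 : ℝ) ^ (4 : ℝ) = Real.exp (Real.log 2 * 4) :=
        Real.rpow_def_of_pos (by norm_num) _
      rw [← h6]
      norm_num
    have h6 : Real.exp (ε * n / 8) * (2 * Real.exp (ε * n / 8) / 2 ^ n) *
        (2 : ℝ) ^ ((1 - ε) * n) * 8 ≤ 1 := by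
      have h7 : Real.exp (ε * n / 8) * (2 * Real.exp (ε * n / 8) / 2 ^ n) *
          (2 : ℝ) ^ ((1 - ε) * n) * 8 =
          16 * (Real.exp (ε * n / 8) * Real.exp (ε * n / 8) * (2 : ℝ) ^ ((1 - ε) * n) / 2 ^ n) := by
        ring
      rw [h7, h3, h4, h5, ← Real.exp_add, ← Real.exp_add, ← Real.exp_sub, ← Real.exp_add]
      refine Real.exp_le_one_iff.mpr ?_
      have h8 := Real.log_two_gt_d9
      have h9 := Real.log_two_lt_d9
      have h10 : 7 * (Real.log 2 - 1 / 4) ≤ ε * n * (Real.log 2 - 1 / 4) :=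
        mul_le_mul_of_nonneg_right hεn (by linarith)
      linarith
    linarith
  · have h1 : (1 - ε) ^ (k * (τ + 1)) ≤ Real.exp (-(2 * (C + 2) * n)) := by
      have h2 : 1 - ε ≤ Real.exp (-ε) := by
        have := Real.add_one_le_exp (-ε)
        linarith
      refine (pow_le_pow_left₀ (by linarith) h2 _).trans ?_
      rw [← Real.exp_nat_mul]
      refine Real.exp_le_exp.mpr ?_
      push_cast
      have h3 : 2 * (C + 2) ≤ ε * (k * δ) := by
        rw [div_le_iff₀ hε] at hkδ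
        linarith
      have h4 : (k : ℝ) * (δ * n) ≤ k * (τ + 1) :=
        mul_le_mul_of_nonneg_left hτ2 (Nat.cast_nonneg k)
      nlinarith
    have h2 : (2 : ℝ) ^ n * 2 ^ (C * n) ≤ Real.exp ((C + 1) * n) := by
      rw [← pow_add]
      have h3 : (2 : ℝ) ≤ Real.exp 1 := by
        have := Real.add_one_le_exp (1 : ℝ)
        linarith
      refine (pow_le_pow_left₀ (by norm_num) h3 _).trans (le_of_eq ?_)
      rw [← Real.exp_nat_mul]
      congr 1
      push_cast
      ring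
    have h3 : Real.exp ((C + 1) * n) * Real.exp (-(2 * (C + 2) * n)) ≤ 1 / 4 := by
      rw [← Real.exp_add]
      have h4 : Real.exp ((C + 1) * n + -(2 * (C + 2) * n)) ≤ Real.exp (-3) := by
        refine Real.exp_le_exp.mpr ?_
        nlinarith
      refine h4.trans ?_
      rw [Real.exp_neg, one_div]
      refine inv_anti₀ (by norm_num) ?_
      have := Real.add_one_le_exp (3 : ℝ)
      linarith
    refine le_trans (mul_le_mul h2 h1 ?_ (Real.exp_pos _).le) h3
    exact pow_nonneg (by linarith) _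
  · have h1 : (NL (C * n) τ : ℝ) ≤ Real.exp (n / 8) := by
      refine hNL.trans (Real.exp_le_exp.mpr ?_)
      nlinarith
    have h2 : (2 : ℝ) ^ n ≤ Real.exp n := by
      have h3 : (2 : ℝ) ≤ Real.exp 1 := by
        have := Real.add_one_le_exp (1 : ℝ)
        linarith
      refine (pow_le_pow_left₀ (by norm_num) h3 _).trans (le_of_eq ?_)
      rw [← Real.exp_nat_mul, mul_one]
    have h3 : Real.exp (-(η ^ 2 * ((C * n : ℕ) : ℝ) / 2)) ≤ Real.exp (-(2 * n)) := by
      refine Real.exp_le_exp.mpr ?_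
      push_cast
      nlinarith
    have h4 : (NL (C * n) τ : ℝ) * (2 ^ n * Real.exp (-(η ^ 2 * ((C * n : ℕ) : ℝ) / 2))) < 1 := by
      have h5 : (NL (C * n) τ : ℝ) * (2 ^ n * Real.exp (-(η ^ 2 * ((C * n : ℕ) : ℝ) / 2))) ≤
          Real.exp (n / 8) * (Real.exp n * Real.exp (-(2 * n))) :=
        mul_le_mul h1 (mul_le_mul h2 h3 (Real.exp_pos _).le (Real.exp_pos _).le) (by positivity)
          (Real.exp_pos _).le
      refine lt_of_le_of_lt h5 ?_
      rw [← Real.exp_add, ← Real.exp_add, ← Real.exp_zero]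
      refine Real.exp_lt_exp.mpr ?_
      linarith
    have h5 : (NL (C * n) τ : ℝ) * (2 ^ n * (2 ^ (C * n) *
        Real.exp (-(η ^ 2 * ((C * n : ℕ) : ℝ) / 2)))) =
        (NL (C * n) τ : ℝ) * (2 ^ n * Real.exp (-(η ^ 2 * ((C * n : ℕ) : ℝ) / 2))) *
        2 ^ (C * n) := by ring
    rw [h5]
    have h6 : (0 : ℝ) < 2 ^ (C * n) := by positivity
    nlinarith

/-- every set of at most `d` variables contains at most `τ` equations -/
def Nice (d τ : ℕ) (w : WX n k m) : Prop :=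
  ∀ D : Finset (Fin n), D.card ≤ d → (univ.filter fun i : Fin m => ∀ a, w (i, a) ∈ D).card ≤ τ

theorem card_S (D : Finset (Fin n)) (I : Finset (Fin m)) (r : ℝ)
    (hr : (D.card : ℝ) ≤ r * n) :
    ((univ.filter fun w : WX n k m => ∀ p : Fin m × Fin k, p.1 ∈ I → w p ∈ D).card : ℝ) ≤
      r ^ (k * I.card) * n ^ (k * m) := by
  classical
  have h1 : (univ.filter fun w : WX n k m => ∀ p : Fin m × Fin k, p.1 ∈ I → w p ∈ D) =
      Fintype.piFinset fun p : Fin m × Fin k => if p.1 ∈ I then D else univ := by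
    ext w
    rw [Finset.mem_filter, Fintype.mem_piFinset]
    constructor
    · rintro ⟨_, h⟩ p
      by_cases hp : p.1 ∈ I
      · rw [if_pos hp]
        exact h p hp
      · rw [if_neg hp]
        exact mem_univ _
    · intro h
      refine ⟨mem_univ _, fun p hp => ?_⟩
      have h2 := h p
      rwa [if_pos hp] at h2
  rw [h1, Fintype.card_piFinset]
  push_cast
  have h2 : ∀ p : Fin m × Fin k, (((if p.1 ∈ I then D else univ : Finset (Fin n)).card : ℕ) : ℝ) ≤
      (if p.1 ∈ I then r else 1) * n := by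
    intro p
    split_ifs with hp
    · exact hr
    · rw [Finset.card_univ, Fintype.card_fin, one_mul]
  refine (Finset.prod_le_prod (fun p _ => Nat.cast_nonneg _) fun p _ => h2 p).trans ?_
  rw [Finset.prod_mul_distrib, Finset.prod_const, Finset.card_univ, Fintype.card_prod,
    Fintype.card_fin, Fintype.card_fin, mul_comm m k]
  refine mul_le_mul_of_nonneg_right (le_of_eq ?_) (by positivity)
  rw [Fintype.prod_prod_type]
  have h3 : ∀ i : Fin m, (∏ a : Fin k, if (i, a).1 ∈ I then r else 1) =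
      if i ∈ I then r ^ k else 1 := by
    intro i
    show (∏ _a : Fin k, if i ∈ I then r else 1) = _
    rw [Finset.prod_const, Finset.card_univ, Fintype.card_fin]
    split_ifs
    · rfl
    · exact one_pow k
  rw [Finset.prod_congr rfl fun i _ => h3 i, Finset.prod_ite, Finset.prod_const_one, mul_one,
    Finset.prod_const, ← pow_mul, Finset.filter_mem_eq_inter, Finset.univ_inter]

open Classical in
theorem card_not_nice (d τ : ℕ) (r : ℝ) (hr : (d : ℝ) ≤ r * n) (hr0 : 0 ≤ r) (hr1 : r ≤ 1) :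
    ((univ.filter fun w : WX n k m => ¬ Nice d τ w).card : ℝ) ≤
      2 ^ n * 2 ^ m * r ^ (k * (τ + 1)) * n ^ (k * m) := by
  let DD : Finset (Finset (Fin n) × Finset (Fin m)) :=
    univ.filter fun P => P.1.card ≤ d ∧ τ < P.2.card
  let S : Finset (Fin n) × Finset (Fin m) → Finset (WX n k m) := fun P =>
    univ.filter fun w : WX n k m => ∀ p : Fin m × Fin k, p.1 ∈ P.2 → w p ∈ P.1
  have hsub : (univ.filter fun w : WX n k m => ¬ Nice d τ w) ⊆ DD.biUnion S := by
    intro w hw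
    have h1 := (Finset.mem_filter.mp hw).2
    unfold Nice at h1
    push Not at h1
    obtain ⟨D, hD, h2⟩ := h1
    refine Finset.mem_biUnion.mpr ⟨(D, univ.filter fun i : Fin m => ∀ a, w (i, a) ∈ D),
      Finset.mem_filter.mpr ⟨mem_univ _, hD, h2⟩, Finset.mem_filter.mpr ⟨mem_univ _, ?_⟩⟩
    intro p hp
    exact (Finset.mem_filter.mp hp).2 p.2
  have h1 : ((univ.filter fun w : WX n k m => ¬ Nice d τ w).card : ℝ) ≤
      ∑ P ∈ DD, ((S P).card : ℝ) := by
    exact_mod_cast (Finset.card_le_card hsub).trans Finset.card_biUnion_le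
  refine h1.trans ?_
  have h2 : ∀ P ∈ DD, ((S P).card : ℝ) ≤ r ^ (k * (τ + 1)) * n ^ (k * m) := by
    intro P hP
    obtain ⟨_, h3, h4⟩ := Finset.mem_filter.mp hP
    refine (card_S P.1 P.2 r ?_).trans ?_
    · refine le_trans ?_ hr
      exact_mod_cast h3
    · refine mul_le_mul_of_nonneg_right ?_ (by positivity)
      exact pow_le_pow_of_le_one hr0 hr1 (Nat.mul_le_mul_left k h4)
  refine (Finset.sum_le_sum h2).trans ?_
  rw [Finset.sum_const, nsmul_eq_mul]
  have h3 : (DD.card : ℝ) ≤ 2 ^ n * 2 ^ m := by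
    have h4 : DD.card ≤ 2 ^ n * 2 ^ m := by
      refine (Finset.card_le_univ _).trans (le_of_eq ?_)
      rw [Fintype.card_prod, Fintype.card_finset, Fintype.card_finset, Fintype.card_fin,
        Fintype.card_fin]
    exact_mod_cast h4
  have h4 : 0 ≤ r ^ (k * (τ + 1)) * (n : ℝ) ^ (k * m) := by positivity
  nlinarith

end Pool.Agent.TH658.Xr
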