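import Pool.Agent.TH658.Xr.Cnf

set_option autoImplicit false
set_option linter.unusedSectionVars false

/-! Programs for satisfiability with gates from linear algebra. -/

namespace Pool.Agent.TH658.Xr

open Finset Pool.Agent.H30R2.PS Pool.Agent.TH658.Eq

section defs

variable {n k s : ℕ} {V : Type}

/-- The functions which the `j`-th gate may use as entries of its matrices: linear combinations
of functions of the clauses on at most `d` variables and of functions of the value of one previous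
gate at the formula with some variables negated. -/
def Usable (K : Type) [Field K] (d : ℕ) (v : Fin s → CNF n k → V) (j : Fin s) :
    Submodule K (CNF n k → K) :=
  Local K n k d ⊔ Submodule.span K {g | ∃ i, i < j ∧ ∃ (γ : Fin n → ZMod 2) (φ : V → K),
    g = fun F => φ (v i (flip γ F))}

/-- square matrices -/
abbrev Mat (K : Type) (r : ℕ) := Matrix (Fin r) (Fin r) K

/-- invertible matrices -/
abbrev Inv (K : Type) [Field K] (r : ℕ) := (Mat K r)ˣ

/-- `move` for matrices indexed by `Fin r` -/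
def mv {K : Type} [Field K] {r : ℕ} (σ : K →+* K) (c : Bool × Bool) (q : Inv K r)
    (M : Mat K r) : Mat K r := Sd.move σ c q M

/-- The entries of the matrices `M F y` are functions of `F` in `U`. -/
def EntriesIn {Y K : Type} [Field K] {r : ℕ} (U : Submodule K (CNF n k → K))
    (M : CNF n k → Y → Mat K r) : Prop := ∀ y i j, (fun F => M F y i j) ∈ U

/-- `ρ` is a linear representation of `H`. -/
def IsRep {K : Type} [Field K] {r : ℕ} (H : AddSubgroup (Fin n → ZMod 2)) (ρ : H → Inv K r) :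
    Prop := ∀ g h, ρ (g + h) = ρ g * ρ h

/-- The sign changes in `H` act on the matrices by the changes of basis `ρ h`. -/
def IsEquivariant {Y K : Type} [Field K] {r : ℕ} (H : AddSubgroup (Fin n → ZMod 2))
    (σ : K →+* K) (c : Y → Bool × Bool) (M : CNF n k → Y → Mat K r) (ρ : H → Inv K r) : Prop :=
  ∀ (h : H) (F : CNF n k) (y : Y), M (flip h.1 F) y = mv σ (c y) (ρ h) (M F y)

/-- `v F` depends only on the matrices `M F y` up to a change of basis. -/
def IsClassFunction {Y K : Type} [Field K] {r : ℕ} (σ : K →+* K) (c : Y → Bool × Bool)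
    (M : CNF n k → Y → Mat K r) (v : CNF n k → V) : Prop :=
  ∀ F G, (∃ q : Inv K r, ∀ y, M G y = mv σ (c y) q (M F y)) → v F = v G

/-- A gate computing a function of the isomorphism class of an `r`-dimensional vector space with
endomorphisms and sesquilinear forms `M F y`, on which the sign changes in `H` act by a linear
representation `ρ`. -/
def ClassGate (K : Type) [Field K] (H : AddSubgroup (Fin n → ZMod 2)) (r : ℕ)
    (U : Submodule K (CNF n k → K)) (v : CNF n k → V) : Prop :=
  ∃ (Y : Type) (σ : K →+* K) (c : Y → Bool × Bool) (M : CNF n k → Y → Mat K r)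
    (ρ : H → Inv K r),
    EntriesIn U M ∧ IsRep H ρ ∧ IsEquivariant H σ c M ρ ∧ IsClassFunction σ c M v

/-- Each sign change in `H` acts on the matrices by some conjugation. -/
def IsConjugated {Y K : Type} [Field K] {r : ℕ} (H : AddSubgroup (Fin n → ZMod 2))
    (M : CNF n k → Y → Mat K r) : Prop :=
  ∀ h ∈ H, ∃ q : Inv K r, ∀ (F : CNF n k) (y : Y), M (flip h F) y = q.1 * M F y * q⁻¹.1

/-- `v F` depends only on the traces of the products of the matrices `M F y`. -/
def IsTraceFunction {Y K : Type} [Field K] {r : ℕ} (M : CNF n k → Y → Mat K r)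
    (v : CNF n k → V) : Prop :=
  ∀ F G, (∀ l : List Y, ((l.map (M F)).prod).trace = ((l.map (M G)).prod).trace) → v F = v G

/-- A gate computing a function of the traces of the products of `r × r` matrices `M F y`, such
that each sign change in `H` acts on them by some conjugation. -/
def TraceGate (K : Type) [Field K] (H : AddSubgroup (Fin n → ZMod 2)) (r : ℕ)
    (U : Submodule K (CNF n k → K)) (v : CNF n k → V) : Prop :=
  ∃ (Y : Type) (M : CNF n k → Y → Mat K r),
    EntriesIn U M ∧ IsConjugated H M ∧ IsTraceFunction M v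

/-- `v` is a program with groups `H j`, dimensions `r j` and costs `r j ^ p j * [Γ : H j]`. -/
def IsProgram (d : ℕ) (v : Fin s → CNF n k → V) (H : Fin s → AddSubgroup (Fin n → ZMod 2))
    (r p : Fin s → ℕ) : Prop :=
  ∀ j, 0 < r j ∧ ∃ (K : Type) (_ : Field K), (2 : K) ≠ 0 ∧
    ((p j = 2 ∧ ClassGate K (H j) (r j) (Usable K d v j) (v j)) ∨
     (p j = 4 ∧ TraceGate K (H j) (r j) (Usable K d v j) (v j)))

end defs

variable {n k m s : ℕ} {V : Type}

/-- the gates of a program have the property used in the induction -/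
theorem gates {d : ℕ} (v : Fin s → CNF n k → V) (H : Fin s → AddSubgroup (Fin n → ZMod 2))
    (r p : Fin s → ℕ) (hp : IsProgram d v H r p) :
    ∃ (Kf : Fin s → Type) (_ : ∀ j, Field (Kf j)),
      (∀ j, (2 : Kf j) ≠ 0) ∧
      ∃ C : ∀ j, Finset (Chr (AddSubgroup.toZModSubmodule 2 (H j))),
        (∀ j, (C j).Nonempty) ∧ (∀ j, (C j).card ^ 2 ≤ r j ^ p j) ∧
        ∃ E : ∀ j, Set (CNF n k → Kf j),
          (∀ j, ∀ f ∈ E j, f ∈ AvailT (Kf j) flip (Local (Kf j) n k d) v j) ∧
          ∀ j, Sd.InvG (Fin m) flip (AddSubgroup.toZModSubmodule 2 (H j)) (C j) (E j) (v j) := by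
  classical
  choose hr Kf iK h2 hg using hp
  have hgate : ∀ j, ∃ C : Finset (Chr (AddSubgroup.toZModSubmodule 2 (H j))), C.Nonempty ∧
      C.card ^ 2 ≤ r j ^ p j ∧
      ∃ E : Set (CNF n k → Kf j), (∀ f ∈ E, f ∈ AvailT (Kf j) flip (Local (Kf j) n k d) v j) ∧
        Sd.InvG (Fin m) flip (AddSubgroup.toZModSubmodule 2 (H j)) C E (v j) := by
    intro j
    have : Nonempty (Fin (r j)) := ⟨⟨0, hr j⟩⟩
    rcases hg j with ⟨hpj, Y, σ, c, M, ρ, hM, hρ, hsym, hcl⟩ | ⟨hpj, Y, M, hM, hsym, hcl⟩
    · obtain ⟨C, hC, hC', hv⟩ := Sd.inv_classG (V := V) (S := Fin m) (h2 j) σ c flip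
        (AddSubgroup.toZModSubmodule 2 (H j)) M (fun h => ρ ⟨h.1, h.2⟩)
        (fun h h' => hρ ⟨h.1, h.2⟩ ⟨h'.1, h'.2⟩) (fun h x y => hsym ⟨h.1, h.2⟩ x y)
      refine ⟨C, hC, ?_, _, ?_, hv (v j) (fun x x' hq => hcl x x' hq)⟩
      · rw [hpj]
        refine Nat.pow_le_pow_left (hC'.trans (le_of_eq (Fintype.card_fin _))) 2
      · rintro g ⟨y, i, i', rfl⟩
        exact hM y i i'
    · obtain ⟨C, hC, hC', hv⟩ := Sd.inv_wordsG (V := V) (S := Fin m) (h2 j) flip flip_zero
        flip_add (AddSubgroup.toZModSubmodule 2 (H j)) M (fun h hh => hsym h hh)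
      refine ⟨C, hC, ?_, _, ?_, hv (v j) (fun x x' hq => hcl x x' hq)⟩
      · rw [hpj]
        have h3 : C.card ≤ r j ^ 2 := hC'.trans (le_of_eq (by rw [Fintype.card_fin]))
        calc C.card ^ 2 ≤ (r j ^ 2) ^ 2 := Nat.pow_le_pow_left h3 2
          _ = r j ^ 4 := by rw [← pow_mul]
      · rintro g ⟨y, i, i', rfl⟩
        exact hM y i i'
  choose C hC hC' E hE hv using hgate
  exact ⟨Kf, iK, h2, C, hC, hC', E, hE, hv⟩

open Classical in
/-- the distribution of the value of a gate does not see the twist -/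
theorem same_card (v : CNF n k → V) (T : Set V) (w : WX n k m)
    (H : Submodule (ZMod 2) (GX n)) (τ : ℕ)
    (U : Submodule (ZMod 2) (Fin m → ZMod 2))
    (hU : ∀ l, l ∈ U ↔ (wt l ≤ τ ∧ ∀ h : H, dot l (BX w (h : GX n)) = 0))
    (hv : ∀ e : Fin m → ZMod 2, (∀ l : Fin m → ZMod 2, wt l ≤ τ →
      (∀ h : H, dot l (BX w (h : GX n)) = 0) → dot l e = 0) → ∀ t,
      v (hardF w (t + e)) = v (hardF w t))
    (e : Fin m → ZMod 2)
    (he : ∀ l : Fin m → ZMod 2, wt l ≤ τ → (∀ h : GX n, dot l (BX w h) = 0) → dot l e = 0) :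
    (univ.filter fun h : GX n => v (hardF w (BX w h)) ∈ T).card =
      (univ.filter fun h : GX n => v (hardF w (BX w h + e)) ∈ T).card := by
  obtain ⟨h', hh⟩ := equi (BX w) U (fun t => v (hardF w t) ∈ T) (fun e' he' t => by
    show v (hardF w (t + e')) ∈ T ↔ v (hardF w t) ∈ T
    rw [hv e' (fun l hl hadj => he' l ((hU l).mpr ⟨hl, hadj⟩)) t]) e
    (fun l hl hadj => he l ((hU l).mp hl).1 hadj)
  symm
  refine Finset.card_bij (fun h _ => h + h') ?_ ?_ ?_
  · intro h hm
    exact Finset.mem_filter.mpr ⟨mem_univ _, (hh h).mp (Finset.mem_filter.mp hm).2⟩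
  · intro a _ b _ hab
    exact add_right_cancel hab
  · intro b hb
    refine ⟨b - h', Finset.mem_filter.mpr ⟨mem_univ _, (hh _).mpr ?_⟩, sub_add_cancel _ _⟩
    rw [sub_add_cancel]
    exact (Finset.mem_filter.mp hb).2

end Pool.Agent.TH658.Xr
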