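import Pool.Agent.TH658.Xr.Core

set_option autoImplicit false
set_option linter.unusedSectionVars false

/-! Programs for arbitrary inputs on which the sign changes act. -/

namespace Pool.Agent.TH658.Xr

open Finset Pool.Agent.H30R2.PS Pool.Agent.TH658.Eq

section defs

variable {n s : ℕ} {X V : Type}

/-- The entries of the matrices `M x y` are functions of `x` in `U`. -/
def EntriesInX {Y K : Type} [Field K] {r : ℕ} (U : Submodule K (X → K))
    (M : X → Y → Mat K r) : Prop := ∀ y i j, (fun x => M x y i j) ∈ U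

/-- The sign changes in `H` act on the matrices by the changes of basis `ρ h`. -/
def IsEquivariantX {Y K : Type} [Field K] {r : ℕ} (act : (Fin n → ZMod 2) → X → X)
    (H : AddSubgroup (Fin n → ZMod 2)) (σ : K →+* K) (c : Y → Bool × Bool)
    (M : X → Y → Mat K r) (ρ : H → Inv K r) : Prop :=
  ∀ (h : H) (x : X) (y : Y), M (act h.1 x) y = mv σ (c y) (ρ h) (M x y)

/-- `v x` depends only on the matrices `M x y` up to a change of basis. -/
def IsClassFunctionX {Y K : Type} [Field K] {r : ℕ} (σ : K →+* K) (c : Y → Bool × Bool)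
    (M : X → Y → Mat K r) (v : X → V) : Prop :=
  ∀ x x', (∃ q : Inv K r, ∀ y, M x' y = mv σ (c y) q (M x y)) → v x = v x'

/-- A gate computing a function of the isomorphism class of an `r`-dimensional vector space with
endomorphisms and sesquilinear forms `M x y`, on which the sign changes in `H` act by a linear
representation `ρ`. -/
def ClassGateX (act : (Fin n → ZMod 2) → X → X) (K : Type) [Field K]
    (H : AddSubgroup (Fin n → ZMod 2)) (r : ℕ) (U : Submodule K (X → K)) (v : X → V) : Prop :=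
  ∃ (Y : Type) (σ : K →+* K) (c : Y → Bool × Bool) (M : X → Y → Mat K r)
    (ρ : H → Inv K r),
    EntriesInX U M ∧ IsRep H ρ ∧ IsEquivariantX act H σ c M ρ ∧ IsClassFunctionX σ c M v

/-- Each sign change in `H` acts on the matrices by some conjugation. -/
def IsConjugatedX {Y K : Type} [Field K] {r : ℕ} (act : (Fin n → ZMod 2) → X → X)
    (H : AddSubgroup (Fin n → ZMod 2)) (M : X → Y → Mat K r) : Prop :=
  ∀ h ∈ H, ∃ q : Inv K r, ∀ (x : X) (y : Y), M (act h x) y = q.1 * M x y * q⁻¹.1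

/-- `v x` depends only on the traces of the products of the matrices `M x y`. -/
def IsTraceFunctionX {Y K : Type} [Field K] {r : ℕ} (M : X → Y → Mat K r)
    (v : X → V) : Prop :=
  ∀ x x', (∀ l : List Y, ((l.map (M x)).prod).trace = ((l.map (M x')).prod).trace) → v x = v x'

/-- A gate computing a function of the traces of the products of `r × r` matrices `M x y`, such
that each sign change in `H` acts on them by some conjugation. -/
def TraceGateX (act : (Fin n → ZMod 2) → X → X) (K : Type) [Field K]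
    (H : AddSubgroup (Fin n → ZMod 2)) (r : ℕ) (U : Submodule K (X → K)) (v : X → V) : Prop :=
  ∃ (Y : Type) (M : X → Y → Mat K r),
    EntriesInX U M ∧ IsConjugatedX act H M ∧ IsTraceFunctionX M v

/-- `v` is a program with groups `H j`, dimensions `r j` and costs `r j ^ p j * [Γ : H j]`. The
entries of the matrices of the `j`-th gate are linear combinations of functions in `L K` and of
functions of the value of one previous gate at the input with some signs changed. -/
def IsProgramX (act : (Fin n → ZMod 2) → X → X) (L : ∀ (K : Type) [Field K], Submodule K (X → K))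
    (v : Fin s → X → V) (H : Fin s → AddSubgroup (Fin n → ZMod 2)) (r p : Fin s → ℕ) : Prop :=
  ∀ j, 0 < r j ∧ ∃ (K : Type) (_ : Field K), (2 : K) ≠ 0 ∧
    ((p j = 2 ∧ ClassGateX act K (H j) (r j) (AvailT K act (L K) v j) (v j)) ∨
     (p j = 4 ∧ TraceGateX act K (H j) (r j) (AvailT K act (L K) v j) (v j)))

end defs

variable {n k m s : ℕ} {X V : Type}

/-- the gates of a program have the property used in the induction -/
theorem gatesX (act : (Fin n → ZMod 2) → X → X) (hact0 : ∀ x, act 0 x = x)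
    (hact : ∀ h h' x, act (h + h') x = act h (act h' x))
    (L : ∀ (K : Type) [Field K], Submodule K (X → K))
    (v : Fin s → X → V) (H : Fin s → AddSubgroup (Fin n → ZMod 2))
    (r p : Fin s → ℕ) (hp : IsProgramX act L v H r p) :
    ∃ (Kf : Fin s → Type) (iK : ∀ j, Field (Kf j)),
      (∀ j, (2 : Kf j) ≠ 0) ∧
      ∃ C : ∀ j, Finset (Chr (AddSubgroup.toZModSubmodule 2 (H j))),
        (∀ j, (C j).Nonempty) ∧ (∀ j, (C j).card ^ 2 ≤ r j ^ p j) ∧
        ∃ E : ∀ j, Set (X → Kf j),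
          (∀ j, ∀ f ∈ E j, f ∈ AvailT (Kf j) act (@L (Kf j) (iK j)) v j) ∧
          ∀ j, Sd.InvG (Fin m) act (AddSubgroup.toZModSubmodule 2 (H j)) (C j) (E j) (v j) := by
  classical
  choose hr Kf iK h2 hg using hp
  have hgate : ∀ j, ∃ C : Finset (Chr (AddSubgroup.toZModSubmodule 2 (H j))), C.Nonempty ∧
      C.card ^ 2 ≤ r j ^ p j ∧
      ∃ E : Set (X → Kf j), (∀ f ∈ E, f ∈ AvailT (Kf j) act (@L (Kf j) (iK j)) v j) ∧
        Sd.InvG (Fin m) act (AddSubgroup.toZModSubmodule 2 (H j)) C E (v j) := by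
    intro j
    have : Nonempty (Fin (r j)) := ⟨⟨0, hr j⟩⟩
    rcases hg j with ⟨hpj, Y, σ, c, M, ρ, hM, hρ, hsym, hcl⟩ | ⟨hpj, Y, M, hM, hsym, hcl⟩
    · obtain ⟨C, hC, hC', hv⟩ := Sd.inv_classG (V := V) (S := Fin m) (h2 j) σ c act
        (AddSubgroup.toZModSubmodule 2 (H j)) M (fun h => ρ ⟨h.1, h.2⟩)
        (fun h h' => hρ ⟨h.1, h.2⟩ ⟨h'.1, h'.2⟩) (fun h x y => hsym ⟨h.1, h.2⟩ x y)
      refine ⟨C, hC, ?_, _, ?_, hv (v j) (fun x x' hq => hcl x x' hq)⟩
      · rw [hpj]
        refine Nat.pow_le_pow_left (hC'.trans (le_of_eq (Fintype.card_fin _))) 2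
      · rintro g ⟨y, i, i', rfl⟩
        exact hM y i i'
    · obtain ⟨C, hC, hC', hv⟩ := Sd.inv_wordsG (V := V) (S := Fin m) (h2 j) act hact0
        hact (AddSubgroup.toZModSubmodule 2 (H j)) M (fun h hh => hsym h hh)
      refine ⟨C, hC, ?_, _, ?_, hv (v j) (fun x x' hq => hcl x x' hq)⟩
      · rw [hpj]
        have h3 : C.card ≤ r j ^ 2 := hC'.trans (le_of_eq (by rw [Fintype.card_fin]))
        calc C.card ^ 2 ≤ (r j ^ 2) ^ 2 := Nat.pow_le_pow_left h3 2
          _ = r j ^ 4 := by rw [← pow_mul]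
      · rintro g ⟨y, i, i', rfl⟩
        exact hM y i i'
  choose C hC hC' E hE hv using hgate
  exact ⟨Kf, iK, h2, C, hC, hC', E, hE, hv⟩

open Classical in
/-- the distribution of the value of a gate does not see the twist -/
theorem same_cardX (x : (Fin m → ZMod 2) → X) (v : X → V) (T : Set V) (w : WX n k m)
    (H : Submodule (ZMod 2) (GX n)) (τ : ℕ)
    (U : Submodule (ZMod 2) (Fin m → ZMod 2))
    (hU : ∀ l, l ∈ U ↔ (wt l ≤ τ ∧ ∀ h : H, dot l (BX w (h : GX n)) = 0))
    (hv : ∀ e : Fin m → ZMod 2, (∀ l : Fin m → ZMod 2, wt l ≤ τ →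
      (∀ h : H, dot l (BX w (h : GX n)) = 0) → dot l e = 0) → ∀ t,
      v (x (t + e)) = v (x t))
    (e : Fin m → ZMod 2)
    (he : ∀ l : Fin m → ZMod 2, wt l ≤ τ → (∀ h : GX n, dot l (BX w h) = 0) → dot l e = 0) :
    (univ.filter fun h : GX n => v (x (BX w h)) ∈ T).card =
      (univ.filter fun h : GX n => v (x (BX w h + e)) ∈ T).card := by
  obtain ⟨h', hh⟩ := equi (BX w) U (fun t => v (x t) ∈ T) (fun e' he' t => by
    show v (x (t + e')) ∈ T ↔ v (x t) ∈ T
    rw [hv e' (fun l hl hadj => he' l ((hU l).mpr ⟨hl, hadj⟩)) t]) e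
    (fun l hl hadj => he l ((hU l).mp hl).1 hadj)
  symm
  refine Finset.card_bij (fun h _ => h + h') ?_ ?_ ?_
  · intro h hm
    exact Finset.mem_filter.mpr ⟨mem_univ _, (hh h).mp (Finset.mem_filter.mp hm).2⟩
  · intro a _ b _ hab
    exact add_right_cancel hab
  · intro b hb
    refine ⟨b - h', Finset.mem_filter.mpr ⟨mem_univ _, (hh _).mpr ?_⟩, sub_add_cancel _ _⟩
    rw [sub_add_cancel]
    exact (Finset.mem_filter.mp hb).2

/-- The main theorem with abstract parameters and arbitrary inputs. -/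
theorem hard_coreX {n k m τ d0 : ℕ} {η β P : ℝ} (hn0 : 0 < n) (hη : 0 < η)
    (hP0 : 0 < P)
    (hβ : ∀ ψ : Chr (GX n), (Nat.card {w : WX n k m // ∃ l : Fin m → ZMod 2,
      τ < wt l ∧ wt l ≤ 2 * τ ∧ ∀ h, dot l (BX w h) = ψ h} : ℝ) ≤ β)
    (hβP : β * P ≤ 1 / 8 * (n : ℝ) ^ (k * m)) (hβ1 : β ≤ 1 / 8 * (n : ℝ) ^ (k * m))
    (hnice : (Nat.card {w : WX n k m // ¬ Nice d0 τ w} : ℝ) ≤ 1 / 4 * (n : ℝ) ^ (k * m))
    (hdist : (m : ℝ) ^ 2 / n ^ k ≤ 1 / 4)
    (hP3 : (NL m τ : ℝ) * (2 ^ n * (2 ^ m * Real.exp (-(η ^ 2 * (m : ℕ) / 2)))) < 2 ^ m) :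
    ∃ (Ω : Type) (_ : Fintype Ω) (_ : Nonempty Ω) (ww : Ω → WX n k m) (hh : Ω → GX n)
      (ee : Ω → Fin m → ZMod 2),
      (∀ ω, Distinct (ww ω) ∧ ∀ y, (1 - η) * m < 2 * (wt (ee ω + BX (ww ω) y) : ℝ)) ∧
      ∀ (X : Type) (act : (Fin n → ZMod 2) → X → X), (∀ x, act 0 x = x) →
        (∀ h h' x, act (h + h') x = act h (act h' x)) →
        ∀ x : WX n k m → (Fin m → ZMod 2) → X, (∀ w t h, x w (t + BX w h) = act h (x w t)) →
        ∀ L : ∀ (K : Type) [Field K], Submodule K (X → K),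
        (∀ (K : Type) [Field K], (2 : K) ≠ 0 → ∀ w, Nice d0 τ w → ∀ g ∈ L K,
          (fun t => g (x w t)) ∈ Sp K {l : Fin m → ZMod 2 | wt l ≤ τ}) →
        ∀ (s : ℕ) (V : Type) (v : Fin s → X → V)
        (H : Fin s → AddSubgroup (Fin n → ZMod 2)) (r p : Fin s → ℕ),
        IsProgramX act L v H r p → ∀ (j₀ : Fin s) (T : Set V),
        |(Nat.card {ω // v j₀ (x (ww ω) (BX (ww ω) (hh ω))) ∈ T} : ℝ) -
          Nat.card {ω // v j₀ (x (ww ω) (BX (ww ω) (hh ω) + ee ω)) ∈ T}| *
          P ≤ ((∑ j, r j ^ p j * (H j).index : ℕ) : ℝ) * Nat.card Ω := by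
  classical
  have hnR : (0 : ℝ) < n := by exact_mod_cast hn0
  have hnk : (0 : ℝ) < (n : ℝ) ^ (k * m) := by positivity
  have hβ' : ∀ ψ : Chr (GX n), ((univ.filter fun w : WX n k m => ∃ l : Fin m → ZMod 2,
      τ < wt l ∧ wt l ≤ 2 * τ ∧ ∀ h, dot l (BX w h) = ψ h).card : ℝ) ≤ β := by
    intro ψ
    have h1 := hβ ψ
    rwa [Nat.card_eq_fintype_card, Fintype.card_subtype] at h1
  rw [Nat.card_eq_fintype_card, Fintype.card_subtype] at hnice
  have hβ0 : 0 ≤ β := le_trans (Nat.cast_nonneg _) (hβ' 0)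
  have hok := card_okay hnice hβ' hβ1
  have hdist' : ((univ.filter fun w : WX n k m => ¬ Distinct w).card : ℝ) ≤
      1 / 4 * (n : ℝ) ^ (k * m) :=
    (card_not_distinct hn0).trans (mul_le_mul_of_nonneg_right hdist hnk.le)
  have hok2 : 1 / 4 * (n : ℝ) ^ (k * m) ≤
      ((univ.filter fun w : WX n k m => Okay d0 τ w ∧ Distinct w).card : ℝ) := by
    have h1 : (univ.filter fun w : WX n k m => Okay d0 τ w) ⊆
        (univ.filter fun w : WX n k m => Okay d0 τ w ∧ Distinct w) ∪
        (univ.filter fun w : WX n k m => ¬ Distinct w) := by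
      intro w hw
      have h2 := (Finset.mem_filter.mp hw).2
      by_cases h3 : Distinct w
      · exact Finset.mem_union_left _ (Finset.mem_filter.mpr ⟨mem_univ _, h2, h3⟩)
      · exact Finset.mem_union_right _ (Finset.mem_filter.mpr ⟨mem_univ _, h3⟩)
    have h2 := (Finset.card_le_card h1).trans (Finset.card_union_le _ _)
    have h3 : ((univ.filter fun w : WX n k m => Okay d0 τ w).card : ℝ) ≤
        ((univ.filter fun w : WX n k m => Okay d0 τ w ∧ Distinct w).card : ℝ) +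
        ((univ.filter fun w : WX n k m => ¬ Distinct w).card : ℝ) := by exact_mod_cast h2
    linarith
  have hokpos : 0 < (univ.filter fun w : WX n k m => Okay d0 τ w ∧ Distinct w).card := by
    have h1 : (0 : ℝ) < ((univ.filter fun w : WX n k m => Okay d0 τ w ∧ Distinct w).card : ℝ) :=
      lt_of_lt_of_le (by positivity) hok2
    exact_mod_cast h1
  obtain ⟨w0, hw0⟩ := Finset.card_pos.mp hokpos
  choose e he1 he2 using fun w : {w : WX n k m // Okay d0 τ w ∧ Distinct w} =>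
    exists_twist hη w.1 w.2.1 hP3
  refine ⟨{w : WX n k m // Okay d0 τ w ∧ Distinct w} × GX n, inferInstance,
    ⟨⟨⟨w0, (Finset.mem_filter.mp hw0).2⟩, 0⟩⟩, fun ω => ω.1.1, fun ω => ω.2,
    fun ω => e ω.1, fun ω => ⟨ω.1.2.2, he2 ω.1⟩, ?_⟩
  intro X act hact0 hact x hx L hL s V v H r p hp j₀ T
  obtain ⟨Kf, iK, h2, Cs, hC1, hC2, E, hE, hv⟩ := gatesX (m := m) act hact0 hact L v H r p hp
  set σ : ℝ := ((∑ j, r j ^ p j * (H j).index : ℕ) : ℝ) with hσ
  -- the wirings bad for the program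
  have hbad := count_bad (BX (n := n) (k := k) (m := m)) τ β hβ'
    (fun j => AddSubgroup.toZModSubmodule 2 (H j)) Cs
  have hbad' : ((univ.filter fun w : WX n k m => ∃ j,
      ¬ Sd.GoodG (AddSubgroup.toZModSubmodule 2 (H j)) (Cs j) (BX w) τ).card : ℝ) ≤ σ * β := by
    have h3 : ∑ j, (Cs j).card ^ 2 *
        (AddSubgroup.toZModSubmodule 2 (H j)).toAddSubgroup.index ≤
        ∑ j, r j ^ p j * (H j).index :=
      Finset.sum_le_sum fun j _ => Nat.mul_le_mul_right _ (hC2 j)
    have h4 : ((∑ j, (Cs j).card ^ 2 *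
        (AddSubgroup.toZModSubmodule 2 (H j)).toAddSubgroup.index : ℕ) : ℝ) ≤ σ := by
      rw [hσ]
      exact Nat.cast_le.mpr h3
    have h5 := mul_le_mul_of_nonneg_right h4 hβ0
    refine le_trans (le_of_eq ?_) (hbad.trans h5)
    congr!
  let a : {w : WX n k m // Okay d0 τ w ∧ Distinct w} → ℕ := fun w =>
    (univ.filter fun h : GX n => v j₀ (x w.1 (BX w.1 h)) ∈ T).card
  let b : {w : WX n k m // Okay d0 τ w ∧ Distinct w} → ℕ := fun w =>
    (univ.filter fun h : GX n => v j₀ (x w.1 (BX w.1 h + e w)) ∈ T).card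
  have ha : ∀ w, a w ≤ 2 ^ n := fun w => (Finset.card_le_univ _).trans (le_of_eq (by
    rw [Fintype.card_fun, ZMod.card, Fintype.card_fin]))
  have hb : ∀ w, b w ≤ 2 ^ n := fun w => (Finset.card_le_univ _).trans (le_of_eq (by
    rw [Fintype.card_fun, ZMod.card, Fintype.card_fin]))
  have hab : ∀ w : {w : WX n k m // Okay d0 τ w ∧ Distinct w}, (∀ j,
      Sd.GoodG (AddSubgroup.toZModSubmodule 2 (H j)) (Cs j) (BX w.1) τ) → a w = b w := by
    intro w hgood
    have hrun := run act (BX w.1) (x w.1) (fun t h => hx w.1 t h)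
      (fun j => AddSubgroup.toZModSubmodule 2 (H j)) Cs hC1 Kf iK h2 E v hv τ hgood
      (fun j => @L (Kf j) (iK j)) (fun j f hf => @hL (Kf j) (iK j) (h2 j) w.1 w.2.1.1 f hf) hE j₀
    exact same_cardX (x w.1) (v j₀) T w.1 (AddSubgroup.toZModSubmodule 2 (H j₀)) τ
      (Sd.lightU _ (Cs j₀) (hC1 j₀) (BX w.1) τ (hgood j₀)) (fun l => Iff.rfl) hrun (e w) (he1 w)
  have hcard : ∀ (Q : {w : WX n k m // Okay d0 τ w ∧ Distinct w} × GX n → Prop),
      (Nat.card {ω // Q ω} : ℝ) = ∑ w : {w : WX n k m // Okay d0 τ w ∧ Distinct w},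
        (((univ.filter fun h : GX n => Q (w, h)).card : ℕ) : ℝ) := by
    intro Q
    rw [Nat.card_eq_fintype_card, Fintype.card_subtype, Finset.card_filter,
      Fintype.sum_prod_type]
    push_cast
    refine Finset.sum_congr rfl fun w _ => ?_
    rw [Finset.card_filter]
    push_cast
    rfl
  have hdiff : |(Nat.card {ω : {w : WX n k m // Okay d0 τ w ∧ Distinct w} × GX n //
        v j₀ (x ω.1.1 (BX ω.1.1 ω.2)) ∈ T} : ℝ) -
      Nat.card {ω : {w : WX n k m // Okay d0 τ w ∧ Distinct w} × GX n //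
        v j₀ (x ω.1.1 (BX ω.1.1 ω.2 + e ω.1)) ∈ T}| ≤ σ * β * 2 ^ n := by
    rw [hcard, hcard, ← Finset.sum_sub_distrib]
    refine (Finset.abs_sum_le_sum_abs _ _).trans ?_
    have h3 : ∀ w : {w : WX n k m // Okay d0 τ w ∧ Distinct w}, |(a w : ℝ) - (b w : ℝ)| ≤
        if ∃ j, ¬ Sd.GoodG (AddSubgroup.toZModSubmodule 2 (H j)) (Cs j) (BX w.1) τ
        then 2 ^ n else 0 := by
      intro w
      split_ifs with hw
      · have h4 : (a w : ℝ) ≤ 2 ^ n := by exact_mod_cast ha w
        have h5 : (b w : ℝ) ≤ 2 ^ n := by exact_mod_cast hb w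
        have h6 : (0 : ℝ) ≤ a w := Nat.cast_nonneg _
        have h7 : (0 : ℝ) ≤ b w := Nat.cast_nonneg _
        rw [abs_le]
        constructor <;> linarith
      · push Not at hw
        rw [hab w hw, sub_self, abs_zero]
    refine (Finset.sum_le_sum fun w _ => h3 w).trans ?_
    rw [← Finset.sum_filter, Finset.sum_const, nsmul_eq_mul]
    refine mul_le_mul_of_nonneg_right ?_ (by positivity)
    refine le_trans ?_ hbad'
    have h4 : (univ.filter fun w : {w : WX n k m // Okay d0 τ w ∧ Distinct w} => ∃ j,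
        ¬ Sd.GoodG (AddSubgroup.toZModSubmodule 2 (H j)) (Cs j) (BX w.1) τ).card ≤
        (univ.filter fun w : WX n k m => ∃ j,
        ¬ Sd.GoodG (AddSubgroup.toZModSubmodule 2 (H j)) (Cs j) (BX w) τ).card := by
      refine Finset.card_le_card_of_injOn (fun w => w.1) ?_ ?_
      · intro w hw
        exact Finset.mem_coe.mpr (Finset.mem_filter.mpr ⟨mem_univ _,
          (Finset.mem_filter.mp (Finset.mem_coe.mp hw)).2⟩)
      · intro w _ w' _ h
        exact Subtype.ext h
    exact_mod_cast h4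
  have hΩ : (Nat.card ({w : WX n k m // Okay d0 τ w ∧ Distinct w} × GX n) : ℝ) =
      ((univ.filter fun w : WX n k m => Okay d0 τ w ∧ Distinct w).card : ℝ) * 2 ^ n := by
    rw [Nat.card_eq_fintype_card, Fintype.card_prod, Fintype.card_subtype, Fintype.card_fun,
      ZMod.card, Fintype.card_fin]
    push_cast
    rfl
  rw [hΩ]
  have hσ0 : 0 ≤ σ := Nat.cast_nonneg _
  calc _ ≤ σ * β * 2 ^ n * P := mul_le_mul_of_nonneg_right hdiff hP0.le
    _ = σ * 2 ^ n * (β * P) := by ring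
    _ ≤ σ * 2 ^ n * (1 / 8 * (n : ℝ) ^ (k * m)) :=
        mul_le_mul_of_nonneg_left hβP (by positivity)
    _ ≤ σ * 2 ^ n *
        ((univ.filter fun w : WX n k m => Okay d0 τ w ∧ Distinct w).card : ℝ) := by
        refine mul_le_mul_of_nonneg_left ?_ (by positivity)
        refine le_trans ?_ hok2
        nlinarith
    _ = _ := by ring

end Pool.Agent.TH658.Xr
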