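import Pool.Agent.TH658.Sd.Gen

set_option autoImplicit false
set_option linter.unusedSectionVars false

/-! Random systems of parity equations and their characters. -/

namespace Pool.Agent.TH658.Xr

open Finset Pool.Agent.H30R2.PS Pool.Agent.TH658.Eq Pool.Agent.TH658.Sd

/-- the variable of each of the `k` places of each of the `m` equations -/
abbrev WX (n k m : ℕ) := Fin m × Fin k → Fin n

/-- the sign changes of the variables -/
abbrev GX (n : ℕ) := Fin n → ZMod 2

variable {n k m : ℕ}

/-- the left sides of the equations -/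
def BX (w : WX n k m) : GX n →ₗ[ZMod 2] (Fin m → ZMod 2) where
  toFun h := fun i => ∑ a, h (w (i, a))
  map_add' h h' := by
    funext i
    show (∑ a, (h (w (i, a)) + h' (w (i, a)))) = (∑ a, h (w (i, a))) + ∑ a, h' (w (i, a))
    exact Finset.sum_add_distrib
  map_smul' c h := by
    funext i
    show (∑ a, c * h (w (i, a))) = c * ∑ a, h (w (i, a))
    rw [Finset.mul_sum]

theorem BX_apply (w : WX n k m) (h : GX n) (i : Fin m) : BX w h i = ∑ a, h (w (i, a)) := rfl

theorem dot_BX (w : WX n k m) (l : Fin m → ZMod 2) (h : GX n) :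
    dot l (BX w h) = ∑ p : Fin m × Fin k, l p.1 * h (w p) := by
  unfold dot
  rw [Fintype.sum_prod_type]
  refine Finset.sum_congr rfl fun i _ => ?_
  rw [BX_apply, Finset.mul_sum]

theorem sK_sum (K : Type) [Field K] {ι : Type} (s : Finset ι) (f : ι → ZMod 2) :
    sK K (∑ i ∈ s, f i) = ∏ i ∈ s, sK K (f i) := by
  classical
  induction s using Finset.induction_on with
  | empty => rw [Finset.sum_empty, Finset.prod_empty, sK_zero]
  | insert a s ha ih => rw [Finset.sum_insert ha, Finset.prod_insert ha, sK_add, ih]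

/-- the sum of the signs of a vector -/
theorem sum_sgn (y : GX n) : ∑ v, sK ℝ (y v) = (n : ℝ) - 2 * wt y := by
  classical
  have h1 : ∀ x : ZMod 2, sK ℝ x = 1 - 2 * (if x ≠ 0 then 1 else 0) := by
    intro x
    have h2 : ∀ x : ZMod 2, x = 0 ∨ x = 1 := by decide
    unfold sK
    rcases h2 x with h | h
    · rw [h, if_neg (by decide)]
      have : sg 0 = 1 := rfl
      rw [this, Int.cast_one]
      ring
    · rw [h, if_pos (by decide)]
      have : sg 1 = -1 := rfl
      rw [this]
      push_cast
      ring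
  rw [Finset.sum_congr rfl fun v _ => h1 (y v), Finset.sum_sub_distrib, Finset.sum_const,
    Finset.card_univ, Fintype.card_fin, ← Finset.mul_sum, Finset.sum_boole]
  unfold wt
  rw [nsmul_eq_mul, mul_one]

open Classical in
/-- the number of the wirings for which the combination `l` of the equations is `ψ` -/
theorem count_eq (l : Fin m → ZMod 2) (ψ : Chr (GX n)) :
    ((univ.filter fun w : WX n k m => ∀ h, dot l (BX w h) = ψ h).card : ℝ) * 2 ^ n =
      ∑ y : GX n, sK ℝ (ψ y) * ∏ p : Fin m × Fin k, ∑ v : Fin n, sK ℝ (l p.1 * y v) := by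
  have h1 : ∀ y : GX n, (∏ p : Fin m × Fin k, ∑ v : Fin n, sK ℝ (l p.1 * y v)) =
      ∑ w : WX n k m, sK ℝ (dot l (BX w y)) := by
    intro y
    rw [Finset.prod_univ_sum, Fintype.piFinset_univ]
    refine Finset.sum_congr rfl fun w _ => ?_
    rw [dot_BX, sK_sum]
  rw [Finset.sum_congr rfl fun y _ => by rw [h1 y, Finset.mul_sum], Finset.sum_comm]
  have h2 : ∀ w : WX n k m, ∑ y : GX n, sK ℝ (ψ y) * sK ℝ (dot l (BX w y)) =
      if ∀ h, dot l (BX w h) = ψ h then (2 : ℝ) ^ n else 0 := by
    intro w
    let L : GX n →+ ZMod 2 :=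
      { toFun := fun h => ψ h + dot l (BX w h)
        map_zero' := by rw [map_zero, map_zero, dot_zero, add_zero]
        map_add' := fun h h' => by
          rw [map_add, map_add, dot_add]
          ring }
    have h3 : ∀ y : GX n, sK ℝ (ψ y) * sK ℝ (dot l (BX w y)) = sK ℝ (L y) := fun y =>
      (sK_add ℝ _ _).symm
    rw [Finset.sum_congr rfl fun y _ => h3 y, sum_sK]
    have h4 : (Fintype.card (GX n) : ℝ) = 2 ^ n := by
      rw [Fintype.card_fun, ZMod.card, Fintype.card_fin]
      push_cast
      rfl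
    rw [h4]
    refine if_congr ⟨fun h y => (zmod2_eq (h y)).symm, fun h y => ?_⟩ rfl rfl
    show ψ y + dot l (BX w y) = 0
    rw [h y]
    exact zmod2_add_self _
  rw [Finset.sum_congr rfl fun w _ => h2 w, Finset.sum_ite, Finset.sum_const_zero, add_zero,
    Finset.sum_const, nsmul_eq_mul]

open Classical in
/-- the basic inequality -/
theorem count_le (l : Fin m → ZMod 2) (ψ : Chr (GX n)) :
    ((univ.filter fun w : WX n k m => ∀ h, dot l (BX w h) = ψ h).card : ℝ) * 2 ^ n ≤
      (∑ y : GX n, |(n : ℝ) - 2 * wt y| ^ (k * wt l)) * n ^ (k * (m - wt l)) := by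
  rw [count_eq, Finset.sum_mul]
  refine Finset.sum_le_sum fun y _ => ?_
  have hs : ∀ x : ZMod 2, |sK ℝ x| = 1 := by
    intro x
    have h2 : ∀ x : ZMod 2, x = 0 ∨ x = 1 := by decide
    unfold sK
    rcases h2 x with h | h
    · rw [h]
      have : sg 0 = 1 := rfl
      rw [this, Int.cast_one, abs_one]
    · rw [h]
      have : sg 1 = -1 := rfl
      rw [this, Int.cast_neg, abs_neg, Int.cast_one, abs_one]
  refine (le_abs_self _).trans ?_
  rw [abs_mul, hs, one_mul, Finset.abs_prod]
  have h1 : ∀ p : Fin m × Fin k, |∑ v : Fin n, sK ℝ (l p.1 * y v)| =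
      if l p.1 ≠ 0 then |(n : ℝ) - 2 * wt y| else n := by
    intro p
    have h2 : ∀ x : ZMod 2, x ≠ 0 → x = 1 := by decide
    by_cases hp : l p.1 ≠ 0
    · rw [if_pos hp, h2 _ hp, ← sum_sgn]
      simp only [one_mul]
    · rw [if_neg hp]
      rw [not_not] at hp
      rw [hp]
      simp only [zero_mul]
      rw [sK_zero, Finset.sum_const, Finset.card_univ, Fintype.card_fin, nsmul_eq_mul, mul_one]
      exact abs_of_nonneg (Nat.cast_nonneg n)
  rw [Finset.prod_congr rfl fun p _ => h1 p, Fintype.prod_prod_type]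
  have h3 : ∀ i : Fin m, (∏ a : Fin k, if l (i, a).1 ≠ 0 then |(n : ℝ) - 2 * wt y| else n) =
      if l i ≠ 0 then |(n : ℝ) - 2 * wt y| ^ k else (n : ℝ) ^ k := by
    intro i
    show (∏ _a : Fin k, if l i ≠ 0 then |(n : ℝ) - 2 * wt y| else n) = _
    rw [Finset.prod_const, Finset.card_univ, Fintype.card_fin]
    split_ifs <;> rfl
  rw [Finset.prod_congr rfl fun i _ => h3 i, Finset.prod_ite, Finset.prod_const,
    Finset.prod_const, ← pow_mul, ← pow_mul]
  have h4 : (univ.filter fun i : Fin m => l i ≠ 0).card = wt l := rfl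
  have h5 : (univ.filter fun i : Fin m => ¬ l i ≠ 0).card = m - wt l := by
    have h6 := Finset.card_filter_add_card_filter_not (s := (univ : Finset (Fin m)))
      (p := fun i => l i ≠ 0)
    rw [Finset.card_univ, Fintype.card_fin, h4] at h6
    omega
  rw [h4, h5]

/-- the generating function of the weights -/
theorem sum_prod (m : ℕ) (a b : ℝ) :
    ∑ y : Fin m → ZMod 2, ∏ v, (if y v ≠ 0 then b else a) = (a + b) ^ m := by
  have h1 := Finset.prod_univ_sum (fun _ : Fin m => (univ : Finset (ZMod 2)))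
    (fun _ x => if x ≠ 0 then b else a)
  rw [Fintype.piFinset_univ] at h1
  rw [← h1, Finset.prod_const, Finset.card_univ, Fintype.card_fin]
  congr 1
  have h2 : (univ : Finset (ZMod 2)) = {0, 1} := by decide
  rw [h2, Finset.sum_pair (by decide), if_neg (by decide), if_pos (by decide)]

theorem prod_wt (m : ℕ) (a b : ℝ) (y : Fin m → ZMod 2) :
    ∏ v, (if y v ≠ 0 then b else a) = b ^ wt y * a ^ (m - wt y) := by
  classical
  rw [Finset.prod_ite, Finset.prod_const, Finset.prod_const]
  have h4 : (univ.filter fun i : Fin m => y i ≠ 0).card = wt y := rfl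
  have h5 : (univ.filter fun i : Fin m => ¬ y i ≠ 0).card = m - wt y := by
    have h6 := Finset.card_filter_add_card_filter_not (s := (univ : Finset (Fin m)))
      (p := fun i => y i ≠ 0)
    rw [Finset.card_univ, Fintype.card_fin, h4] at h6
    omega
  rw [h4, h5]

theorem wt_le (y : Fin m → ZMod 2) : wt y ≤ m := by
  unfold wt
  refine (Finset.card_le_univ _).trans (le_of_eq (Fintype.card_fin m))

end Pool.Agent.TH658.Xr
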